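import Mathlib

/-!
Definitions used in the statement: rooted graphs presented on `ℕ`, simple random walk, recurrence,
unimodularity, the wired uniform spanning forest.
-/

open MeasureTheory Filter Topology
open scoped Classical unitInterval ENNReal

namespace Pool.Agent.WUSF

/-- A set as a finset (empty if the set is infinite). -/
noncomputable def toFin {α : Type*} (s : Set α) : Finset α :=
  if h : s.Finite then h.toFinset else ∅

/-- The neighbours of `x` in the graph with edge set `E`. -/
noncomputable def nbr (E : Set (Sym2 ℕ)) (x : ℕ) : Finset ℕ := toFin {y | s(x, y) ∈ E}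

/-- The average of `f` over the neighbours of `x`. -/
noncomputable def avg (E : Set (Sym2 ℕ)) (f : ℕ → ℝ) (x : ℕ) : ℝ :=
  (∑ y ∈ nbr E x, f y) / (nbr E x).card

/-- The probability that simple random walk from `x` visits `ρ` within `n` steps. -/
noncomputable def hit (E : Set (Sym2 ℕ)) (ρ : ℕ) : ℕ → ℕ → ℝ
  | 0, x => if x = ρ then 1 else 0
  | n + 1, x => if x = ρ then 1 else avg E (hit E ρ n) x

/-- Recurrence: simple random walk started at `ρ` returns to `ρ` with probability one.  Here
`avg E (hit E ρ n) ρ` is the probability of a return within `n + 1` steps.  The one-vertex graph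
(no neighbours) counts as recurrent. -/
def Recurrent (E : Set (Sym2 ℕ)) (ρ : ℕ) : Prop :=
  nbr E ρ = ∅ ∨ Tendsto (fun n => avg E (hit E ρ n) ρ) atTop (𝓝 1)

/-- The vertex set of the connected graph with edge set `E` and root `ρ`: everything that can be
reached from the root. -/
def verts (E : Set (Sym2 ℕ)) (ρ : ℕ) : Set ℕ :=
  {x | Relation.ReflTransGen (fun u v => s(u, v) ∈ E) ρ x}

/-- `(E, ρ)` presents a connected, locally finite, simple rooted graph, with vertex set
`verts E ρ ⊆ ℕ`.  Infinitely many natural numbers are left unused, so that isomorphisms between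
presented graphs are exactly the restrictions of permutations of `ℕ`. -/
structure IsRootedGraph (E : Set (Sym2 ℕ)) (ρ : ℕ) : Prop where
  noloop : ∀ x, s(x, x) ∉ E
  locallyFinite : ∀ x, {y | s(x, y) ∈ E}.Finite
  connected : ∀ x y, s(x, y) ∈ E → x ∈ verts E ρ
  room : (verts E ρ)ᶜ.Infinite

/-- The mass transport principle for the law `P` of a random rooted graph. -/
def Unimodular (P : Measure (Set (Sym2 ℕ) × ℕ)) : Prop :=
  ∀ f : Set (Sym2 ℕ) → ℕ → ℕ → ℝ≥0∞,
    Measurable (fun z : Set (Sym2 ℕ) × ℕ × ℕ => f z.1 z.2.1 z.2.2) →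
    (∀ (π : Equiv.Perm ℕ) (E : Set (Sym2 ℕ)) (x y : ℕ),
      f (Sym2.map π '' E) (π x) (π y) = f E x y) →
    ∫⁻ z, (∑' x : ℕ, if x ∈ verts z.1 z.2 then f z.1 z.2 x else 0) ∂P =
      ∫⁻ z, (∑' x : ℕ, if x ∈ verts z.1 z.2 then f z.1 x z.2 else 0) ∂P

/-- `S` is the edge set of a spanning tree of the graph obtained from the graph with vertex set
`V` and edge set `E` by identifying all vertices outside the finite set `Λ` into one vertex (there
is nothing to identify if `V ⊆ Λ`).  A spanning tree is a set of edges that connects all vertices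
and has one edge less than the number of vertices; edges between two identified vertices are loops
and are never used. -/
def WiredTree (E : Set (Sym2 ℕ)) (V : Set ℕ) (Λ : Finset ℕ) (S : Finset (Sym2 ℕ)) : Prop :=
  (∀ e ∈ S, e ∈ E ∧ ∃ x ∈ Λ, x ∈ e) ∧
  (∀ u ∈ V, ∀ v ∈ V, Relation.EqvGen
    (fun a b => s(a, b) ∈ S ∨ (a ∈ V \ (Λ : Set ℕ) ∧ b ∈ V \ (Λ : Set ℕ))) u v) ∧
  S.card + 1 = Λ.card + (if V ⊆ (Λ : Set ℕ) then 0 else 1)

/-- The probability, under the uniform spanning tree of the graph wired outside `Λ`, that the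
tree agrees with `R` on the finite set of edges `W`. -/
noncomputable def wiredProb (E : Set (Sym2 ℕ)) (V : Set ℕ) (Λ : Finset ℕ)
    (W R : Finset (Sym2 ℕ)) : ℝ :=
  ({S : Finset (Sym2 ℕ) | WiredTree E V Λ S ∧ ∀ e ∈ W, (e ∈ S ↔ e ∈ R)}.ncard : ℝ) /
    ({S : Finset (Sym2 ℕ) | WiredTree E V Λ S}.ncard : ℝ)

/-- `μ` is the law of the wired uniform spanning forest of the graph with vertex set `V` and edge
set `E`: along every exhaustion of `V` by finite sets the wired uniform spanning trees converge
weakly to `μ`. -/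
def IsWUSF (E : Set (Sym2 ℕ)) (V : Set ℕ) (μ : Measure (Set (Sym2 ℕ))) : Prop :=
  ∀ Λ : ℕ → Finset ℕ, Monotone Λ → (⋃ n, (Λ n : Set ℕ)) = V →
    ∀ W R : Finset (Sym2 ℕ), Tendsto (fun n => wiredProb E V (Λ n) W R) atTop
      (𝓝 (μ.real {T | ∀ e ∈ W, (e ∈ T ↔ e ∈ R)}))

end Pool.Agent.WUSF
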