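import Mathlib

/-!
Spanning trees of finite multigraphs. Edges are elements of a type `ι`, vertices are elements of a
finite type `Q`, and `a b : ι → Q` give the two end points of an edge.
-/

open scoped Classical

namespace Pool.Agent.WUSF

section Basic

variable {ι Q : Type*} (a b : ι → Q)

/-- `u` and `v` are connected by edges of `S`. -/
def Conn (S : Finset ι) : Q → Q → Prop :=
  Relation.EqvGen (fun u v => ∃ e ∈ S, a e = u ∧ b e = v)

variable {a b}

lemma Conn.refl (S : Finset ι) (u : Q) : Conn a b S u u := Relation.EqvGen.refl _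

lemma Conn.symm {S : Finset ι} {u v : Q} (h : Conn a b S u v) : Conn a b S v u :=
  Relation.EqvGen.symm _ _ h

lemma Conn.trans {S : Finset ι} {u v w : Q} (h : Conn a b S u v) (h' : Conn a b S v w) :
    Conn a b S u w := Relation.EqvGen.trans _ _ _ h h'

lemma Conn.edge {S : Finset ι} {e : ι} (h : e ∈ S) : Conn a b S (a e) (b e) :=
  Relation.EqvGen.rel _ _ ⟨e, h, rfl, rfl⟩

/-- Connectivity is contained in every equivalence relation containing the edges. -/
lemma Conn.le {S : Finset ι} {r : Q → Q → Prop} (hr : Equivalence r)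
    (h : ∀ e ∈ S, r (a e) (b e)) {u v : Q} (huv : Conn a b S u v) : r u v := by
  induction huv with
  | rel u v h' => obtain ⟨e, he, rfl, rfl⟩ := h'; exact h e he
  | refl u => exact hr.refl u
  | symm u v _ ih => exact hr.symm ih
  | trans u v w _ _ ih1 ih2 => exact hr.trans ih1 ih2

lemma Conn.fun_eq {S : Finset ι} {β : Type*} {φ : Q → β} (h : ∀ e ∈ S, φ (a e) = φ (b e))
    {u v : Q} (huv : Conn a b S u v) : φ u = φ v :=
  Conn.le (r := fun u v => φ u = φ v) ⟨fun _ => rfl, fun h => h.symm, fun h h' => h.trans h'⟩ h huv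

lemma Conn.equivalence (S : Finset ι) : Equivalence (Conn a b S) :=
  ⟨Conn.refl S, Conn.symm, Conn.trans⟩

lemma Conn.mono {S S' : Finset ι} (h : ∀ e ∈ S, Conn a b S' (a e) (b e)) {u v : Q}
    (huv : Conn a b S u v) : Conn a b S' u v :=
  Conn.le (Conn.equivalence S') h huv

lemma Conn.mono_subset {S S' : Finset ι} (h : S ⊆ S') {u v : Q}
    (huv : Conn a b S u v) : Conn a b S' u v :=
  Conn.mono (fun _ he => Conn.edge (h he)) huv

end Basic

section Rank

variable {ι Q : Type*} [Fintype Q] (a b : ι → Q)

/-- A set of edges is a spanning tree if it connects everything and has `|Q| - 1` elements. -/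
def IsTree (S : Finset ι) : Prop :=
  (∀ u v, Conn a b S u v) ∧ S.card + 1 = Fintype.card Q

variable {a b}

/-- A connected set of edges has at least `|Q| - 1` elements. -/
lemma card_le_of_conn [Nonempty Q] {S : Finset ι} (h : ∀ u v, Conn a b S u v) :
    Fintype.card Q ≤ S.card + 1 := by
  let d : (Q → ℚ) →ₗ[ℚ] (S → ℚ) :=
    { toFun := fun φ e => φ (a e) - φ (b e)
      map_add' := by intro φ ψ; ext e; simp only [Pi.add_apply]; ring
      map_smul' := by intro c φ; ext e; simp only [Pi.smul_apply, smul_eq_mul, RingHom.id_apply]; ring }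
  have h1 := LinearMap.finrank_range_add_finrank_ker d
  have h2 : Module.finrank ℚ (LinearMap.range d) ≤ S.card := by
    have := Submodule.finrank_le (LinearMap.range d)
    rw [Module.finrank_pi, Fintype.card_coe] at this
    exact this
  have h3 : Module.finrank ℚ (LinearMap.ker d) ≤ 1 := by
    refine finrank_le_one (⟨fun _ => 1, ?_⟩ : LinearMap.ker d) ?_
    · rw [LinearMap.mem_ker]; ext e; simp [d]
    · rintro ⟨φ, hφ⟩
      obtain ⟨q⟩ := (inferInstance : Nonempty Q)
      refine ⟨φ q, ?_⟩
      ext u
      rw [LinearMap.mem_ker] at hφ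
      have hc : φ u = φ q := by
        refine Conn.fun_eq (a := a) (b := b) (S := S) ?_ (h u q)
        intro e he
        have := congrFun hφ ⟨e, he⟩
        simp only [d, LinearMap.coe_mk, AddHom.coe_mk, Pi.zero_apply] at this
        linarith
      simp [hc]
  rw [Module.finrank_pi] at h1
  omega

lemma IsTree.not_conn {T : Finset ι} (hT : IsTree a b T) {f : ι} (hf : f ∈ T) :
    ¬ Conn a b (T.erase f) (a f) (b f) := by
  intro hc
  have : Nonempty Q := ⟨a f⟩
  have h1 : ∀ u v, Conn a b (T.erase f) u v := by
    intro u v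
    refine Conn.mono (S := T) ?_ (hT.1 u v)
    intro e he
    by_cases hef : e = f
    · rw [hef]; exact hc
    · exact Conn.edge (Finset.mem_erase.2 ⟨hef, he⟩)
  have h2 := card_le_of_conn h1
  have h3 := Finset.card_erase_of_mem hf
  have h4 := hT.2
  have h5 : 0 < T.card := Finset.card_pos.2 ⟨f, hf⟩
  omega

omit [Fintype Q] in
lemma conn_erase_or {T : Finset ι} (hT : ∀ u v, Conn a b T u v) (f : ι) (u : Q) :
    Conn a b (T.erase f) u (a f) ∨ Conn a b (T.erase f) u (b f) := by
  have key : (fun u => (Conn a b (T.erase f) u (a f) ∨ Conn a b (T.erase f) u (b f))) u =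
      (fun u => (Conn a b (T.erase f) u (a f) ∨ Conn a b (T.erase f) u (b f))) (a f) := by
    refine Conn.fun_eq (a := a) (b := b) (S := T) (φ := fun u =>
      (Conn a b (T.erase f) u (a f) ∨ Conn a b (T.erase f) u (b f))) ?_ (hT u (a f))
    intro e he
    by_cases hef : e = f
    · subst hef
      simp only [eq_iff_iff]
      exact ⟨fun _ => Or.inr (Conn.refl _ _), fun _ => Or.inl (Conn.refl _ _)⟩
    · have h1 : Conn a b (T.erase f) (a e) (b e) := Conn.edge (Finset.mem_erase.2 ⟨hef, he⟩)
      simp only [eq_iff_iff]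
      constructor
      · rintro (h | h)
        · exact Or.inl (h1.symm.trans h)
        · exact Or.inr (h1.symm.trans h)
      · rintro (h | h)
        · exact Or.inl (h1.trans h)
        · exact Or.inr (h1.trans h)
  have := key
  simp only [eq_iff_iff] at this
  exact this.2 (Or.inl (Conn.refl _ _))

lemma IsTree.exchange {T : Finset ι} (hT : IsTree a b T) {f g : ι} (hf : f ∈ T)
    (hg : ¬ Conn a b (T.erase f) (a g) (b g)) : IsTree a b (insert g (T.erase f)) := by
  have hgn : g ∉ T.erase f := fun h => hg (Conn.edge h)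
  have hsub : T.erase f ⊆ insert g (T.erase f) := Finset.subset_insert _ _
  constructor
  · have hab : Conn a b (insert g (T.erase f)) (a f) (b f) := by
      have hge : Conn a b (insert g (T.erase f)) (a g) (b g) :=
        Conn.edge (Finset.mem_insert_self _ _)
      rcases conn_erase_or hT.1 f (a g) with h1 | h1 <;>
        rcases conn_erase_or hT.1 f (b g) with h2 | h2
      · exact absurd (h1.trans h2.symm) hg
      · exact ((h1.mono_subset hsub).symm.trans hge).trans (h2.mono_subset hsub)
      · exact ((h2.mono_subset hsub).symm.trans hge.symm).trans (h1.mono_subset hsub)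
      · exact absurd (h1.trans h2.symm) hg
    intro u v
    refine Conn.mono (S := T) ?_ (hT.1 u v)
    intro e he
    by_cases hef : e = f
    · rw [hef]; exact hab
    · exact Conn.edge (hsub (Finset.mem_erase.2 ⟨hef, he⟩))
  · rw [Finset.card_insert_of_notMem hgn, Finset.card_erase_of_mem hf]
    have h5 : 0 < T.card := Finset.card_pos.2 ⟨f, hf⟩
    have := hT.2
    omega

variable (a b)

/-- The side of `u` with respect to the edge `f` of the tree `T`. -/
noncomputable def side (T : Finset ι) (f : ι) (u : Q) : ℤ :=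
  if Conn a b (T.erase f) u (a f) then 1 else 0

variable {a b}

lemma side_edge {T : Finset ι} (hT : IsTree a b T) {f g : ι} (hf : f ∈ T) (hg : g ∈ T) :
    side a b T f (a g) - side a b T f (b g) = if g = f then 1 else 0 := by
  unfold side
  by_cases hgf : g = f
  · subst hgf
    rw [if_pos rfl, if_pos (Conn.refl _ _), if_neg]
    · norm_num
    · exact fun h => hT.not_conn hf h.symm
  · rw [if_neg hgf]
    have h1 : Conn a b (T.erase f) (a g) (b g) := Conn.edge (Finset.mem_erase.2 ⟨hgf, hg⟩)
    have h2 : Conn a b (T.erase f) (a g) (a f) ↔ Conn a b (T.erase f) (b g) (a f) :=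
      ⟨fun h => h1.symm.trans h, fun h => h1.trans h⟩
    simp only [h2]
    ring

/-- The fundamental cut formula. -/
lemma cut_formula {T : Finset ι} (hT : IsTree a b T) (φ : Q → ℤ) (u v : Q) :
    φ u - φ v = ∑ f ∈ T, (φ (a f) - φ (b f)) * (side a b T f u - side a b T f v) := by
  have key : (fun u => φ u - ∑ f ∈ T, (φ (a f) - φ (b f)) * side a b T f u) u =
      (fun u => φ u - ∑ f ∈ T, (φ (a f) - φ (b f)) * side a b T f u) v := by
    refine Conn.fun_eq (a := a) (b := b) (S := T) (φ := fun u =>
      φ u - ∑ f ∈ T, (φ (a f) - φ (b f)) * side a b T f u) ?_ (hT.1 u v)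
    intro g hg
    have h1 : ∑ f ∈ T, (φ (a f) - φ (b f)) * side a b T f (a g) -
        ∑ f ∈ T, (φ (a f) - φ (b f)) * side a b T f (b g) = φ (a g) - φ (b g) := by
      rw [← Finset.sum_sub_distrib]
      rw [Finset.sum_eq_single g]
      · rw [← mul_sub, side_edge hT hg hg, if_pos rfl, mul_one]
      · intro f hf hfg
        rw [← mul_sub, side_edge hT hf hg, if_neg (Ne.symm hfg), mul_zero]
      · intro h; exact absurd hg h
    show φ (a g) - ∑ f ∈ T, (φ (a f) - φ (b f)) * side a b T f (a g) =
      φ (b g) - ∑ f ∈ T, (φ (a f) - φ (b f)) * side a b T f (b g)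
    linarith
  simp only at key
  have h2 : ∑ f ∈ T, (φ (a f) - φ (b f)) * (side a b T f u - side a b T f v) =
      ∑ f ∈ T, (φ (a f) - φ (b f)) * side a b T f u -
      ∑ f ∈ T, (φ (a f) - φ (b f)) * side a b T f v := by
    rw [← Finset.sum_sub_distrib]
    exact Finset.sum_congr rfl fun f _ => by ring
  rw [h2]
  linarith

end Rank

end Pool.Agent.WUSF
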