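import Mathlib
import Pool.Agent.WUSF.Trees

/-!
The Rayleigh inequality for spanning trees, by a potential argument.
-/

open scoped Classical

namespace Pool.Agent.WUSF

variable {ι Q : Type*} [Fintype Q] (a b : ι → Q) (E : Finset ι)

/-- Spanning trees contained in `E`, containing `K` and avoiding `D`. -/
noncomputable def fam (K D : Finset ι) : Finset (Finset ι) :=
  E.powerset.filter fun T => IsTree a b T ∧ K ⊆ T ∧ Disjoint T D

variable {a b E}

lemma mem_fam {K D T : Finset ι} :
    T ∈ fam a b E K D ↔ T ⊆ E ∧ IsTree a b T ∧ K ⊆ T ∧ Disjoint T D := by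
  simp [fam]

lemma disjoint_insert_right' {T D : Finset ι} {e : ι} :
    Disjoint T (insert e D) ↔ e ∉ T ∧ Disjoint T D := by
  rw [Finset.disjoint_insert_right]

/-- Kirchhoff's lemma: the net number of trees whose `x`-`y` path uses `g` is a potential
difference. -/
lemma kirchhoff {K D : Finset ι} {e g : ι} (heE : e ∈ E) (heK : e ∉ K) (heD : e ∉ D)
    (hgE : g ∈ E) (hgK : g ∉ K) (hgD : g ∉ D) (hge : g ≠ e) :
    ∑ T ∈ (fam a b E K (insert e D)).filter (fun T => g ∈ T),
        (side a b T g (a e) - side a b T g (b e)) =
      ∑ T ∈ fam a b E (insert e K) D, (side a b T e (a g) - side a b T e (b g)) := by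
  -- restrict both sums to the nonzero terms
  rw [← Finset.sum_filter_of_ne (s := (fam a b E K (insert e D)).filter (fun T => g ∈ T))
    (p := fun T => ¬ Conn a b (T.erase g) (a e) (b e)), ← Finset.sum_filter_of_ne
    (s := fam a b E (insert e K) D)
    (p := fun T => g ∉ T ∧ ¬ Conn a b (T.erase e) (a g) (b g))]
  · refine Finset.sum_bij' (i := fun T _ => insert e (T.erase g))
      (j := fun T _ => insert g (T.erase e)) ?_ ?_ ?_ ?_ ?_
    · intro T hT
      simp only [Finset.mem_filter, mem_fam] at hT ⊢
      obtain ⟨⟨⟨h1, h2, h3, h4⟩, h5⟩, h6⟩ := hT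
      rw [disjoint_insert_right'] at h4
      have heT : e ∉ T.erase g := fun h => h4.1 (Finset.mem_of_mem_erase h)
      have hgi : g ∉ insert e (T.erase g) := by simp [hge]
      refine ⟨⟨?_, h2.exchange h5 h6, ?_, ?_⟩, hgi, ?_⟩
      · exact Finset.insert_subset heE ((Finset.erase_subset _ _).trans h1)
      · refine Finset.insert_subset_insert _ ?_
        intro k hk
        exact Finset.mem_erase.2 ⟨fun h => hgK (h ▸ hk), h3 hk⟩
      · rw [Finset.disjoint_insert_left]
        exact ⟨heD, h4.2.mono_left (Finset.erase_subset _ _)⟩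
      · rw [Finset.erase_insert heT]
        exact h2.not_conn h5
    · intro T hT
      simp only [Finset.mem_filter, mem_fam] at hT ⊢
      obtain ⟨⟨h1, h2, h3, h4⟩, h5, h6⟩ := hT
      have heT : e ∈ T := h3 (Finset.mem_insert_self _ _)
      have hgT : g ∉ T.erase e := fun h => h5 (Finset.mem_of_mem_erase h)
      refine ⟨⟨⟨?_, h2.exchange heT h6, ?_, ?_⟩, Finset.mem_insert_self _ _⟩, ?_⟩
      · exact Finset.insert_subset hgE ((Finset.erase_subset _ _).trans h1)
      · intro k hk
        exact Finset.mem_insert_of_mem (Finset.mem_erase.2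
          ⟨fun h => heK (h ▸ hk), h3 (Finset.mem_insert_of_mem hk)⟩)
      · rw [disjoint_insert_right', Finset.disjoint_insert_left]
        exact ⟨by simp [Ne.symm hge], hgD, h4.mono_left (Finset.erase_subset _ _)⟩
      · rw [Finset.erase_insert hgT]
        exact h2.not_conn heT
    · intro T hT
      simp only [Finset.mem_filter, mem_fam, disjoint_insert_right'] at hT
      obtain ⟨⟨⟨h1, h2, h3, h4⟩, h5⟩, h6⟩ := hT
      have heT : e ∉ T.erase g := fun h => h4.1 (Finset.mem_of_mem_erase h)
      rw [Finset.erase_insert heT, Finset.insert_erase h5]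
    · intro T hT
      simp only [Finset.mem_filter, mem_fam] at hT
      obtain ⟨⟨h1, h2, h3, h4⟩, h5, h6⟩ := hT
      have heT : e ∈ T := h3 (Finset.mem_insert_self _ _)
      have hgT : g ∉ T.erase e := fun h => h5 (Finset.mem_of_mem_erase h)
      rw [Finset.erase_insert hgT, Finset.insert_erase heT]
    · intro T hT
      simp only [Finset.mem_filter, mem_fam, disjoint_insert_right'] at hT
      obtain ⟨⟨⟨h1, h2, h3, h4⟩, h5⟩, h6⟩ := hT
      have heT : e ∉ T.erase g := fun h => h4.1 (Finset.mem_of_mem_erase h)
      have hng := h2.not_conn h5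
      unfold side
      rw [Finset.erase_insert heT]
      rcases conn_erase_or h2.1 g (a e) with h7 | h7 <;>
        rcases conn_erase_or h2.1 g (b e) with h8 | h8
      · exact absurd (h7.trans h8.symm) h6
      · have e1 : ¬ Conn a b (T.erase g) (b e) (a g) := fun h => hng (h.symm.trans h8)
        have e2 : ¬ Conn a b (T.erase g) (b g) (a e) := fun h => hng (h7.symm.trans h.symm)
        rw [if_pos h7, if_neg e1, if_pos h7.symm, if_neg e2]
      · have e1 : ¬ Conn a b (T.erase g) (a e) (a g) := fun h => hng (h.symm.trans h7)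
        rw [if_neg e1, if_pos h8, if_neg (fun h => e1 h.symm), if_pos h7.symm]
      · exact absurd (h7.trans h8.symm) h6
  · -- nonzero terms on the right
    intro T hT hne
    constructor
    · intro hgT
      apply hne
      simp only [mem_fam] at hT
      have heT : e ∈ T := hT.2.2.1 (Finset.mem_insert_self _ _)
      rw [side_edge hT.2.1 heT hgT, if_neg hge]
    · intro hc
      apply hne
      unfold side
      have h2 : Conn a b (T.erase e) (a g) (a e) ↔ Conn a b (T.erase e) (b g) (a e) :=
        ⟨fun h => hc.symm.trans h, fun h => hc.trans h⟩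
      simp only [h2, sub_self]
  · intro T hT hne hc
    apply hne
    unfold side
    have h2 : Conn a b (T.erase g) (a e) (a g) ↔ Conn a b (T.erase g) (b e) (a g) :=
      ⟨fun h => hc.symm.trans h, fun h => hc.trans h⟩
    simp only [h2, sub_self]

variable (a b E) in
/-- The potential difference across `g`. -/
noncomputable def theta (K D : Finset ι) (e g : ι) : ℤ :=
  ∑ T ∈ fam a b E (insert e K) D, (side a b T e (a g) - side a b T e (b g))

lemma fam_insert_eq {K D : Finset ι} {f : ι} :
    fam a b E (insert f K) D = (fam a b E K D).filter (fun T => f ∈ T) := by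
  ext T
  simp only [mem_fam, Finset.mem_filter, Finset.insert_subset_iff]
  tauto

lemma fam_insert_eq' {K D : Finset ι} {f : ι} :
    fam a b E K (insert f D) = (fam a b E K D).filter (fun T => f ∉ T) := by
  ext T
  simp only [mem_fam, Finset.mem_filter, disjoint_insert_right']
  tauto

lemma theta_eq_zero {K D : Finset ι} {e g : ι} (heK : e ∉ K) (hg : g ∈ K) :
    theta a b E K D e g = 0 := by
  unfold theta
  refine Finset.sum_eq_zero fun T hT => ?_
  rw [mem_fam] at hT
  have heT : e ∈ T := hT.2.2.1 (Finset.mem_insert_self _ _)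
  have hgT : g ∈ T := hT.2.2.1 (Finset.mem_insert_of_mem hg)
  rw [side_edge hT.2.1 heT hgT, if_neg]
  rintro rfl
  exact heK hg

variable (a b E) in
/-- The net number of trees avoiding `e` whose `x`-`y` path uses `g`. -/
noncomputable def eta (K D : Finset ι) (e g : ι) : ℤ :=
  ∑ T ∈ (fam a b E K (insert e D)).filter (fun T => g ∈ T),
    (side a b T g (a e) - side a b T g (b e))

lemma eta_eq_zero {K D : Finset ι} {e g : ι} (hg : g ∈ insert e D) : eta a b E K D e g = 0 := by
  have hf : (fam a b E K (insert e D)).filter (fun T' => g ∈ T') = ∅ := by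
    ext T'
    simp only [Finset.mem_filter, mem_fam, Finset.notMem_empty, iff_false, not_and]
    rintro ⟨_, _, _, h4⟩ h5
    exact Finset.disjoint_left.1 h4 h5 hg
  rw [eta, hf, Finset.sum_empty]

/-- Formula (1): the potential drop along a tree avoiding `e`. -/
lemma drop_formula {K D : Finset ι} {e : ι} {T' : Finset ι}
    (hT' : T' ∈ fam a b E K (insert e D)) :
    ((fam a b E (insert e K) D).card : ℤ) =
      ∑ g ∈ E, theta a b E K D e g * (if g ∈ T' then
        (side a b T' g (a e) - side a b T' g (b e)) else 0) := by
  have h := hT'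
  rw [mem_fam] at h
  have h1 := cut_formula h.2.1 (fun u => ∑ T ∈ fam a b E (insert e K) D, side a b T e u)
    (a e) (b e)
  have h2 : (∑ T ∈ fam a b E (insert e K) D, side a b T e (a e)) -
      ∑ T ∈ fam a b E (insert e K) D, side a b T e (b e) =
      ((fam a b E (insert e K) D).card : ℤ) := by
    rw [← Finset.sum_sub_distrib, Finset.card_eq_sum_ones]
    push_cast
    refine Finset.sum_congr rfl fun T hT => ?_
    rw [mem_fam] at hT
    have heT : e ∈ T := hT.2.2.1 (Finset.mem_insert_self _ _)
    rw [side_edge hT.2.1 heT heT, if_pos rfl]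
  rw [← h2, h1]
  simp only [mul_ite, mul_zero]
  rw [← Finset.sum_filter]
  have h3 : E.filter (fun g => g ∈ T') = T' := by
    ext g; simp only [Finset.mem_filter]; exact ⟨fun h' => h'.2, fun h' => ⟨h.1 h', h'⟩⟩
  rw [h3]
  refine Finset.sum_congr rfl fun g _ => ?_
  rw [theta, Finset.sum_sub_distrib]

/-- Formula (2): the flow across the cut of a tree containing `e`. -/
lemma flow_formula {K D : Finset ι} {e : ι}
    {T : Finset ι} (hT : T ∈ fam a b E (insert e K) D) :
    ((fam a b E K (insert e D)).card : ℤ) =
      ∑ g ∈ E, eta a b E K D e g * (side a b T e (a g) - side a b T e (b g)) := by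
  have h := hT
  rw [mem_fam] at h
  have heT : e ∈ T := h.2.2.1 (Finset.mem_insert_self _ _)
  have h1 : ∀ T' ∈ fam a b E K (insert e D), (1 : ℤ) = ∑ g ∈ E, if g ∈ T' then
      (side a b T e (a g) - side a b T e (b g)) *
        (side a b T' g (a e) - side a b T' g (b e)) else 0 := by
    intro T' hT'
    rw [mem_fam] at hT'
    have h2 := cut_formula hT'.2.1 (fun u => side a b T e u) (a e) (b e)
    rw [side_edge h.2.1 heT heT, if_pos rfl] at h2
    rw [h2, ← Finset.sum_filter]
    have h3 : E.filter (fun g => g ∈ T') = T' := by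
      ext g; simp only [Finset.mem_filter]; exact ⟨fun h' => h'.2, fun h' => ⟨hT'.1 h', h'⟩⟩
    rw [h3]
  rw [Finset.card_eq_sum_ones]
  push_cast
  rw [Finset.sum_congr rfl h1, Finset.sum_comm]
  refine Finset.sum_congr rfl fun g _ => ?_
  rw [← Finset.sum_filter, ← Finset.mul_sum, mul_comm, eta]

/-- The Rayleigh inequality. -/
theorem rayleigh {K D : Finset ι} {e f : ι} (heE : e ∈ E) (heK : e ∉ K) (heD : e ∉ D)
    (hfE : f ∈ E) (hfK : f ∉ K) (hfD : f ∉ D) (hfe : f ≠ e) :
    (fam a b E (insert e (insert f K)) D).card * (fam a b E K (insert e D)).card ≤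
      (fam a b E (insert f K) (insert e D)).card * (fam a b E (insert e K) D).card := by
  have hef : e ∉ insert f K := by
    rw [Finset.mem_insert, not_or]; exact ⟨Ne.symm hfe, heK⟩
  -- sum formula (1) over trees containing `f`
  have s1 : ((fam a b E (insert f K) (insert e D)).card : ℤ) *
      (fam a b E (insert e K) D).card =
      ∑ g ∈ E, theta a b E K D e g * eta a b E (insert f K) D e g := by
    have h1 : ∀ T' ∈ fam a b E (insert f K) (insert e D),
        ((fam a b E (insert e K) D).card : ℤ) = ∑ g ∈ E, theta a b E K D e g * (if g ∈ T' then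
        (side a b T' g (a e) - side a b T' g (b e)) else 0) := by
      intro T' hT'
      refine drop_formula ?_
      rw [fam_insert_eq] at hT'
      exact (Finset.mem_filter.1 hT').1
    have h2 : ((fam a b E (insert f K) (insert e D)).card : ℤ) *
        (fam a b E (insert e K) D).card =
        ∑ T' ∈ fam a b E (insert f K) (insert e D), ((fam a b E (insert e K) D).card : ℤ) := by
      rw [Finset.sum_const, nsmul_eq_mul]
    rw [h2, Finset.sum_congr rfl h1, Finset.sum_comm]
    refine Finset.sum_congr rfl fun g _ => ?_
    rw [← Finset.mul_sum, ← Finset.sum_filter, eta]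
  have s2 : ((fam a b E (insert e (insert f K)) D).card : ℤ) *
      (fam a b E K (insert e D)).card =
      ∑ g ∈ E, eta a b E K D e g * theta a b E (insert f K) D e g := by
    have h1 : ∀ T ∈ fam a b E (insert e (insert f K)) D,
        ((fam a b E K (insert e D)).card : ℤ) =
        ∑ g ∈ E, eta a b E K D e g * (side a b T e (a g) - side a b T e (b g)) := by
      intro T hT
      refine flow_formula ?_
      rw [Finset.insert_comm, fam_insert_eq] at hT
      exact (Finset.mem_filter.1 hT).1
    have h2 : ((fam a b E (insert e (insert f K)) D).card : ℤ) *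
        (fam a b E K (insert e D)).card =
        ∑ T ∈ fam a b E (insert e (insert f K)) D, ((fam a b E K (insert e D)).card : ℤ) := by
      rw [Finset.sum_const, nsmul_eq_mul]
    rw [h2, Finset.sum_congr rfl h1, Finset.sum_comm]
    refine Finset.sum_congr rfl fun g _ => ?_
    rw [← Finset.mul_sum, theta]
  have key : ∑ g ∈ E, theta a b E K D e g * eta a b E (insert f K) D e g -
      ∑ g ∈ E, eta a b E K D e g * theta a b E (insert f K) D e g =
      theta a b E K D e f ^ 2 := by
    rw [← Finset.sum_sub_distrib, Finset.sum_eq_single_of_mem f hfE]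
    · rw [theta_eq_zero hef (Finset.mem_insert_self f K), mul_zero, sub_zero, pow_two]
      congr 1
      have h1 : eta a b E (insert f K) D e f = eta a b E K D e f := by
        rw [eta, eta, fam_insert_eq, Finset.filter_filter]
        congr 1
        ext T
        simp only [Finset.mem_filter, and_self]
      rw [h1, eta, theta, kirchhoff heE heK heD hfE hfK hfD hfe]
    · intro g hgE hgf
      by_cases hgK : g ∈ K
      · rw [theta_eq_zero heK hgK, theta_eq_zero hef (Finset.mem_insert_of_mem hgK)]
        ring
      by_cases hgD : g ∈ insert e D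
      · rw [eta_eq_zero hgD, eta_eq_zero hgD]; ring
      · rw [Finset.mem_insert, not_or] at hgD
        have hgK' : g ∉ insert f K := by
          rw [Finset.mem_insert, not_or]; exact ⟨hgf, hgK⟩
        have h1 : eta a b E K D e g = theta a b E K D e g :=
          kirchhoff heE heK heD hgE hgK hgD.2 hgD.1
        have h2 : eta a b E (insert f K) D e g = theta a b E (insert f K) D e g :=
          kirchhoff heE hef heD hgE hgK' hgD.2 hgD.1
        rw [h1, h2]; ring
  have h := sq_nonneg (theta a b E K D e f)
  rw [← key, ← s1, ← s2] at h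
  have h' : ((fam a b E (insert e (insert f K)) D).card : ℤ) *
      (fam a b E K (insert e D)).card ≤ ((fam a b E (insert f K) (insert e D)).card : ℤ) *
      (fam a b E (insert e K) D).card := by linarith
  exact_mod_cast h'

end Pool.Agent.WUSF
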