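import Mathlib
import Pool.Agent.WUSF.Rayleigh

/-!
The Feder-Mihail inequality (negative association) for spanning trees and monotonicity under
contraction versus deletion.
-/

open scoped Classical

namespace Pool.Agent.WUSF

variable {ι Q : Type*} [Fintype Q] {a b : ι → Q} {E : Finset ι}

/-- number of trees in a family satisfying `A` -/
noncomputable def cnt (a b : ι → Q) (E : Finset ι) (A : Finset ι → Prop) (K D : Finset ι) : ℕ :=
  ((fam a b E K D).filter A).card

lemma cnt_le (A : Finset ι → Prop) (K D : Finset ι) :
    cnt a b E A K D ≤ (fam a b E K D).card := Finset.card_filter_le _ _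

lemma card_split (K D : Finset ι) (f : ι) :
    (fam a b E K D).card = (fam a b E (insert f K) D).card + (fam a b E K (insert f D)).card := by
  rw [fam_insert_eq, fam_insert_eq', Finset.card_filter_add_card_filter_not]

lemma cnt_split (A : Finset ι → Prop) (K D : Finset ι) (f : ι) :
    cnt a b E A K D = cnt a b E A (insert f K) D + cnt a b E A K (insert f D) := by
  unfold cnt
  rw [fam_insert_eq, fam_insert_eq', Finset.filter_filter, Finset.filter_filter,
    ← Finset.card_union_of_disjoint]
  · congr 1
    ext T
    simp only [Finset.mem_filter, Finset.mem_union]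
    tauto
  · rw [Finset.disjoint_left]
    intro T h1 h2
    simp only [Finset.mem_filter] at h1 h2
    exact h2.2.1 h1.2.1

/-- sums over free edges -/
lemma sum_card_free (A : Finset ι → Prop) {K D : Finset ι} :
    ∑ f ∈ E \ (K ∪ D), cnt a b E A (insert f K) D =
      (Fintype.card Q - 1 - K.card) * cnt a b E A K D := by
  have h1 : ∀ f ∈ E \ (K ∪ D), cnt a b E A (insert f K) D =
      ∑ T ∈ (fam a b E K D).filter A, if f ∈ T then 1 else 0 := by
    intro f _
    rw [cnt, fam_insert_eq, Finset.card_eq_sum_ones, Finset.filter_filter, Finset.sum_filter,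
      Finset.sum_filter]
    refine Finset.sum_congr rfl fun T _ => ?_
    by_cases h2 : f ∈ T <;> by_cases h3 : A T <;> simp [h2, h3]
  rw [Finset.sum_congr rfl h1, Finset.sum_comm]
  have h2 : ∀ T ∈ (fam a b E K D).filter A,
      (∑ f ∈ E \ (K ∪ D), if f ∈ T then 1 else 0) = Fintype.card Q - 1 - K.card := by
    intro T hT
    rw [Finset.mem_filter, mem_fam] at hT
    obtain ⟨⟨h3, h4, h5, h6⟩, _⟩ := hT
    rw [← Finset.sum_filter, ← Finset.card_eq_sum_ones]
    have h7 : (E \ (K ∪ D)).filter (fun f => f ∈ T) = T \ K := by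
      ext f
      simp only [Finset.mem_filter, Finset.mem_sdiff, Finset.mem_union, not_or]
      constructor
      · rintro ⟨⟨_, h8, _⟩, h9⟩; exact ⟨h9, h8⟩
      · rintro ⟨h8, h9⟩; exact ⟨⟨h3 h8, h9, Finset.disjoint_left.1 h6 h8⟩, h8⟩
    rw [h7, Finset.card_sdiff_of_subset h5]
    have := h4.2
    omega
  rw [Finset.sum_congr rfl h2, Finset.sum_const, smul_eq_mul, cnt, mul_comm]

/-- The arithmetic of the induction step. -/
lemma fm_arith {α αf α' αA αfA αA' β βf β' βA βfA βA' : ℕ}
    (h1 : α = αf + α') (h2 : αA = αfA + αA') (h3 : β = βf + β') (h4 : βA = βfA + βA')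
    (hray : αf * β ≤ βf * α) (ih1 : αfA * βf ≤ βfA * αf) (ih2 : αA' * β' ≤ βA' * α')
    (hch : αf * αA ≤ αfA * α) (hpos : 0 < αf) (hle' : αA' ≤ α') : αA * β ≤ βA * α := by
  have hray2 : αf * β' ≤ βf * α' := by
    rw [h1, h3] at hray; nlinarith
  have hch2 : αf * αA' ≤ αfA * α' := by
    rw [h1, h2] at hch; nlinarith
  by_cases hα' : α' = 0
  · have hβ' : β' = 0 := by
      rw [hα', mul_zero] at hray2
      have := Nat.le_zero.1 hray2
      rcases Nat.mul_eq_zero.1 this with h | h
      · omega
      · exact h
    have hαA' : αA' = 0 := by omega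
    rw [h1, h2, h3, h4, hα', hβ', hαA']
    simp only [add_zero]
    calc αfA * βf ≤ βfA * αf := ih1
      _ ≤ (βfA + βA') * αf := Nat.mul_le_mul_right _ (Nat.le_add_right _ _)
  have hα'pos : 0 < α' := Nat.pos_of_ne_zero hα'
  -- work over the rationals
  have q1 : (0 : ℚ) < αf := by exact_mod_cast hpos
  have q2 : (0 : ℚ) < α' := by exact_mod_cast hα'pos
  have q3 : (αf : ℚ) * β' ≤ βf * α' := by exact_mod_cast hray2
  have q4 : (αf : ℚ) * αA' ≤ αfA * α' := by exact_mod_cast hch2
  have q5 : (αfA : ℚ) * βf ≤ βfA * αf := by exact_mod_cast ih1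
  have q6 : (αA' : ℚ) * β' ≤ βA' * α' := by exact_mod_cast ih2
  have q7 : (0 : ℚ) ≤ βf := Nat.cast_nonneg _
  have q8 : (0 : ℚ) ≤ β' := Nat.cast_nonneg _
  set x1 : ℚ := αfA / αf with hx1
  set x2 : ℚ := αA' / α' with hx2
  have e1 : (αfA : ℚ) = x1 * αf := by rw [hx1]; field_simp
  have e2 : (αA' : ℚ) = x2 * α' := by rw [hx2]; field_simp
  have hx12 : x2 ≤ x1 := by
    rw [hx1, hx2, div_le_div_iff₀ q2 q1]; linarith
  have b1 : x1 * βf ≤ βfA := by
    rw [e1] at q5
    have : (x1 * βf) * αf ≤ βfA * αf := by linarith
    exact le_of_mul_le_mul_right this q1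
  have b2 : x2 * β' ≤ βA' := by
    rw [e2] at q6
    have : (x2 * β') * α' ≤ βA' * α' := by linarith
    exact le_of_mul_le_mul_right this q2
  have goal : ((αA * β : ℕ) : ℚ) ≤ ((βA * α : ℕ) : ℚ) := by
    rw [h1, h2, h3, h4]
    push_cast
    rw [e1, e2]
    have hα : (0 : ℚ) ≤ αf + α' := by linarith
    have : (x1 * αf + x2 * α') * (βf + β') ≤ (x1 * βf + x2 * β') * (αf + α') := by
      have h9 : 0 ≤ (x1 - x2) * (βf * α' - αf * β') :=
        mul_nonneg (by linarith) (by linarith)
      nlinarith
    refine this.trans ?_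
    exact mul_le_mul_of_nonneg_right (by linarith) hα
  exact_mod_cast goal

/-- The Feder-Mihail inequality. -/
theorem feder_mihail (A : Finset ι → Prop) {e : ι} (heE : e ∈ E)
    (hup : ∀ S S', S ⊆ S' → A S → A S') (he : ∀ S, A (insert e S) → A S) :
    ∀ (n : ℕ) (K D : Finset ι), (E \ (K ∪ D)).card ≤ n → e ∉ K → e ∉ D → Disjoint K D →
      cnt a b E A (insert e K) D * (fam a b E K (insert e D)).card ≤
        cnt a b E A K (insert e D) * (fam a b E (insert e K) D).card := by
  intro n
  induction n with
  | zero =>
    intro K D hn heK heD _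
    exfalso
    have : e ∈ E \ (K ∪ D) := by
      rw [Finset.mem_sdiff, Finset.mem_union, not_or]; exact ⟨heE, heK, heD⟩
    have := Finset.card_pos.2 ⟨e, this⟩
    omega
  | succ n ih =>
    intro K D hn heK heD hKD
    by_cases hα : (fam a b E (insert e K) D).card = 0
    · have : cnt a b E A (insert e K) D = 0 := by
        have := cnt_le (a := a) (b := b) (E := E) A (insert e K) D
        omega
      rw [this, hα]
      simp
    have hsumA := sum_card_free (a := a) (b := b) (E := E) (K := insert e K) (D := D) A
    have hsum1 := sum_card_free (a := a) (b := b) (E := E) (K := insert e K) (D := D)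
      (fun _ => True)
    have hcT : ∀ K D, cnt a b E (fun _ => True) K D = (fam a b E K D).card := by
      intro K D; unfold cnt; congr 1; ext T; simp
    simp only [hcT] at hsum1
    set r := Fintype.card Q - 1 - (insert e K).card with hr
    by_cases hr0 : r = 0
    · -- all trees of the first family are `insert e K`
      by_cases hcA : cnt a b E A (insert e K) D = 0
      · rw [hcA]; simp
      have hpos : 0 < cnt a b E A (insert e K) D := Nat.pos_of_ne_zero hcA
      obtain ⟨T, hT⟩ := Finset.card_pos.1 hpos
      rw [Finset.mem_filter, mem_fam] at hT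
      obtain ⟨⟨h1, h2, h3, h4⟩, h5⟩ := hT
      have hTK : insert e K = T := by
        refine Finset.eq_of_subset_of_card_le h3 ?_
        have := h2.2
        omega
      have hAK : A K := he K (by rw [hTK]; exact h5)
      have hall : cnt a b E A K (insert e D) = (fam a b E K (insert e D)).card := by
        rw [cnt, Finset.filter_true_of_mem]
        intro T' hT'
        rw [mem_fam] at hT'
        exact hup _ _ hT'.2.2.1 hAK
      rw [hall, mul_comm]
      exact Nat.mul_le_mul_left _ (cnt_le _ _ _)
    -- choose a good edge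
    have hex : ∃ f ∈ E \ (insert e K ∪ D), 0 < (fam a b E (insert f (insert e K)) D).card ∧
        (fam a b E (insert f (insert e K)) D).card * cnt a b E A (insert e K) D ≤
          cnt a b E A (insert f (insert e K)) D * (fam a b E (insert e K) D).card := by
      by_contra hcon
      push Not at hcon
      have hterm : ∀ f ∈ E \ (insert e K ∪ D),
          cnt a b E A (insert f (insert e K)) D * (fam a b E (insert e K) D).card ≤
          (fam a b E (insert f (insert e K)) D).card * cnt a b E A (insert e K) D := by
        intro f hf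
        by_cases h0 : 0 < (fam a b E (insert f (insert e K)) D).card
        · exact (hcon f hf h0).le
        · have h1 : (fam a b E (insert f (insert e K)) D).card = 0 := by omega
          have h2 : cnt a b E A (insert f (insert e K)) D = 0 := by
            have := cnt_le (a := a) (b := b) (E := E) A (insert f (insert e K)) D
            omega
          rw [h1, h2]; simp
      have hsum : ∑ f ∈ E \ (insert e K ∪ D),
          cnt a b E A (insert f (insert e K)) D * (fam a b E (insert e K) D).card =
          ∑ f ∈ E \ (insert e K ∪ D),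
          (fam a b E (insert f (insert e K)) D).card * cnt a b E A (insert e K) D := by
        rw [← Finset.sum_mul, ← Finset.sum_mul, hsumA, hsum1]; ring
      -- some edge has a positive count
      have hposf : ∃ f ∈ E \ (insert e K ∪ D), 0 < (fam a b E (insert f (insert e K)) D).card := by
        by_contra hno
        push Not at hno
        have : ∑ f ∈ E \ (insert e K ∪ D), (fam a b E (insert f (insert e K)) D).card = 0 :=
          Finset.sum_eq_zero fun f hf => by have := hno f hf; omega
        rw [hsum1] at this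
        rcases Nat.mul_eq_zero.1 this with h | h
        · exact hr0 h
        · exact hα h
      obtain ⟨f, hf, hfpos⟩ := hposf
      have := Finset.sum_lt_sum hterm ⟨f, hf, hcon f hf hfpos⟩
      omega
    obtain ⟨f, hf, hfpos, hfch⟩ := hex
    rw [Finset.mem_sdiff, Finset.mem_union, not_or, Finset.mem_insert, not_or] at hf
    obtain ⟨hfE, ⟨hfe, hfK⟩, hfD⟩ := hf
    have hcard : ∀ X, insert f (K ∪ D) ⊆ X → (E \ X).card ≤ n := by
      intro X hX
      have h1 : E \ X ⊂ E \ (K ∪ D) := by
        rw [Finset.ssubset_iff_of_subset]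
        · refine ⟨f, ?_, ?_⟩
          · rw [Finset.mem_sdiff, Finset.mem_union, not_or]; exact ⟨hfE, hfK, hfD⟩
          · rw [Finset.mem_sdiff, not_and, not_not]
            intro _; exact hX (Finset.mem_insert_self _ _)
        · exact Finset.sdiff_subset_sdiff le_rfl ((Finset.subset_insert _ _).trans hX)
      have := Finset.card_lt_card h1
      omega
    have heK' : e ∉ insert f K := by
      rw [Finset.mem_insert, not_or]; exact ⟨Ne.symm hfe, heK⟩
    have heD' : e ∉ insert f D := by
      rw [Finset.mem_insert, not_or]; exact ⟨Ne.symm hfe, heD⟩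
    have ih1 := ih (insert f K) D (hcard _ (by rw [Finset.insert_union])) heK' heD
      (by rw [Finset.disjoint_insert_left]; exact ⟨hfD, hKD⟩)
    have ih2 := ih K (insert f D) (hcard _ (by rw [Finset.union_insert])) heK heD'
      (by rw [Finset.disjoint_insert_right]; exact ⟨hfK, hKD⟩)
    have hray := rayleigh (a := a) (b := b) heE heK heD hfE hfK hfD hfe
    rw [Finset.insert_comm f e K] at hfpos hfch
    refine fm_arith (card_split (insert e K) D f) (cnt_split A (insert e K) D f)
      (card_split K (insert e D) f) (cnt_split A K (insert e D) f) ?_ ?_ ?_ ?_ ?_ (cnt_le _ _ _)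
    · rw [Finset.insert_comm f e K]; exact hray
    · rw [Finset.insert_comm f e K]; exact ih1
    · rw [Finset.insert_comm f e D]; exact ih2
    · rw [Finset.insert_comm f e K]; exact hfch
    · rw [Finset.insert_comm f e K]; exact hfpos

/-- Contraction versus deletion of a set `Z` of edges. -/
theorem contract_le_delete (A : Finset ι → Prop) (hup : ∀ S S', S ⊆ S' → A S → A S') (K : Finset ι)
    (Z : Finset ι) (hZE : Z ⊆ E) (hZ : ∀ z ∈ Z, ∀ S, A (insert z S) → A S) :
    ∀ (D : Finset ι), Disjoint K D → Disjoint Z K → Disjoint Z D →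
      (fam a b E (K ∪ Z) D).Nonempty → (fam a b E K (D ∪ Z)).Nonempty →
      cnt a b E A (K ∪ Z) D * (fam a b E K (D ∪ Z)).card ≤
        cnt a b E A K (D ∪ Z) * (fam a b E (K ∪ Z) D).card := by
  induction Z using Finset.induction_on with
  | empty => intro D _ _ _ _ _; simp
  | insert z Z hz ih =>
    intro D hKD hZK hZD hne1 hne2
    rw [Finset.disjoint_insert_left] at hZK hZD
    have hzE : z ∈ E := hZE (Finset.mem_insert_self _ _)
    have e1 : K ∪ insert z Z = insert z (K ∪ Z) := by rw [Finset.union_insert]
    have e2 : D ∪ insert z Z = insert z D ∪ Z := by rw [Finset.union_insert, Finset.insert_union]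
    -- the intermediate family is nonempty
    have hmid : (fam a b E (K ∪ Z) (insert z D)).Nonempty := by
      obtain ⟨T1, hT1⟩ := hne1
      obtain ⟨T2, hT2⟩ := hne2
      rw [mem_fam] at hT1 hT2
      obtain ⟨p1, p2, p3, p4⟩ := hT1
      obtain ⟨q1, q2, q3, q4⟩ := hT2
      have hzT : z ∈ T1 := p3 (by rw [e1]; exact Finset.mem_insert_self _ _)
      obtain ⟨g, hg, hgc⟩ : ∃ g ∈ T2, ¬ Conn a b (T1.erase z) (a g) (b g) := by
        by_contra hno
        push Not at hno
        exact p2.not_conn hzT (Conn.mono hno (q2.1 _ _))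
      rw [Finset.disjoint_left] at q4
      have hgD : g ∉ insert z D := by
        intro h
        apply q4 hg
        rw [e2]
        exact Finset.mem_union_left _ h
      refine ⟨insert g (T1.erase z), ?_⟩
      rw [mem_fam]
      refine ⟨Finset.insert_subset (q1 hg) ((Finset.erase_subset _ _).trans p1),
        p2.exchange hzT hgc, ?_, ?_⟩
      · intro k hk
        refine Finset.mem_insert_of_mem (Finset.mem_erase.2 ⟨?_, p3 (by
          rw [e1]; exact Finset.mem_insert_of_mem hk)⟩)
        rintro rfl
        rcases Finset.mem_union.1 hk with h | h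
        · exact hZK.1 h
        · exact hz h
      · rw [Finset.disjoint_insert_left]
        refine ⟨hgD, ?_⟩
        rw [Finset.disjoint_insert_right]
        exact ⟨Finset.notMem_erase _ _, p4.mono_left (Finset.erase_subset _ _)⟩
    have hzKZ : z ∉ K ∪ Z := by
      rw [Finset.mem_union, not_or]; exact ⟨hZK.1, hz⟩
    have hd1 : Disjoint (K ∪ Z) D := by
      rw [Finset.disjoint_union_left]; exact ⟨hKD, hZD.2⟩
    have s1 := feder_mihail (a := a) (b := b) A hzE hup (hZ z (Finset.mem_insert_self _ _)) _
      (K ∪ Z) D le_rfl hzKZ hZD.1 hd1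
    have s2 := ih ((Finset.subset_insert _ _).trans hZE)
      (fun z' hz' => hZ z' (Finset.mem_insert_of_mem hz')) (insert z D)
      (by rw [Finset.disjoint_insert_right]; exact ⟨hZK.1, hKD⟩) hZK.2
      (by rw [Finset.disjoint_insert_right]; exact ⟨hz, hZD.2⟩) hmid (by rw [← e2]; exact hne2)
    rw [e1, e2]
    have hm : 0 < (fam a b E (K ∪ Z) (insert z D)).card := Finset.card_pos.2 hmid
    -- multiply
    have h := Nat.mul_le_mul_right ((fam a b E K (insert z D ∪ Z)).card) s1
    have h' := Nat.mul_le_mul_right ((fam a b E (insert z (K ∪ Z)) D).card) s2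
    refine Nat.le_of_mul_le_mul_right ?_ hm
    calc cnt a b E A (insert z (K ∪ Z)) D * (fam a b E K (insert z D ∪ Z)).card *
          (fam a b E (K ∪ Z) (insert z D)).card
        = cnt a b E A (insert z (K ∪ Z)) D * (fam a b E (K ∪ Z) (insert z D)).card *
          (fam a b E K (insert z D ∪ Z)).card := by ring
      _ ≤ cnt a b E A (K ∪ Z) (insert z D) * (fam a b E (insert z (K ∪ Z)) D).card *
          (fam a b E K (insert z D ∪ Z)).card := h
      _ = cnt a b E A (K ∪ Z) (insert z D) * (fam a b E K (insert z D ∪ Z)).card *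
          (fam a b E (insert z (K ∪ Z)) D).card := by ring
      _ ≤ cnt a b E A K (insert z D ∪ Z) * (fam a b E (K ∪ Z) (insert z D)).card *
          (fam a b E (insert z (K ∪ Z)) D).card := h'
      _ = _ := by ring

/-- Contraction versus deletion of `Z`, without further conditioning. -/
theorem contract_le_delete_zero (A : Finset ι → Prop) (hup : ∀ S S', S ⊆ S' → A S → A S')
    (Z : Finset ι) (hZE : Z ⊆ E) (hZ : ∀ S S', (∀ x, x ∉ Z → (x ∈ S ↔ x ∈ S')) → A S → A S')
    (h1 : (fam a b E Z ∅).Nonempty) (h2 : (fam a b E ∅ Z).Nonempty) :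
    ((fam a b E Z ∅).filter A).card * (fam a b E ∅ Z).card ≤
      ((fam a b E ∅ Z).filter A).card * (fam a b E Z ∅).card := by
  have h := contract_le_delete (a := a) (b := b) (E := E) A hup ∅ Z hZE
    (fun z hz S hS => hZ _ _ (fun x hx => by
      rw [Finset.mem_insert]
      constructor
      · rintro (rfl | h)
        · exact absurd hz hx
        · exact h
      · exact fun h => Or.inr h) hS)
    ∅ (Finset.disjoint_empty_left _) (Finset.disjoint_empty_right _)
    (Finset.disjoint_empty_right _) (by rw [Finset.empty_union]; exact h1)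
    (by rw [Finset.empty_union]; exact h2)
  rw [Finset.empty_union] at h
  exact h

end Pool.Agent.WUSF
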