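import Mathlib
import Pool.Agent.WUSF.FederMihail

/-!
Couplings of uniform measures from Hall's theorem, existence of spanning trees.
-/

open scoped Classical

namespace Pool.Agent.WUSF

/-- A finite version of Strassen's theorem, from Hall's marriage theorem. -/
theorem exists_coupling {α β : Type*} (X : Finset α) (Y : Finset β) (r : α → β → Prop)
    (h : ∀ S ⊆ X, S.card * Y.card ≤ (Y.filter fun y => ∃ x ∈ S, r x y).card * X.card) :
    ∃ σ : (X × Fin Y.card) ≃ (Y × Fin X.card), ∀ p, r p.1 (σ p).1 := by
  let t : (X × Fin Y.card) → Finset (Y × Fin X.card) :=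
    fun p => Finset.univ.filter fun q => r p.1 q.1
  have hall : ∀ s : Finset (X × Fin Y.card), s.card ≤ (s.biUnion t).card := by
    intro s
    let S : Finset α := s.image fun p => (p.1 : α)
    have hSX : S ⊆ X := by
      intro x hx
      obtain ⟨p, _, rfl⟩ := Finset.mem_image.1 hx
      exact p.1.2
    have h1 : s.card ≤ S.card * Y.card := by
      have h2 : s ⊆ (S.attach.image fun x => (⟨x.1, hSX x.2⟩ : X)) ×ˢ
          (Finset.univ : Finset (Fin Y.card)) := by
        intro p hp
        rw [Finset.mem_product]
        refine ⟨?_, Finset.mem_univ _⟩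
        rw [Finset.mem_image]
        exact ⟨⟨p.1, Finset.mem_image.2 ⟨p, hp, rfl⟩⟩, Finset.mem_attach _ _, rfl⟩
      refine (Finset.card_le_card h2).trans ?_
      rw [Finset.card_product, Finset.card_univ, Fintype.card_fin]
      refine Nat.mul_le_mul_right _ ?_
      refine Finset.card_image_le.trans ?_
      rw [Finset.card_attach]
    have h3 : (Y.filter fun y => ∃ x ∈ S, r x y).card * X.card ≤ (s.biUnion t).card := by
      have h4 : (((Y.filter fun y => ∃ x ∈ S, r x y).attach.image
          fun y => (⟨y.1, (Finset.mem_filter.1 y.2).1⟩ : Y)) ×ˢ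
          (Finset.univ : Finset (Fin X.card))) ⊆ s.biUnion t := by
        intro q hq
        rw [Finset.mem_product, Finset.mem_image] at hq
        obtain ⟨⟨y, _, hy⟩, _⟩ := hq
        obtain ⟨_, x, hx, hr⟩ := Finset.mem_filter.1 y.2
        obtain ⟨p, hp, hpx⟩ := Finset.mem_image.1 hx
        rw [Finset.mem_biUnion]
        refine ⟨p, hp, ?_⟩
        rw [Finset.mem_filter]
        refine ⟨Finset.mem_univ _, ?_⟩
        rw [hpx, ← hy]
        exact hr
      refine le_trans ?_ (Finset.card_le_card h4)
      rw [Finset.card_product, Finset.card_univ, Fintype.card_fin, Finset.card_image_of_injective,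
        Finset.card_attach]
      intro y y' hyy
      exact Subtype.ext (congrArg (fun z : Y => (z : β)) hyy)
    exact h1.trans ((h S hSX).trans h3)
  obtain ⟨f, hf, hft⟩ := (Finset.all_card_le_biUnion_card_iff_exists_injective t).1 hall
  have hcard : Fintype.card (X × Fin Y.card) = Fintype.card (Y × Fin X.card) := by
    simp [mul_comm]
  have hbij : Function.Bijective f :=
    (Fintype.bijective_iff_injective_and_card f).2 ⟨hf, hcard⟩
  refine ⟨Equiv.ofBijective f hbij, fun p => ?_⟩
  exact (Finset.mem_filter.1 (hft p)).2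

section Existence

variable {ι Q : Type*} [Fintype Q] {a b : ι → Q}

/-- Every connected set of edges contains a spanning tree. -/
lemma exists_tree [Nonempty Q] {E : Finset ι} (h : ∀ u v, Conn a b E u v) :
    ∃ T ⊆ E, IsTree a b T := by
  -- a connected subset of minimal cardinality
  let P : Finset (Finset ι) := E.powerset.filter fun T => ∀ u v, Conn a b T u v
  have hP : P.Nonempty := ⟨E, by simp [P, h]⟩
  obtain ⟨T, hT, hmin⟩ := P.exists_min_image Finset.card hP
  simp only [P, Finset.mem_filter, Finset.mem_powerset] at hT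
  obtain ⟨hTE, hTc⟩ := hT
  refine ⟨T, hTE, hTc, ?_⟩
  -- every edge is a bridge
  have hbr : ∀ f ∈ T, ¬ Conn a b (T.erase f) (a f) (b f) := by
    intro f hf hc
    have h1 : ∀ u v, Conn a b (T.erase f) u v := by
      intro u v
      refine Conn.mono (S := T) ?_ (hTc u v)
      intro e he
      by_cases hef : e = f
      · rw [hef]; exact hc
      · exact Conn.edge (Finset.mem_erase.2 ⟨hef, he⟩)
    have h2 := hmin (T.erase f) (by
      simp only [P, Finset.mem_filter, Finset.mem_powerset]
      exact ⟨(Finset.erase_subset _ _).trans hTE, h1⟩)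
    have h3 := Finset.card_erase_lt_of_mem hf
    omega
  -- the gradient is onto
  let d : (Q → ℚ) →ₗ[ℚ] (T → ℚ) :=
    { toFun := fun φ e => φ (a e) - φ (b e)
      map_add' := by intro φ ψ; ext e; simp only [Pi.add_apply]; ring
      map_smul' := by
        intro c φ; ext e; simp only [Pi.smul_apply, smul_eq_mul, RingHom.id_apply]; ring }
  have hsurj : Function.Surjective d := by
    intro ψ
    refine ⟨∑ f : T, ψ f • (fun u => if Conn a b (T.erase f) u (a f) then (1 : ℚ) else 0), ?_⟩
    ext g
    simp only [d, LinearMap.coe_mk, AddHom.coe_mk, Finset.sum_apply, Pi.smul_apply, smul_eq_mul]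
    rw [← Finset.sum_sub_distrib, Finset.sum_eq_single g]
    · rw [if_pos (Conn.refl _ _), if_neg (fun h' => hbr g g.2 h'.symm)]
      ring
    · intro f _ hfg
      have h1 : Conn a b (T.erase f) (a g) (b g) :=
        Conn.edge (Finset.mem_erase.2 ⟨fun h' => hfg (Subtype.ext h'.symm), g.2⟩)
      have h2 : Conn a b (T.erase f) (a g) (a f) ↔ Conn a b (T.erase f) (b g) (a f) :=
        ⟨fun h => h1.symm.trans h, fun h => h1.trans h⟩
      simp only [h2]
      ring
    · intro h'; exact absurd (Finset.mem_univ _) h'
  have h1 := LinearMap.finrank_range_add_finrank_ker d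
  rw [LinearMap.range_eq_top.2 hsurj, finrank_top, Module.finrank_pi, Fintype.card_coe,
    Module.finrank_pi] at h1
  have h3 : 1 ≤ Module.finrank ℚ (LinearMap.ker d) := by
    have hne : Nontrivial (LinearMap.ker d) := by
      refine ⟨⟨⟨fun _ => 1, ?_⟩, 0, ?_⟩⟩
      · rw [LinearMap.mem_ker]; ext e; simp [d]
      · intro h'
        obtain ⟨q⟩ := (inferInstance : Nonempty Q)
        have := congrFun (congrArg Subtype.val h') q
        simp at this
    exact Module.finrank_pos
  have h4 := card_le_of_conn hTc
  omega

end Existence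

end Pool.Agent.WUSF
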