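import Mathlib
import Pool.Agent.WUSF.Coupling

/-!
Wired spanning trees of a finite set `Λ` of vertices of a graph on `ℕ`.
-/

open scoped Classical

namespace Pool.Agent.WUSF

/-- Connectivity by edges of `S` when all vertices outside `Λ` are identified. -/
def WConn (Λ : Finset ℕ) (S : Set (Sym2 ℕ)) : ℕ → ℕ → Prop :=
  Relation.EqvGen (fun u v => s(u, v) ∈ S ∨ (u ∉ Λ ∧ v ∉ Λ))

/-- Wired spanning trees of `Λ` with edges in `F`. -/
noncomputable def WT (Λ : Finset ℕ) (F : Finset (Sym2 ℕ)) : Finset (Finset (Sym2 ℕ)) :=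
  F.powerset.filter fun S => (∀ u v, WConn Λ (S : Set (Sym2 ℕ)) u v) ∧ S.card = Λ.card

lemma mem_WT {Λ : Finset ℕ} {F S : Finset (Sym2 ℕ)} :
    S ∈ WT Λ F ↔ S ⊆ F ∧ (∀ u v, WConn Λ (S : Set (Sym2 ℕ)) u v) ∧ S.card = Λ.card := by
  simp [WT]

section WConn

variable {Λ : Finset ℕ} {S S' : Set (Sym2 ℕ)}

lemma WConn.refl (u : ℕ) : WConn Λ S u u := Relation.EqvGen.refl _

lemma WConn.symm {u v : ℕ} (h : WConn Λ S u v) : WConn Λ S v u :=
  Relation.EqvGen.symm _ _ h

lemma WConn.trans {u v w : ℕ} (h : WConn Λ S u v) (h' : WConn Λ S v w) :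
    WConn Λ S u w := Relation.EqvGen.trans _ _ _ h h'

lemma WConn.edge {u v : ℕ} (h : s(u, v) ∈ S) : WConn Λ S u v :=
  Relation.EqvGen.rel _ _ (Or.inl h)

lemma WConn.out {u v : ℕ} (hu : u ∉ Λ) (hv : v ∉ Λ) : WConn Λ S u v :=
  Relation.EqvGen.rel _ _ (Or.inr ⟨hu, hv⟩)

lemma WConn.equivalence : Equivalence (WConn Λ S) := ⟨WConn.refl, WConn.symm, WConn.trans⟩

lemma WConn.le {r : ℕ → ℕ → Prop} (hr : Equivalence r)
    (h : ∀ u v, s(u, v) ∈ S → r u v) (h' : ∀ u v, u ∉ Λ → v ∉ Λ → r u v) {u v : ℕ}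
    (huv : WConn Λ S u v) : r u v := by
  induction huv with
  | rel u v h'' => rcases h'' with h'' | h''
                   · exact h u v h''
                   · exact h' u v h''.1 h''.2
  | refl u => exact hr.refl u
  | symm u v _ ih => exact hr.symm ih
  | trans u v w _ _ ih1 ih2 => exact hr.trans ih1 ih2

lemma WConn.fun_iff {p : ℕ → Prop}
    (h : ∀ u v, s(u, v) ∈ S → (p u ↔ p v)) (h' : ∀ u v, u ∉ Λ → v ∉ Λ → (p u ↔ p v)) {u v : ℕ}
    (huv : WConn Λ S u v) : p u ↔ p v :=
  WConn.le (r := fun u v => (p u ↔ p v)) ⟨fun _ => Iff.rfl, fun h => h.symm, fun h h' => h.trans h'⟩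
    h h' huv

lemma WConn.mono (h : ∀ u v, s(u, v) ∈ S → WConn Λ S' u v) {u v : ℕ}
    (huv : WConn Λ S u v) : WConn Λ S' u v :=
  WConn.le WConn.equivalence h (fun _ _ hu hv => WConn.out hu hv) huv

/-- There is a vertex outside. -/
lemma exists_out (Λ : Finset ℕ) : ∃ o : ℕ, o ∉ Λ := Infinite.exists_notMem_finset Λ

end WConn

section Bridge

variable (Λ Z : Finset ℕ)

/-- The quotient map identifying all vertices outside `Λ`. -/
noncomputable def quo (x : ℕ) : Option Λ := if h : x ∈ Λ then some ⟨x, h⟩ else none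

lemma quo_some {x : ℕ} (h : x ∈ Λ) : quo Λ x = some ⟨x, h⟩ := dif_pos h

lemma quo_none {x : ℕ} (h : x ∉ Λ) : quo Λ x = none := dif_neg h

lemma quo_surj (p : Option Λ) : ∃ x, quo Λ x = p := by
  cases p with
  | none => obtain ⟨o, ho⟩ := exists_out Λ; exact ⟨o, quo_none Λ ho⟩
  | some x => exact ⟨x.1, quo_some Λ x.2⟩

/-- end points of real (`inl`) and virtual (`inr`) edges -/
noncomputable def ea : Sym2 ℕ ⊕ ℕ → Option Λ
  | Sum.inl e => quo Λ (Quot.out e).1
  | Sum.inr v => quo Λ v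

noncomputable def eb : Sym2 ℕ ⊕ ℕ → Option Λ
  | Sum.inl e => quo Λ (Quot.out e).2
  | Sum.inr _ => none

/-- real edges `S` and virtual edges `Z` -/
def lift (S : Finset (Sym2 ℕ)) (Z : Finset ℕ) : Finset (Sym2 ℕ ⊕ ℕ) := S.disjSum Z

lemma out_cases (u v : ℕ) : ((Quot.out s(u, v)).1 = u ∧ (Quot.out s(u, v)).2 = v) ∨
    ((Quot.out s(u, v)).1 = v ∧ (Quot.out s(u, v)).2 = u) := by
  have h : s((Quot.out s(u, v)).1, (Quot.out s(u, v)).2) = s(u, v) := Quot.out_eq s(u, v)
  rw [Sym2.eq_iff] at h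
  exact h

lemma out_mk (e : Sym2 ℕ) : s((Quot.out e).1, (Quot.out e).2) = e := Quot.out_eq e

lemma conn_iff_wconn {S : Finset (Sym2 ℕ)} {u v : ℕ} :
    Conn (ea Λ) (eb Λ) (lift S Z) (quo Λ u) (quo Λ v) ↔
      WConn (Λ \ Z) (S : Set (Sym2 ℕ)) u v := by
  constructor
  · intro h
    have hr : Equivalence (fun p q : Option Λ => ∀ u v, quo Λ u = p → quo Λ v = q →
        WConn (Λ \ Z) (S : Set (Sym2 ℕ)) u v) := by
      refine ⟨?_, ?_, ?_⟩
      · intro p u v hu hv
        by_cases h1 : u ∈ Λ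
        · by_cases h2 : v ∈ Λ
          · rw [quo_some Λ h1] at hu
            rw [quo_some Λ h2, ← hu] at hv
            have := congrArg Subtype.val (Option.some.inj hv)
            simp only at this
            rw [this]
            exact WConn.refl _
          · rw [quo_some Λ h1] at hu
            rw [quo_none Λ h2, ← hu] at hv
            cases hv
        · by_cases h2 : v ∈ Λ
          · rw [quo_none Λ h1] at hu
            rw [quo_some Λ h2, ← hu] at hv
            cases hv
          · exact WConn.out (fun h => h1 (Finset.mem_sdiff.1 h).1)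
              (fun h => h2 (Finset.mem_sdiff.1 h).1)
      · intro p q h1 u v hu hv
        exact (h1 v u hv hu).symm
      · intro p q r h1 h2 u v hu hv
        obtain ⟨w, hw⟩ := quo_surj Λ q
        exact (h1 u w hu hw).trans (h2 w v hw hv)
    have h1 : ∀ e ∈ lift S Z, (fun p q : Option Λ => ∀ u v, quo Λ u = p → quo Λ v = q →
        WConn (Λ \ Z) (S : Set (Sym2 ℕ)) u v) (ea Λ e) (eb Λ e) := by
      intro e he u v hu hv
      cases e with
      | inl e =>
        have he' : e ∈ S := by simpa [lift] using he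
        have h2 : WConn (Λ \ Z) (S : Set (Sym2 ℕ)) (Quot.out e).1 (Quot.out e).2 :=
          WConn.edge (by rw [out_mk]; exact he')
        have h3 := hr.refl (ea Λ (Sum.inl e)) u (Quot.out e).1 hu rfl
        have h4 := hr.refl (eb Λ (Sum.inl e)) (Quot.out e).2 v rfl hv
        exact (h3.trans h2).trans h4
      | inr z =>
        have hz : z ∈ Z := by simpa [lift] using he
        have h3 := hr.refl (ea Λ (Sum.inr z)) u z hu rfl
        refine h3.trans ?_
        have hv' : v ∉ Λ := by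
          intro h
          rw [quo_some Λ h] at hv
          cases hv
        exact WConn.out (fun h => (Finset.mem_sdiff.1 h).2 hz)
          (fun h => hv' (Finset.mem_sdiff.1 h).1)
    exact Conn.le hr h1 h u v rfl rfl
  · intro h
    refine WConn.le (r := fun u v => Conn (ea Λ) (eb Λ) (lift S Z) (quo Λ u) (quo Λ v))
      ⟨fun _ => Conn.refl _ _, fun h => h.symm, fun h h' => h.trans h'⟩ ?_ ?_ h
    · intro u v huv
      have he : (Sum.inl s(u, v) : Sym2 ℕ ⊕ ℕ) ∈ lift S Z := by
        simpa [lift] using huv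
      have h1 := Conn.edge (a := ea Λ) (b := eb Λ) he
      rcases out_cases u v with ⟨h2, h3⟩ | ⟨h2, h3⟩
      · simp only [ea, eb, h2, h3] at h1; exact h1
      · simp only [ea, eb, h2, h3] at h1; exact h1.symm
    · intro u v hu hv
      have key : ∀ w, w ∉ Λ \ Z → Conn (ea Λ) (eb Λ) (lift S Z) (quo Λ w) none := by
        intro w hw
        by_cases h1 : w ∈ Λ
        · have hz : w ∈ Z := by
            by_contra h2; exact hw (Finset.mem_sdiff.2 ⟨h1, h2⟩)
          have he : (Sum.inr w : Sym2 ℕ ⊕ ℕ) ∈ lift S Z := by simpa [lift] using hz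
          exact Conn.edge (a := ea Λ) (b := eb Λ) he
        · rw [quo_none Λ h1]; exact Conn.refl _ _
      exact (key u hu).trans (key v hv).symm

lemma isTree_iff {S : Finset (Sym2 ℕ)} (hZ : Z ⊆ Λ) :
    IsTree (ea Λ) (eb Λ) (lift S Z) ↔
      (∀ u v, WConn (Λ \ Z) (S : Set (Sym2 ℕ)) u v) ∧ S.card = (Λ \ Z).card := by
  unfold IsTree
  have h1 : (∀ p q, Conn (ea Λ) (eb Λ) (lift S Z) p q) ↔
      (∀ u v, WConn (Λ \ Z) (S : Set (Sym2 ℕ)) u v) := by
    constructor
    · intro h u v; exact (conn_iff_wconn Λ Z).1 (h _ _)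
    · intro h p q
      obtain ⟨u, rfl⟩ := quo_surj Λ p
      obtain ⟨v, rfl⟩ := quo_surj Λ q
      exact (conn_iff_wconn Λ Z).2 (h u v)
  have h2 : (lift S Z).card = S.card + Z.card := Finset.card_disjSum _ _
  have h3 : Fintype.card (Option Λ) = Λ.card + 1 := by simp
  have h4 := Finset.card_sdiff_add_card_eq_card hZ
  rw [h1, h2, h3]
  constructor
  · rintro ⟨h, h'⟩; exact ⟨h, by omega⟩
  · rintro ⟨h, h'⟩; exact ⟨h, by omega⟩

end Bridge

/-- Every edge of a wired spanning tree has an end point in `Λ`. -/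
lemma touch_of_mem_WT {Λ : Finset ℕ} {F S : Finset (Sym2 ℕ)} (hS : S ∈ WT Λ F) {u v : ℕ}
    (he : s(u, v) ∈ S) : u ∈ Λ ∨ v ∈ Λ := by
  by_contra hcon
  rw [not_or] at hcon
  rw [mem_WT] at hS
  have hT : IsTree (ea Λ) (eb Λ) (lift S ∅) := by
    rw [isTree_iff Λ ∅ (Finset.empty_subset _)]
    rw [Finset.sdiff_empty]
    exact hS.2
  have hmem : (Sum.inl s(u, v) : Sym2 ℕ ⊕ ℕ) ∈ lift S ∅ := by simpa [lift] using he
  apply hT.not_conn hmem
  have h1 : ea Λ (Sum.inl s(u, v)) = none := by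
    rcases out_cases u v with ⟨h2, h3⟩ | ⟨h2, h3⟩
    · simp only [ea, h2]; exact quo_none Λ hcon.1
    · simp only [ea, h2]; exact quo_none Λ hcon.2
  have h2 : eb Λ (Sum.inl s(u, v)) = none := by
    rcases out_cases u v with ⟨h2, h3⟩ | ⟨h2, h3⟩
    · simp only [eb, h3]; exact quo_none Λ hcon.2
    · simp only [eb, h3]; exact quo_none Λ hcon.1
  rw [h1, h2]
  exact Conn.refl _ _

/-- A set of edges connecting everything to the outside has at least `|Λ|` elements. -/
lemma card_le_of_wconn {Λ : Finset ℕ} {S : Finset (Sym2 ℕ)}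
    (h : ∀ u v, WConn Λ (S : Set (Sym2 ℕ)) u v) : Λ.card ≤ S.card := by
  have h1 : ∀ p q, Conn (ea Λ) (eb Λ) (lift S ∅) p q := by
    intro p q
    obtain ⟨u, rfl⟩ := quo_surj Λ p
    obtain ⟨v, rfl⟩ := quo_surj Λ q
    rw [conn_iff_wconn Λ ∅, Finset.sdiff_empty]
    exact h u v
  have h2 := card_le_of_conn h1
  have h3 : Fintype.card (Option Λ) = Λ.card + 1 := by simp
  have h4 : (lift S ∅).card = S.card := by
    unfold lift; rw [Finset.card_disjSum]; simp
  omega

/-- Wired spanning trees exist. -/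
lemma WT_nonempty {Λ : Finset ℕ} {F : Finset (Sym2 ℕ)}
    (h : ∀ u v, WConn Λ (F : Set (Sym2 ℕ)) u v) : (WT Λ F).Nonempty := by
  have h1 : ∀ p q, Conn (ea Λ) (eb Λ) (lift F ∅) p q := by
    intro p q
    obtain ⟨u, rfl⟩ := quo_surj Λ p
    obtain ⟨v, rfl⟩ := quo_surj Λ q
    rw [conn_iff_wconn Λ ∅, Finset.sdiff_empty]
    exact h u v
  obtain ⟨T, hT, hT'⟩ := exists_tree h1
  have h2 : T = lift (T.preimage Sum.inl (Sum.inl_injective.injOn)) ∅ := by
    ext e
    cases e with
    | inl e => simp [lift]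
    | inr z =>
      simp only [lift, Finset.inr_mem_disjSum, Finset.notMem_empty, iff_false]
      intro hz
      have := hT hz
      simp [lift] at this
  rw [h2, isTree_iff Λ ∅ (Finset.empty_subset _), Finset.sdiff_empty] at hT'
  refine ⟨T.preimage Sum.inl (Sum.inl_injective.injOn), ?_⟩
  rw [mem_WT]
  refine ⟨?_, hT'⟩
  intro e he
  rw [Finset.mem_preimage] at he
  have := hT he
  simpa [lift] using this

/-- Root monotonicity: for an increasing event the wired probabilities increase in `Λ`. -/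
theorem wired_mono {Λ₁ Λ₂ : Finset ℕ} (hΛ : Λ₂ ⊆ Λ₁) {F : Finset (Sym2 ℕ)}
    (h1 : (WT Λ₁ F).Nonempty) (h2 : (WT Λ₂ F).Nonempty) (A : Finset (Sym2 ℕ) → Prop)
    (hA : ∀ S S', S ⊆ S' → A S → A S') :
    ((WT Λ₂ F).filter A).card * (WT Λ₁ F).card ≤ ((WT Λ₁ F).filter A).card * (WT Λ₂ F).card := by
  set Z : Finset ℕ := Λ₁ \ Λ₂ with hZ
  have hZΛ : Z ⊆ Λ₁ := Finset.sdiff_subset
  have hΛZ : Λ₁ \ Z = Λ₂ := by
    rw [hZ, Finset.sdiff_sdiff_eq_self hΛ]
  -- events on the extended edge set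
  let B : Finset (Sym2 ℕ ⊕ ℕ) → Prop := fun T => A (T.preimage Sum.inl (Sum.inl_injective.injOn))
  have hBlift : ∀ S Z', B (lift S Z') ↔ A S := by
    intro S Z'
    have : (lift S Z').preimage Sum.inl (Sum.inl_injective.injOn) = S := by
      ext e; simp [lift]
    simp only [B, this]
  have hinj : ∀ Z', Function.Injective (fun S : Finset (Sym2 ℕ) => lift S Z') := by
    intro Z' S S' h
    ext e
    have : (Sum.inl e : Sym2 ℕ ⊕ ℕ) ∈ lift S Z' ↔ (Sum.inl e : Sym2 ℕ ⊕ ℕ) ∈ lift S' Z' := by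
      simp only at h; rw [h]
    simpa [lift] using this
  have hlift : ∀ T : Finset (Sym2 ℕ ⊕ ℕ), ∃ S Z', T = lift S Z' := by
    intro T
    refine ⟨T.preimage Sum.inl (Sum.inl_injective.injOn),
      T.preimage Sum.inr (Sum.inr_injective.injOn), ?_⟩
    ext e
    cases e <;> simp [lift]
  -- the two families
  have f1 : ∀ A' : Finset (Sym2 ℕ) → Prop,
      (fam (ea Λ₁) (eb Λ₁) (lift F Z) (lift ∅ Z) ∅).filter
        (fun T => A' (T.preimage Sum.inl (Sum.inl_injective.injOn))) =
      ((WT Λ₂ F).filter A').image (fun S => lift S Z) := by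
    intro A'
    ext T
    simp only [Finset.mem_filter, mem_fam, Finset.mem_image, mem_WT]
    constructor
    · rintro ⟨⟨p1, p2, p3, _⟩, p5⟩
      obtain ⟨S, Z', rfl⟩ := hlift T
      have hZ' : Z' = Z := by
        ext z
        constructor
        · intro hz
          have := p1 (show (Sum.inr z : Sym2 ℕ ⊕ ℕ) ∈ lift S Z' by simpa [lift] using hz)
          simpa [lift] using this
        · intro hz
          have := p3 (show (Sum.inr z : Sym2 ℕ ⊕ ℕ) ∈ lift ∅ Z by simpa [lift] using hz)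
          simpa [lift] using this
      subst hZ'
      rw [isTree_iff Λ₁ _ hZΛ, hΛZ] at p2
      refine ⟨S, ⟨⟨?_, p2⟩, ?_⟩, rfl⟩
      · intro e he
        have := p1 (show (Sum.inl e : Sym2 ℕ ⊕ ℕ) ∈ lift S _ by simpa [lift] using he)
        simpa [lift] using this
      · have : (lift S (Λ₁ \ Λ₂)).preimage Sum.inl (Sum.inl_injective.injOn) = S := by
          ext e; simp [lift]
        rwa [this] at p5
    · rintro ⟨S, ⟨⟨p1, p2⟩, p3⟩, rfl⟩
      refine ⟨⟨?_, ?_, ?_, Finset.disjoint_empty_right _⟩, ?_⟩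
      · intro e he
        cases e with
        | inl e =>
          have h5 : e ∈ S := by simpa [lift] using he
          simpa [lift] using p1 h5
        | inr z => simpa [lift] using he
      · rw [isTree_iff Λ₁ _ hZΛ, hΛZ]; exact p2
      · intro e he
        cases e with
        | inl e => simp [lift] at he
        | inr z => simpa [lift] using he
      · have : (lift S Z).preimage Sum.inl (Sum.inl_injective.injOn) = S := by
          ext e; simp [lift]
        rw [this]; exact p3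
  have f2 : ∀ A' : Finset (Sym2 ℕ) → Prop,
      (fam (ea Λ₁) (eb Λ₁) (lift F Z) ∅ (lift ∅ Z)).filter
        (fun T => A' (T.preimage Sum.inl (Sum.inl_injective.injOn))) =
      ((WT Λ₁ F).filter A').image (fun S => lift S ∅) := by
    intro A'
    ext T
    simp only [Finset.mem_filter, mem_fam, Finset.mem_image, mem_WT]
    constructor
    · rintro ⟨⟨p1, p2, _, p4⟩, p5⟩
      obtain ⟨S, Z', rfl⟩ := hlift T
      have hZ' : Z' = ∅ := by
        rw [Finset.eq_empty_iff_forall_notMem]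
        intro z hz
        have hz' : (Sum.inr z : Sym2 ℕ ⊕ ℕ) ∈ lift S Z' := by simpa [lift] using hz
        have h6 := p1 hz'
        have h7 : (Sum.inr z : Sym2 ℕ ⊕ ℕ) ∈ lift ∅ Z := by
          simpa [lift] using h6
        exact Finset.disjoint_left.1 p4 hz' h7
      subst hZ'
      rw [isTree_iff Λ₁ _ (Finset.empty_subset _), Finset.sdiff_empty] at p2
      refine ⟨S, ⟨⟨?_, p2⟩, ?_⟩, rfl⟩
      · intro e he
        have := p1 (show (Sum.inl e : Sym2 ℕ ⊕ ℕ) ∈ lift S _ by simpa [lift] using he)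
        simpa [lift] using this
      · have : (lift S ∅).preimage Sum.inl (Sum.inl_injective.injOn) = S := by
          ext e; simp [lift]
        rwa [this] at p5
    · rintro ⟨S, ⟨⟨p1, p2⟩, p3⟩, rfl⟩
      refine ⟨⟨?_, ?_, Finset.empty_subset _, ?_⟩, ?_⟩
      · intro e he
        cases e with
        | inl e =>
          have h5 : e ∈ S := by simpa [lift] using he
          simpa [lift] using p1 h5
        | inr z => simp [lift] at he
      · rw [isTree_iff Λ₁ _ (Finset.empty_subset _), Finset.sdiff_empty]; exact p2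
      · rw [Finset.disjoint_left]
        intro e he he'
        cases e with
        | inl e => simp [lift] at he'
        | inr z => simp [lift] at he
      · have : (lift S ∅).preimage Sum.inl (Sum.inl_injective.injOn) = S := by
          ext e; simp [lift]
        rw [this]; exact p3
  have c1 : ∀ A' : Finset (Sym2 ℕ) → Prop,
      ((fam (ea Λ₁) (eb Λ₁) (lift F Z) (lift ∅ Z) ∅).filter
        (fun T => A' (T.preimage Sum.inl (Sum.inl_injective.injOn)))).card =
      ((WT Λ₂ F).filter A').card := by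
    intro A'; rw [f1, Finset.card_image_of_injective _ (hinj Z)]
  have c2 : ∀ A' : Finset (Sym2 ℕ) → Prop,
      ((fam (ea Λ₁) (eb Λ₁) (lift F Z) ∅ (lift ∅ Z)).filter
        (fun T => A' (T.preimage Sum.inl (Sum.inl_injective.injOn)))).card =
      ((WT Λ₁ F).filter A').card := by
    intro A'; rw [f2, Finset.card_image_of_injective _ (hinj ∅)]
  have d1 := c1 (fun _ => True)
  have d2 := c2 (fun _ => True)
  simp only [Finset.filter_true] at d1 d2
  have key := contract_le_delete_zero (a := ea Λ₁) (b := eb Λ₁) (E := lift F Z) B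
    (by
      intro T T' hTT' hT
      refine hA _ _ ?_ hT
      intro e he
      rw [Finset.mem_preimage] at he ⊢
      exact hTT' he)
    (lift ∅ Z)
    (by
      intro e he
      cases e with
      | inl e => simp [lift] at he
      | inr z => simpa [lift] using he)
    (by
      intro T T' hTT' hT
      have : T.preimage Sum.inl (Sum.inl_injective.injOn) =
          T'.preimage Sum.inl (Sum.inl_injective.injOn) := by
        ext e
        rw [Finset.mem_preimage, Finset.mem_preimage]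
        exact hTT' _ (by simp [lift])
      show A _
      rw [← this]
      exact hT)
    (by
      rw [← Finset.card_pos, d1]
      exact Finset.card_pos.2 h2)
    (by
      rw [← Finset.card_pos, d2]
      exact Finset.card_pos.2 h1)
  rw [d1, d2] at key
  have k1 := c1 A
  have k2 := c2 A
  simp only [B] at key
  rw [k1, k2] at key
  exact key

/-- Monotone coupling of the wired spanning trees of `Λ₂ ⊆ Λ₁`. -/
theorem wired_coupling {Λ₁ Λ₂ : Finset ℕ} (hΛ : Λ₂ ⊆ Λ₁) {F : Finset (Sym2 ℕ)}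
    (h1 : (WT Λ₁ F).Nonempty) (h2 : (WT Λ₂ F).Nonempty) :
    ∃ σ : (WT Λ₂ F × Fin (WT Λ₁ F).card) ≃ (WT Λ₁ F × Fin (WT Λ₂ F).card),
      ∀ p, (p.1 : Finset (Sym2 ℕ)) ⊆ (σ p).1 := by
  refine exists_coupling (WT Λ₂ F) (WT Λ₁ F) (fun S S' => S ⊆ S') ?_
  intro X hX
  obtain ⟨A, hA⟩ : ∃ A : Finset (Sym2 ℕ) → Prop, ∀ S', A S' ↔ ∃ S ∈ X, S ⊆ S' :=
    ⟨fun S' => ∃ S ∈ X, S ⊆ S', fun _ => Iff.rfl⟩
  have h := wired_mono hΛ h1 h2 A (by
    intro S S' hSS' hS
    rw [hA] at hS ⊢
    obtain ⟨S'', h3, h4⟩ := hS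
    exact ⟨S'', h3, h4.trans hSS'⟩)
  have h' : X.card ≤ ((WT Λ₂ F).filter A).card := by
    refine Finset.card_le_card ?_
    intro S hS
    rw [Finset.mem_filter, hA]
    exact ⟨hX hS, S, hS, le_rfl⟩
  have h'' := le_trans (Nat.mul_le_mul_right _ h') h
  have e : (WT Λ₁ F).filter A = (WT Λ₁ F).filter fun y => ∃ x ∈ X, x ⊆ y := by
    ext S; simp only [Finset.mem_filter, hA]
  rw [e] at h''
  refine h''.trans (Nat.mul_le_mul_right _ (Finset.card_le_card ?_))
  intro S hS
  simp only [Finset.mem_filter] at hS ⊢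
  exact hS

end Pool.Agent.WUSF
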