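import Mathlib
import Pool.Agent.WUSF.Wired

/-!
Product structure and relabelling of wired spanning trees.
-/

open scoped Classical

namespace Pool.Agent.WUSF

/-- The edges of `S` with an end point in `C`. -/
noncomputable def tch (C : Finset ℕ) (S : Finset (Sym2 ℕ)) : Finset (Sym2 ℕ) :=
  S.filter fun e => ∃ x ∈ C, x ∈ e

lemma mem_tch {C : Finset ℕ} {S : Finset (Sym2 ℕ)} {e : Sym2 ℕ} :
    e ∈ tch C S ↔ e ∈ S ∧ ∃ x ∈ C, x ∈ e := by
  simp [tch]

lemma mem_tch_mk {C : Finset ℕ} {S : Finset (Sym2 ℕ)} {u v : ℕ} :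
    s(u, v) ∈ tch C S ↔ s(u, v) ∈ S ∧ (u ∈ C ∨ v ∈ C) := by
  rw [mem_tch]
  constructor
  · rintro ⟨h, x, hx, hx'⟩
    rw [Sym2.mem_iff] at hx'
    rcases hx' with rfl | rfl
    · exact ⟨h, Or.inl hx⟩
    · exact ⟨h, Or.inr hx⟩
  · rintro ⟨h, h' | h'⟩
    · exact ⟨h, u, h', Sym2.mem_mk_left u v⟩
    · exact ⟨h, v, h', Sym2.mem_mk_right u v⟩

lemma tch_subset (C : Finset ℕ) (S : Finset (Sym2 ℕ)) : tch C S ⊆ S := Finset.filter_subset _ _

section Product

variable {𝒞 : Finset (Finset ℕ)} {F : Finset (Sym2 ℕ)}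

lemma tch_card_sum (hdisj : ∀ C ∈ 𝒞, ∀ C' ∈ 𝒞, C ≠ C' → Disjoint C C')
    (hsep : ∀ C ∈ 𝒞, ∀ C' ∈ 𝒞, ∀ u ∈ C, ∀ v ∈ C', s(u, v) ∈ F → C = C')
    {S : Finset (Sym2 ℕ)} (hSF : S ⊆ F) (hS : ∀ e ∈ S, ∃ C ∈ 𝒞, ∃ x ∈ C, x ∈ e) :
    S.card = ∑ C ∈ 𝒞, (tch C S).card := by
  have h1 : S = 𝒞.biUnion fun C => tch C S := by
    ext e
    rw [Finset.mem_biUnion]
    constructor
    · intro he
      obtain ⟨C, hC, x, hx, hxe⟩ := hS e he
      exact ⟨C, hC, mem_tch.2 ⟨he, x, hx, hxe⟩⟩
    · rintro ⟨C, _, h⟩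
      exact tch_subset _ _ h
  conv_lhs => rw [h1]
  refine Finset.card_biUnion ?_
  intro C hC C' hC' hne
  rw [Function.onFun, Finset.disjoint_left]
  intro e he he'
  apply hne
  rw [mem_tch] at he he'
  obtain ⟨heS, x, hx, hxe⟩ := he
  obtain ⟨_, y, hy, hye⟩ := he'
  by_cases hxy : x = y
  · subst hxy
    by_contra hne'
    exact Finset.disjoint_left.1 (hdisj C hC C' hC' hne') hx hy
  · have : e = s(x, y) := (Sym2.mem_and_mem_iff hxy).1 ⟨hxe, hye⟩
    subst this
    exact hsep C hC C' hC' x hx y hy (hSF heS)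

/-- Wired spanning trees of a union of mutually non-adjacent sets. -/
theorem mem_WT_biUnion (hdisj : ∀ C ∈ 𝒞, ∀ C' ∈ 𝒞, C ≠ C' → Disjoint C C')
    (hsep : ∀ C ∈ 𝒞, ∀ C' ∈ 𝒞, ∀ u ∈ C, ∀ v ∈ C', s(u, v) ∈ F → C = C')
    {S : Finset (Sym2 ℕ)} :
    S ∈ WT (𝒞.biUnion id) F ↔
      S ⊆ F ∧ (∀ e ∈ S, ∃ C ∈ 𝒞, ∃ x ∈ C, x ∈ e) ∧ ∀ C ∈ 𝒞, tch C S ∈ WT C F := by
  obtain ⟨o, ho⟩ := exists_out (𝒞.biUnion id)
  have hoC : ∀ C ∈ 𝒞, o ∉ C := by
    intro C hC h; exact ho (Finset.mem_biUnion.2 ⟨C, hC, h⟩)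
  have hcardΛ : (𝒞.biUnion id).card = ∑ C ∈ 𝒞, C.card := by
    rw [Finset.card_biUnion]
    · rfl
    · intro C hC C' hC' hne; exact hdisj C hC C' hC' hne
  constructor
  · intro hS
    have hS0 := hS
    rw [mem_WT] at hS
    obtain ⟨h1, h2, h3⟩ := hS
    have htouch : ∀ e ∈ S, ∃ C ∈ 𝒞, ∃ x ∈ C, x ∈ e := by
      intro e he
      induction e using Sym2.ind with
      | _ u v =>
        rcases touch_of_mem_WT hS0 he with h | h
        · obtain ⟨C, hC, hu⟩ := Finset.mem_biUnion.1 h
          exact ⟨C, hC, u, hu, Sym2.mem_mk_left u v⟩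
        · obtain ⟨C, hC, hu⟩ := Finset.mem_biUnion.1 h
          exact ⟨C, hC, v, hu, Sym2.mem_mk_right u v⟩
    have hconn : ∀ C ∈ 𝒞, ∀ u v, WConn C (tch C S : Set (Sym2 ℕ)) u v := by
      intro C hC
      have key : ∀ u, WConn C (tch C S : Set (Sym2 ℕ)) u o := by
        intro u
        by_cases hu : u ∈ C
        · by_contra hcon
          have h4 := WConn.fun_iff
            (p := fun w => w ∈ C ∧ ¬ WConn C (tch C S : Set (Sym2 ℕ)) w o) ?_ ?_ (h2 u o)
          · exact hoC C hC ((h4.1 ⟨hu, hcon⟩).1)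
          · intro x y hxy
            have hxy' : s(x, y) ∈ S := hxy
            have hgen : ∀ x y, s(x, y) ∈ S → x ∈ C ∧ ¬ WConn C (tch C S : Set (Sym2 ℕ)) x o →
                y ∈ C ∧ ¬ WConn C (tch C S : Set (Sym2 ℕ)) y o := by
              intro x y hxy hx
              have h5 : WConn C (tch C S : Set (Sym2 ℕ)) x y :=
                WConn.edge (by
                  show s(x, y) ∈ tch C S
                  exact mem_tch_mk.2 ⟨hxy, Or.inl hx.1⟩)
              by_cases hy : y ∈ C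
              · exact ⟨hy, fun h => hx.2 (h5.trans h)⟩
              · exact absurd (h5.trans (WConn.out hy (hoC C hC))) hx.2
            exact ⟨hgen x y hxy', hgen y x (by rw [Sym2.eq_swap]; exact hxy')⟩
          · intro x y hx hy
            have hx' : x ∉ C := fun h => hx (Finset.mem_biUnion.2 ⟨C, hC, h⟩)
            have hy' : y ∉ C := fun h => hy (Finset.mem_biUnion.2 ⟨C, hC, h⟩)
            exact ⟨fun h => absurd h.1 hx', fun h => absurd h.1 hy'⟩
        · exact WConn.out hu (hoC C hC)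
      intro u v
      exact (key u).trans (key v).symm
    have hle : ∀ C ∈ 𝒞, C.card ≤ (tch C S).card := fun C hC => card_le_of_wconn (hconn C hC)
    have hsum : ∑ C ∈ 𝒞, C.card = ∑ C ∈ 𝒞, (tch C S).card := by
      rw [← hcardΛ, ← h3]; exact tch_card_sum hdisj hsep h1 htouch
    have heq := (Finset.sum_eq_sum_iff_of_le hle).1 hsum
    refine ⟨h1, htouch, fun C hC => ?_⟩
    rw [mem_WT]
    exact ⟨(tch_subset _ _).trans h1, hconn C hC, (heq C hC).symm⟩
  · rintro ⟨h1, h2, h3⟩
    rw [mem_WT]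
    refine ⟨h1, ?_, ?_⟩
    · have key : ∀ u, WConn (𝒞.biUnion id) (S : Set (Sym2 ℕ)) u o := by
        intro u
        by_cases hu : u ∈ 𝒞.biUnion id
        · obtain ⟨C, hC, huC⟩ := Finset.mem_biUnion.1 hu
          by_contra hcon
          have hTC := h3 C hC
          rw [mem_WT] at hTC
          have h4 := WConn.fun_iff
            (p := fun w => w ∈ C ∧ ¬ WConn (𝒞.biUnion id) (S : Set (Sym2 ℕ)) w o) ?_ ?_
            (hTC.2.1 u o)
          · exact hoC C hC ((h4.1 ⟨huC, hcon⟩).1)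
          · intro x y hxy
            have hxy' : s(x, y) ∈ S := tch_subset _ _ hxy
            have hgen : ∀ x y, s(x, y) ∈ S →
                x ∈ C ∧ ¬ WConn (𝒞.biUnion id) (S : Set (Sym2 ℕ)) x o →
                y ∈ C ∧ ¬ WConn (𝒞.biUnion id) (S : Set (Sym2 ℕ)) y o := by
              intro x y hxy hx
              have h5 : WConn (𝒞.biUnion id) (S : Set (Sym2 ℕ)) x y := WConn.edge hxy
              by_cases hy : y ∈ C
              · exact ⟨hy, fun h => hx.2 (h5.trans h)⟩
              · have hy' : y ∉ 𝒞.biUnion id := by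
                  intro h
                  obtain ⟨C', hC', hyC'⟩ := Finset.mem_biUnion.1 h
                  have := hsep C hC C' hC' x hx.1 y hyC' (h1 hxy)
                  rw [this] at hy
                  exact hy hyC'
                exact absurd (h5.trans (WConn.out hy' ho)) hx.2
            exact ⟨hgen x y hxy', hgen y x (by rw [Sym2.eq_swap]; exact hxy')⟩
          · intro x y hx hy
            exact ⟨fun h => absurd h.1 hx, fun h => absurd h.1 hy⟩
        · exact WConn.out hu ho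
      intro u v
      exact (key u).trans (key v).symm
    · rw [hcardΛ, tch_card_sum hdisj hsep h1 h2]
      exact Finset.sum_congr rfl fun C hC => (mem_WT.1 (h3 C hC)).2.2

end Product

section Relabel

lemma WConn.map (π : Equiv.Perm ℕ) {Λ : Finset ℕ} {S : Set (Sym2 ℕ)} {u v : ℕ}
    (h : WConn Λ S u v) : WConn (Λ.image π) (Sym2.map π '' S) (π u) (π v) := by
  refine WConn.le (r := fun u v => WConn (Λ.image π) (Sym2.map π '' S) (π u) (π v))
    ⟨fun _ => WConn.refl _, fun h => h.symm, fun h h' => h.trans h'⟩ ?_ ?_ h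
  · intro u v huv
    exact WConn.edge ⟨s(u, v), huv, by simp⟩
  · intro u v hu hv
    refine WConn.out ?_ ?_
    · intro h; obtain ⟨x, hx, hxu⟩ := Finset.mem_image.1 h
      exact hu (π.injective hxu ▸ hx)
    · intro h; obtain ⟨x, hx, hxu⟩ := Finset.mem_image.1 h
      exact hv (π.injective hxu ▸ hx)

lemma image_map_symm (π : Equiv.Perm ℕ) (S : Finset (Sym2 ℕ)) :
    (S.image (Sym2.map π)).image (Sym2.map π.symm) = S := by
  rw [Finset.image_image, ← Sym2.map_comp]
  simp

lemma map_mem_WT (π : Equiv.Perm ℕ) {Λ : Finset ℕ} {F S : Finset (Sym2 ℕ)} (h : S ∈ WT Λ F) :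
    S.image (Sym2.map π) ∈ WT (Λ.image π) (F.image (Sym2.map π)) := by
  rw [mem_WT] at h ⊢
  obtain ⟨h1, h2, h3⟩ := h
  refine ⟨Finset.image_subset_image h1, ?_, ?_⟩
  · intro u v
    have := (h2 (π.symm u) (π.symm v)).map π
    simpa using this
  · rw [Finset.card_image_of_injective _ (Sym2.map.injective π.injective),
      Finset.card_image_of_injective _ π.injective, h3]

lemma map_mem_WT_iff (π : Equiv.Perm ℕ) {Λ : Finset ℕ} {F S : Finset (Sym2 ℕ)} :
    S.image (Sym2.map π) ∈ WT (Λ.image π) (F.image (Sym2.map π)) ↔ S ∈ WT Λ F := by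
  constructor
  · intro h
    have := map_mem_WT π.symm h
    rw [image_map_symm, image_map_symm, Finset.image_image] at this
    simpa using this
  · exact map_mem_WT π

lemma WT_image (π : Equiv.Perm ℕ) (Λ : Finset ℕ) (F : Finset (Sym2 ℕ)) :
    WT (Λ.image π) (F.image (Sym2.map π)) = (WT Λ F).image (fun S => S.image (Sym2.map π)) := by
  ext S
  rw [Finset.mem_image]
  constructor
  · intro h
    refine ⟨S.image (Sym2.map π.symm), ?_, ?_⟩
    · rw [← map_mem_WT_iff π]
      have : (S.image (Sym2.map π.symm)).image (Sym2.map π) = S := by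
        have := image_map_symm π.symm S
        simpa using this
      rw [this]; exact h
    · have := image_map_symm π.symm S
      simpa using this
  · rintro ⟨S', h, rfl⟩
    exact map_mem_WT π h

end Relabel

section SpanningTree

/-- For a finite graph with vertex set `V`, wired spanning trees of `V \ {r}` are the spanning
trees. -/
lemma mem_WT_erase_iff {V : Finset ℕ} {r : ℕ} (hr : r ∈ V) {F S : Finset (Sym2 ℕ)}
    (hF : ∀ u v, s(u, v) ∈ F → u ∈ V ∧ v ∈ V) :
    S ∈ WT (V.erase r) F ↔ S ⊆ F ∧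
      (∀ u ∈ V, ∀ v ∈ V, Relation.EqvGen (fun u v => s(u, v) ∈ S) u v) ∧ S.card + 1 = V.card := by
  have hcard := Finset.card_erase_add_one hr
  rw [mem_WT]
  constructor
  · rintro ⟨h1, h2, h3⟩
    refine ⟨h1, ?_, by omega⟩
    have key : ∀ u ∈ V, Relation.EqvGen (fun u v => s(u, v) ∈ S) u r := by
      intro u hu
      have h4 := WConn.fun_iff
        (p := fun w => w ∈ V → Relation.EqvGen (fun u v => s(u, v) ∈ S) w r) ?_ ?_ (h2 u r)
      · exact h4.2 (fun _ => Relation.EqvGen.refl _) hu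
      · intro x y hxy
        have hxy' : s(x, y) ∈ S := hxy
        have hV := hF x y (h1 hxy')
        have h5 : Relation.EqvGen (fun u v => s(u, v) ∈ S) x y := Relation.EqvGen.rel _ _ hxy'
        exact ⟨fun h _ => (h5.symm).trans _ _ _ (h hV.1),
          fun h _ => h5.trans _ _ _ (h hV.2)⟩
      · intro x y hx hy
        have hgen : ∀ w, w ∉ V.erase r → w ∈ V →
            Relation.EqvGen (fun u v => s(u, v) ∈ S) w r := by
          intro w hw hwV
          have : w = r := by
            by_contra hne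
            exact hw (Finset.mem_erase.2 ⟨hne, hwV⟩)
          rw [this]; exact Relation.EqvGen.refl _
        exact ⟨fun _ => hgen y hy, fun _ => hgen x hx⟩
    intro u hu v hv
    exact (key u hu).trans _ _ _ (key v hv).symm
  · rintro ⟨h1, h2, h3⟩
    refine ⟨h1, ?_, by omega⟩
    have hmono : ∀ u v, Relation.EqvGen (fun u v => s(u, v) ∈ S) u v →
        WConn (V.erase r) (S : Set (Sym2 ℕ)) u v := by
      intro u v h
      induction h with
      | rel u v h' => exact WConn.edge h'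
      | refl u => exact WConn.refl u
      | symm u v _ ih => exact ih.symm
      | trans u v w _ _ ih1 ih2 => exact ih1.trans ih2
    have key : ∀ u, WConn (V.erase r) (S : Set (Sym2 ℕ)) u r := by
      intro u
      by_cases hu : u ∈ V
      · exact hmono _ _ (h2 u hu r hr)
      · exact WConn.out (fun h => hu (Finset.mem_of_mem_erase h)) (Finset.notMem_erase _ _)
    intro u v
    exact (key u).trans (key v).symm

end SpanningTree

end Pool.Agent.WUSF
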