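import Mathlib
import Pool.Agent.WUSF.Product

/-!
The coupling kernel between wired spanning trees, made equivariant by relabelling.
-/

open MeasureTheory
open scoped Classical unitInterval ENNReal

namespace Pool.Agent.WUSF

/-- A uniform random index from a uniform label. -/
lemma exists_index (N : ℕ) (hN : 0 < N) : ∃ j : I → Fin N, Measurable j ∧
    ∀ i, volume (j ⁻¹' {i}) = (N : ℝ≥0∞)⁻¹ := by
  have : Nonempty (Fin N) := ⟨⟨0, hN⟩⟩
  obtain ⟨f, hf, hmap⟩ := Measure.exists_measurable_map_eq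
    (Y := Fin N) (PMF.uniformOfFintype (Fin N)).toMeasure
  refine ⟨f, hf, fun i => ?_⟩
  rw [← Measure.map_apply hf (measurableSet_singleton i), hmap,
    PMF.toMeasure_apply_singleton _ _ (measurableSet_singleton i)]
  simp

/-- The chosen uniform index. -/
noncomputable def idx (N : ℕ) (hN : 0 < N) : I → Fin N := (exists_index N hN).choose

lemma measurable_idx (N : ℕ) (hN : 0 < N) : Measurable (idx N hN) :=
  (exists_index N hN).choose_spec.1

lemma volume_idx (N : ℕ) (hN : 0 < N) (i : Fin N) :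
    volume (idx N hN ⁻¹' {i}) = (N : ℝ≥0∞)⁻¹ := (exists_index N hN).choose_spec.2 i

/-- The data for which the coupling exists. -/
def Good (Λ₁ Λ₂ : Finset ℕ) (F : Finset (Sym2 ℕ)) : Prop :=
  Λ₂ ⊆ Λ₁ ∧ (WT Λ₁ F).Nonempty ∧ (WT Λ₂ F).Nonempty

/-- The coupling kernel: from a wired tree of `Λ₂` and a label, a wired tree of `Λ₁`. -/
noncomputable def kern (Λ₁ Λ₂ : Finset ℕ) (F R : Finset (Sym2 ℕ)) (u : I) : Finset (Sym2 ℕ) :=
  if h : Good Λ₁ Λ₂ F ∧ R ∈ WT Λ₂ F then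
    ((wired_coupling h.1.1 h.1.2.1 h.1.2.2).choose
      (⟨R, h.2⟩, idx (WT Λ₁ F).card (Finset.card_pos.2 h.1.2.1) u)).1
  else ∅

variable {Λ₁ Λ₂ : Finset ℕ} {F R : Finset (Sym2 ℕ)}

lemma measurable_kern (Λ₁ Λ₂ : Finset ℕ) (F R : Finset (Sym2 ℕ)) (S : Finset (Sym2 ℕ)) :
    MeasurableSet {u : I | kern Λ₁ Λ₂ F R u = S} := by
  by_cases h : Good Λ₁ Λ₂ F ∧ R ∈ WT Λ₂ F
  · have e : {u : I | kern Λ₁ Λ₂ F R u = S} =
        idx (WT Λ₁ F).card (Finset.card_pos.2 h.1.2.1) ⁻¹' {i |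
          (((wired_coupling h.1.1 h.1.2.1 h.1.2.2).choose (⟨R, h.2⟩, i)).1 :
            Finset (Sym2 ℕ)) = S} := by
      ext u
      simp only [Set.mem_ofPred_eq, Set.mem_preimage, kern, dif_pos h]
    rw [e]
    exact measurable_idx _ _ (Set.toFinite _).measurableSet
  · have e : {u : I | kern Λ₁ Λ₂ F R u = S} = {u : I | (∅ : Finset (Sym2 ℕ)) = S} := by
      ext u
      simp only [Set.mem_ofPred_eq, kern, dif_neg h]
    rw [e]
    exact MeasurableSet.const _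

lemma kern_mem (h : Good Λ₁ Λ₂ F) (hR : R ∈ WT Λ₂ F) (u : I) :
    kern Λ₁ Λ₂ F R u ∈ WT Λ₁ F := by
  rw [kern, dif_pos ⟨h, hR⟩]
  exact Subtype.coe_prop _

lemma subset_kern (h : Good Λ₁ Λ₂ F) (hR : R ∈ WT Λ₂ F) (u : I) :
    R ⊆ kern Λ₁ Λ₂ F R u := by
  rw [kern, dif_pos ⟨h, hR⟩]
  exact (wired_coupling h.1 h.2.1 h.2.2).choose_spec (⟨R, hR⟩, _)

/-- The kernel maps the uniform measure to the uniform measure. -/
lemma sum_kern (h : Good Λ₁ Λ₂ F) {S : Finset (Sym2 ℕ)} (hS : S ∈ WT Λ₁ F) :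
    ∑ R ∈ WT Λ₂ F, volume {u : I | kern Λ₁ Λ₂ F R u = S} =
      ((WT Λ₂ F).card : ℝ≥0∞) * ((WT Λ₁ F).card : ℝ≥0∞)⁻¹ := by
  have hpos : 0 < (WT Λ₁ F).card := Finset.card_pos.2 h.2.1
  set τ := (wired_coupling h.1 h.2.1 h.2.2).choose with hτ
  have h1 : ∀ R : WT Λ₂ F, volume {u : I | kern Λ₁ Λ₂ F R u = S} =
      ∑ i : Fin (WT Λ₁ F).card, if (τ (R, i)).1 = ⟨S, hS⟩ then
        ((WT Λ₁ F).card : ℝ≥0∞)⁻¹ else 0 := by
    intro R
    have e : {u : I | kern Λ₁ Λ₂ F R u = S} =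
        ⋃ i ∈ Finset.univ.filter (fun i : Fin (WT Λ₁ F).card => (τ (R, i)).1 = ⟨S, hS⟩),
          idx (WT Λ₁ F).card hpos ⁻¹' {i} := by
      ext u
      simp only [Set.mem_ofPred_eq, Set.mem_iUnion, Finset.mem_filter, Finset.mem_univ, true_and,
        Set.mem_preimage, Set.mem_singleton_iff, exists_prop]
      rw [kern, dif_pos ⟨h, R.2⟩]
      constructor
      · intro h'
        exact ⟨_, Subtype.ext h', rfl⟩
      · rintro ⟨i, h', rfl⟩
        exact congrArg Subtype.val h'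
    rw [e, measure_biUnion_finset]
    · rw [Finset.sum_filter]
      exact Finset.sum_congr rfl fun i _ => by rw [volume_idx]
    · intro i _ i' _ hne
      rw [Function.onFun, Set.disjoint_left]
      intro u hu hu'
      exact hne (hu.symm.trans hu')
    · intro i _
      exact measurable_idx _ _ (measurableSet_singleton i)
  rw [← Finset.sum_coe_sort (WT Λ₂ F) (fun R => volume {u : I | kern Λ₁ Λ₂ F R u = S})]
  rw [Finset.sum_congr rfl fun R _ => h1 R, ← Fintype.sum_prod_type'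
    (fun (R : WT Λ₂ F) (i : Fin (WT Λ₁ F).card) =>
      if (τ (R, i)).1 = ⟨S, hS⟩ then ((WT Λ₁ F).card : ℝ≥0∞)⁻¹ else 0)]
  have h2 : ∑ p : WT Λ₂ F × Fin (WT Λ₁ F).card,
      (if (τ (p.1, p.2)).1 = ⟨S, hS⟩ then ((WT Λ₁ F).card : ℝ≥0∞)⁻¹ else 0) =
      ∑ q : WT Λ₁ F × Fin (WT Λ₂ F).card,
        if q.1 = ⟨S, hS⟩ then ((WT Λ₁ F).card : ℝ≥0∞)⁻¹ else 0 :=
    Fintype.sum_equiv τ _ _ (fun p => rfl)
  rw [h2, Fintype.sum_prod_type, Finset.sum_eq_single (⟨S, hS⟩ : WT Λ₁ F)]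
  · simp
  · intro q _ hq
    simp [hq]
  · intro h'; exact absurd (Finset.mem_univ _) h'

end Pool.Agent.WUSF
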