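import Mathlib
import Pool.Agent.WUSF.Kernel

/-!
Transport of the coupling kernel along a relabelling function.
-/

open MeasureTheory
open scoped Classical unitInterval ENNReal

namespace Pool.Agent.WUSF

/-- The transported kernel. -/
noncomputable def rkern (f : ℕ → ℕ) (Λ₁ Λ₂ : Finset ℕ) (F R : Finset (Sym2 ℕ)) (u : I) :
    Finset (Sym2 ℕ) :=
  F.filter fun e => Sym2.map f e ∈ kern (Λ₁.image f) (Λ₂.image f) (F.image (Sym2.map f))
    (R.image (Sym2.map f)) u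

/-- All vertices involved. -/
noncomputable def vs (Λ : Finset ℕ) (F : Finset (Sym2 ℕ)) : Finset ℕ :=
  Λ ∪ F.biUnion fun e => e.toFinset

lemma mem_vs {Λ : Finset ℕ} {F : Finset (Sym2 ℕ)} {x : ℕ} :
    x ∈ vs Λ F ↔ x ∈ Λ ∨ ∃ e ∈ F, x ∈ e := by
  simp [vs]

lemma exists_perm {X : Finset ℕ} {f : ℕ → ℕ} (hf : Set.InjOn f X) :
    ∃ π : Equiv.Perm ℕ, ∀ x ∈ X, π x = f x := by
  let g : (X : Set ℕ) ↪ ℕ := ⟨fun x => f x, fun x y h => Subtype.ext (hf x.2 y.2 h)⟩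
  have h1 : Infinite ((X : Set ℕ)ᶜ : Set ℕ) := by
    rw [Set.infinite_coe_iff]
    exact X.finite_toSet.infinite_compl
  have h2 : Infinite ((Set.range g)ᶜ : Set ℕ) := by
    rw [Set.infinite_coe_iff]
    have : (Set.range g).Finite := Set.finite_range g
    exact this.infinite_compl
  obtain ⟨π, hπ⟩ := Cardinal.extend_function g nonempty_equiv_of_countable
  exact ⟨π, fun x hx => hπ ⟨x, hx⟩⟩

lemma good_image (π : Equiv.Perm ℕ) {Λ₁ Λ₂ : Finset ℕ} {F : Finset (Sym2 ℕ)}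
    (h : Good Λ₁ Λ₂ F) : Good (Λ₁.image π) (Λ₂.image π) (F.image (Sym2.map π)) := by
  refine ⟨Finset.image_subset_image h.1, ?_, ?_⟩
  · rw [WT_image]; exact h.2.1.image _
  · rw [WT_image]; exact h.2.2.image _

lemma map_congr_of_mem {f : ℕ → ℕ} {π : Equiv.Perm ℕ} {Λ : Finset ℕ} {F : Finset (Sym2 ℕ)}
    (h : ∀ x ∈ vs Λ F, π x = f x) {e : Sym2 ℕ} (he : e ∈ F) : Sym2.map f e = Sym2.map π e := by
  refine Sym2.map_congr fun x hx => ?_
  exact (h x (mem_vs.2 (Or.inr ⟨e, he, hx⟩))).symm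

lemma rkern_congr {f : ℕ → ℕ} {π : Equiv.Perm ℕ} {Λ₁ Λ₂ : Finset ℕ} {F R : Finset (Sym2 ℕ)}
    (h : ∀ x ∈ vs Λ₁ F, π x = f x) (hΛ : Λ₂ ⊆ Λ₁) (hR : R ⊆ F) (u : I) :
    rkern f Λ₁ Λ₂ F R u = rkern π Λ₁ Λ₂ F R u := by
  have e1 : Λ₁.image f = Λ₁.image π :=
    Finset.image_congr fun x hx => (h x (mem_vs.2 (Or.inl hx))).symm
  have e2 : Λ₂.image f = Λ₂.image π :=
    Finset.image_congr fun x hx => (h x (mem_vs.2 (Or.inl (hΛ hx)))).symm
  have e3 : F.image (Sym2.map f) = F.image (Sym2.map π) :=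
    Finset.image_congr fun e he => map_congr_of_mem h he
  have e4 : R.image (Sym2.map f) = R.image (Sym2.map π) :=
    Finset.image_congr fun e he => map_congr_of_mem h (hR he)
  unfold rkern
  rw [e1, e2, e3, e4]
  refine Finset.filter_congr fun e he => ?_
  rw [map_congr_of_mem h he]

lemma image_map_map (π : Equiv.Perm ℕ) (S : Finset (Sym2 ℕ)) :
    (S.image (Sym2.map π.symm)).image (Sym2.map π) = S := by
  have := image_map_symm π.symm S
  simpa using this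

lemma rkern_perm (π : Equiv.Perm ℕ) {Λ₁ Λ₂ : Finset ℕ} {F R : Finset (Sym2 ℕ)}
    (h : Good Λ₁ Λ₂ F) (hR : R ∈ WT Λ₂ F) (u : I) :
    (rkern π Λ₁ Λ₂ F R u).image (Sym2.map π) =
      kern (Λ₁.image π) (Λ₂.image π) (F.image (Sym2.map π)) (R.image (Sym2.map π)) u := by
  have hk := kern_mem (good_image π h) (map_mem_WT π hR) u
  rw [mem_WT] at hk
  ext e
  rw [Finset.mem_image]
  constructor
  · rintro ⟨e', he', rfl⟩
    exact (Finset.mem_filter.1 he').2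
  · intro he
    obtain ⟨e', he', rfl⟩ := Finset.mem_image.1 (hk.1 he)
    exact ⟨e', Finset.mem_filter.2 ⟨he', he⟩, rfl⟩

lemma image_map_injective (π : Equiv.Perm ℕ) :
    Function.Injective (fun S : Finset (Sym2 ℕ) => S.image (Sym2.map π)) :=
  Finset.image_injective (Sym2.map.injective π.injective)

variable {f : ℕ → ℕ} {Λ₁ Λ₂ : Finset ℕ} {F R : Finset (Sym2 ℕ)}

lemma rkern_mem (hf : Set.InjOn f (vs Λ₁ F)) (h : Good Λ₁ Λ₂ F) (hR : R ∈ WT Λ₂ F) (u : I) :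
    rkern f Λ₁ Λ₂ F R u ∈ WT Λ₁ F := by
  obtain ⟨π, hπ⟩ := exists_perm hf
  rw [rkern_congr hπ h.1 (mem_WT.1 hR).1, ← map_mem_WT_iff π, rkern_perm π h hR]
  exact kern_mem (good_image π h) (map_mem_WT π hR) u

lemma subset_rkern (hf : Set.InjOn f (vs Λ₁ F)) (h : Good Λ₁ Λ₂ F) (hR : R ∈ WT Λ₂ F) (u : I) :
    R ⊆ rkern f Λ₁ Λ₂ F R u := by
  obtain ⟨π, hπ⟩ := exists_perm hf
  rw [rkern_congr hπ h.1 (mem_WT.1 hR).1]
  have h1 := subset_kern (good_image π h) (map_mem_WT π hR) u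
  rw [← rkern_perm π h hR] at h1
  exact (Finset.image_subset_image_iff (Sym2.map.injective π.injective)).1 h1

lemma measurable_rkern (f : ℕ → ℕ) (Λ₁ Λ₂ : Finset ℕ) (F R S : Finset (Sym2 ℕ)) :
    MeasurableSet {u : I | rkern f Λ₁ Λ₂ F R u = S} := by
  have e : {u : I | rkern f Λ₁ Λ₂ F R u = S} =
      ⋃ T ∈ {T : Finset (Sym2 ℕ) | (F.filter fun e => Sym2.map f e ∈ T) = S},
        {u : I | kern (Λ₁.image f) (Λ₂.image f) (F.image (Sym2.map f))
          (R.image (Sym2.map f)) u = T} := by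
    ext u
    simp only [Set.mem_ofPred_eq, Set.mem_iUnion, exists_prop, exists_eq_right']
    rfl
  rw [e]
  exact MeasurableSet.biUnion (Set.to_countable _) fun T _ => measurable_kern _ _ _ _ _

lemma sum_rkern (hf : Set.InjOn f (vs Λ₁ F)) (h : Good Λ₁ Λ₂ F) {S : Finset (Sym2 ℕ)}
    (hS : S ∈ WT Λ₁ F) :
    ∑ R ∈ WT Λ₂ F, volume {u : I | rkern f Λ₁ Λ₂ F R u = S} =
      ((WT Λ₂ F).card : ℝ≥0∞) * ((WT Λ₁ F).card : ℝ≥0∞)⁻¹ := by
  obtain ⟨π, hπ⟩ := exists_perm hf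
  have hcard : ∀ Λ : Finset ℕ, (WT (Λ.image π) (F.image (Sym2.map π))).card = (WT Λ F).card := by
    intro Λ
    rw [WT_image, Finset.card_image_of_injective _ (image_map_injective π)]
  have key := sum_kern (good_image π h) (map_mem_WT π hS)
  rw [hcard, hcard, WT_image, Finset.sum_image (fun _ _ _ _ h => image_map_injective π h)] at key
  rw [← key]
  refine Finset.sum_congr rfl fun R hR => ?_
  congr 1
  ext u
  simp only [Set.mem_ofPred_eq]
  rw [rkern_congr hπ h.1 (mem_WT.1 hR).1, ← rkern_perm π h hR]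
  exact ⟨fun h' => by rw [h'], fun h' => image_map_injective π h'⟩

/-- Equivariance of the transported kernel. -/
lemma rkern_equivariant (π : Equiv.Perm ℕ) (f : ℕ → ℕ) (Λ₁ Λ₂ : Finset ℕ)
    (F R : Finset (Sym2 ℕ)) (u : I) :
    rkern (f ∘ π.symm) (Λ₁.image π) (Λ₂.image π) (F.image (Sym2.map π)) (R.image (Sym2.map π)) u =
      (rkern f Λ₁ Λ₂ F R u).image (Sym2.map π) := by
  have e1 : ∀ Λ : Finset ℕ, (Λ.image π).image (f ∘ π.symm) = Λ.image f := by
    intro Λ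
    rw [Finset.image_image]
    congr 1
    funext x; simp
  have e2 : ∀ e : Sym2 ℕ, Sym2.map (f ∘ π.symm) (Sym2.map π e) = Sym2.map f e := by
    intro e
    rw [Sym2.map_map]
    congr 1
    funext x; simp
  have e3 : ∀ F : Finset (Sym2 ℕ), (F.image (Sym2.map π)).image (Sym2.map (f ∘ π.symm)) =
      F.image (Sym2.map f) := by
    intro F
    rw [Finset.image_image]
    exact Finset.image_congr fun e _ => e2 e
  unfold rkern
  rw [e1, e1, e3, e3]
  ext e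
  simp only [Finset.mem_filter, Finset.mem_image]
  constructor
  · rintro ⟨⟨e', he', rfl⟩, h⟩
    rw [e2] at h
    exact ⟨e', ⟨he', h⟩, rfl⟩
  · rintro ⟨e', ⟨he', h⟩, rfl⟩
    rw [e2]
    exact ⟨⟨e', he', rfl⟩, h⟩

end Pool.Agent.WUSF
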