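import Mathlib
import Pool.Agent.WUSF.Rank
import Pool.Agent.WUSF.Defs

/-!
Components of a graph on `ℕ` after removal of a set of vertices.
-/

open scoped Classical

namespace Pool.Agent.WUSF

/-- `y` can be reached from `x` in the graph with edge set `E` along vertices outside `B`. -/
def Reach (E : Set (Sym2 ℕ)) (B : Set ℕ) : ℕ → ℕ → Prop :=
  Relation.ReflTransGen (fun u v => s(u, v) ∈ E ∧ u ∉ B ∧ v ∉ B)

lemma mem_toFin {α : Type*} {s : Set α} (h : s.Finite) {x : α} : x ∈ toFin s ↔ x ∈ s := by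
  rw [toFin, dif_pos h, Set.Finite.mem_toFinset]

lemma mem_of_mem_toFin {α : Type*} {s : Set α} {x : α} (h : x ∈ toFin s) : x ∈ s := by
  unfold toFin at h
  split_ifs at h with hs
  · exact (Set.Finite.mem_toFinset hs).1 h
  · simp at h

/-- The component of `x` after removal of `B`. -/
noncomputable def comp (E : Set (Sym2 ℕ)) (B : Set ℕ) (x : ℕ) : Finset ℕ :=
  toFin {y | Reach E B x y}

/-- The edges of `E` with an end point in `Λ`. -/
noncomputable def tE (E : Set (Sym2 ℕ)) (Λ : Finset ℕ) : Finset (Sym2 ℕ) :=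
  toFin {e | e ∈ E ∧ ∃ x ∈ Λ, x ∈ e}

section Reach

variable {E : Set (Sym2 ℕ)} {B : Set ℕ}

lemma Reach.refl (x : ℕ) : Reach E B x x := Relation.ReflTransGen.refl

lemma Reach.trans {x y z : ℕ} (h : Reach E B x y) (h' : Reach E B y z) : Reach E B x z :=
  Relation.ReflTransGen.trans h h'

lemma Reach.edge {x y : ℕ} (h : s(x, y) ∈ E) (hx : x ∉ B) (hy : y ∉ B) : Reach E B x y :=
  Relation.ReflTransGen.single ⟨h, hx, hy⟩

lemma Reach.symm {x y : ℕ} (h : Reach E B x y) : Reach E B y x := by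
  induction h with
  | refl => exact Reach.refl _
  | tail _ h ih =>
    exact (Reach.edge (by rw [Sym2.eq_swap]; exact h.1) h.2.2 h.2.1).trans ih

lemma Reach.notMem {x y : ℕ} (h : Reach E B x y) (hx : x ∉ B) : y ∉ B := by
  induction h with
  | refl => exact hx
  | tail _ h _ => exact h.2.2

lemma Reach.mono {B' : Set ℕ} (hB : B' ⊆ B) {x y : ℕ} (h : Reach E B x y) : Reach E B' x y := by
  induction h with
  | refl => exact Reach.refl _
  | tail _ h ih =>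
    exact ih.trans (Reach.edge h.1 (fun h' => h.2.1 (hB h')) (fun h' => h.2.2 (hB h')))

lemma Reach.set_eq {x y : ℕ} (h : Reach E B x y) : {z | Reach E B x z} = {z | Reach E B y z} := by
  ext z; exact ⟨fun h' => h.symm.trans h', fun h' => h.trans h'⟩

lemma Reach.comp_eq {x y : ℕ} (h : Reach E B x y) : comp E B x = comp E B y := by
  unfold comp; rw [h.set_eq]

end Reach

/-- The relabelling by ranks of the labels `o` inside the finite set `X`. -/
noncomputable def rk {β : Type*} [LT β] (o : ℕ → β) (X : Finset ℕ) (v : ℕ) : ℕ :=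
  (X.filter fun u => o u < o v).card

lemma rk_injOn {β : Type*} [LinearOrder β] {o : ℕ → β} (ho : Function.Injective o)
    (X : Finset ℕ) : Set.InjOn (rk o X) X := by
  have hlt : ∀ x ∈ X, ∀ y ∈ X, o x < o y → rk o X x < rk o X y := by
    intro x hx y hy hxy
    refine Finset.card_lt_card ?_
    rw [Finset.ssubset_iff_of_subset]
    · exact ⟨x, by simp [hx, hxy], by simp⟩
    · intro u hu
      simp only [Finset.mem_filter] at hu ⊢
      exact ⟨hu.1, hu.2.trans hxy⟩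
  intro x hx y hy hxy
  by_contra hne
  rcases lt_or_gt_of_ne (fun h => hne (ho h)) with h | h
  · exact absurd hxy (hlt x hx y hy h).ne
  · exact absurd hxy.symm (hlt y hy x hx h).ne

/-- Good environments: a graph, decreasing root sets and order labels. -/
structure QEnv {β : Type*} [LinearOrder β] (E : Set (Sym2 ℕ)) (B : ℕ → Set ℕ) (V : Set ℕ)
    (o : ℕ → β) : Prop where
  noloop : ∀ x, s(x, x) ∉ E
  lf : ∀ x, {y | s(x, y) ∈ E}.Finite
  B0 : B 0 = Set.univ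
  anti : Antitone B
  fin : ∀ n x, x ∉ B n → {y | Reach E (B n) x y}.Finite
  inj : Function.Injective o
  inV : ∀ x y, s(x, y) ∈ E → x ∈ V
  out : ∀ n x, x ∈ V → x ∉ B n → ∃ u v, Reach E (B n) x u ∧ ¬ Reach E (B n) x v ∧ s(u, v) ∈ E

lemma tE_finite {E : Set (Sym2 ℕ)} (hlf : ∀ x, {y | s(x, y) ∈ E}.Finite) (Λ : Finset ℕ) :
    {e | e ∈ E ∧ ∃ x ∈ Λ, x ∈ e}.Finite := by
  have h1 : {e | e ∈ E ∧ ∃ x ∈ Λ, x ∈ e} ⊆
      ⋃ x ∈ (Λ : Set ℕ), (fun y => s(x, y)) '' {y | s(x, y) ∈ E} := by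
    rintro e ⟨he, x, hx, hxe⟩
    rw [Set.mem_iUnion₂]
    refine ⟨x, hx, ?_⟩
    obtain ⟨y, rfl⟩ := Sym2.mem_iff_exists.1 hxe
    exact ⟨y, he, rfl⟩
  exact (Set.Finite.biUnion Λ.finite_toSet fun x _ => (hlf x).image _).subset h1

namespace QEnv

variable {β : Type*} [LinearOrder β] {E : Set (Sym2 ℕ)} {B : ℕ → Set ℕ} {V : Set ℕ} {o : ℕ → β}
  (h : QEnv E B V o)

include h

lemma mem_tE {Λ : Finset ℕ} {e : Sym2 ℕ} : e ∈ tE E Λ ↔ e ∈ E ∧ ∃ x ∈ Λ, x ∈ e :=
  mem_toFin (tE_finite h.lf Λ)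

lemma mem_tE_mk {Λ : Finset ℕ} {u v : ℕ} :
    s(u, v) ∈ tE E Λ ↔ s(u, v) ∈ E ∧ (u ∈ Λ ∨ v ∈ Λ) := by
  rw [h.mem_tE]
  constructor
  · rintro ⟨h1, x, hx, hx'⟩
    rw [Sym2.mem_iff] at hx'
    rcases hx' with rfl | rfl
    · exact ⟨h1, Or.inl hx⟩
    · exact ⟨h1, Or.inr hx⟩
  · rintro ⟨h1, h' | h'⟩
    · exact ⟨h1, u, h', Sym2.mem_mk_left u v⟩
    · exact ⟨h1, v, h', Sym2.mem_mk_right u v⟩

lemma mem_comp {n x y : ℕ} (hx : x ∉ B n) : y ∈ comp E (B n) x ↔ Reach E (B n) x y :=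
  mem_toFin (h.fin n x hx)

lemma self_mem_comp {n x : ℕ} (hx : x ∉ B n) : x ∈ comp E (B n) x :=
  (h.mem_comp hx).2 (Reach.refl _)

lemma comp_notMem {n x y : ℕ} (hx : x ∉ B n) (hy : y ∈ comp E (B n) x) : y ∉ B n :=
  ((h.mem_comp hx).1 hy).notMem hx

lemma comp_eq_of_mem {n x y : ℕ} (hx : x ∉ B n) (hy : y ∈ comp E (B n) x) :
    comp E (B n) x = comp E (B n) y := ((h.mem_comp hx).1 hy).comp_eq

lemma comp_closed {n x u v : ℕ} (hx : x ∉ B n) (hu : u ∈ comp E (B n) x) (huv : s(u, v) ∈ E)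
    (hv : v ∉ B n) : v ∈ comp E (B n) x := by
  rw [h.mem_comp hx] at hu ⊢
  exact hu.trans (Reach.edge huv (hu.notMem hx) hv)

/-- A component of level `n` is connected to its outside. -/
lemma wconn_out {n x : ℕ} (hxV : x ∈ V) (hx : x ∉ B n) {Λ : Finset ℕ} {S : Set (Sym2 ℕ)}
    (hΛ : ∀ v, v ∈ B n → v ∉ Λ)
    (hS : ∀ e ∈ tE E (comp E (B n) x), e ∈ S) {o' : ℕ} (ho' : o' ∉ Λ) {y : ℕ}
    (hy : y ∈ comp E (B n) x) : WConn Λ S y o' := by
  obtain ⟨u, v, hu, hv, huv⟩ := h.out n x hxV hx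
  have hu' : u ∈ comp E (B n) x := (h.mem_comp hx).2 hu
  have hvB : v ∈ B n := by
    by_contra hvB
    exact hv ((h.mem_comp hx).1 (h.comp_closed hx hu' huv hvB))
  have key : ∀ a b, Reach E (B n) a b → a ∈ comp E (B n) x → WConn Λ S a b := by
    intro a b hab ha
    induction hab with
    | refl => exact WConn.refl _
    | tail h1 h2 ih =>
      refine ih.trans (WConn.edge (hS _ (h.mem_tE_mk.2 ⟨h2.1, Or.inl ?_⟩)))
      rw [h.mem_comp hx] at ha ⊢
      exact ha.trans h1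
  have h1 : WConn Λ S y u :=
    key y u (((h.mem_comp hx).1 hy).symm.trans hu) hy
  have h2 : WConn Λ S u v := WConn.edge (hS _ (h.mem_tE_mk.2 ⟨huv, Or.inl hu'⟩))
  exact (h1.trans h2).trans (WConn.out (hΛ v hvB) ho')

/-- Wired trees of a finite set that is a union of components and touching edges. -/
lemma wconn_all {n : ℕ} {Λ : Finset ℕ} {S : Set (Sym2 ℕ)} (hΛ : ∀ v ∈ Λ, v ∈ V ∧ v ∉ B n)
    (hS : ∀ x ∈ Λ, ∀ e ∈ tE E (comp E (B n) x), e ∈ S) (u v : ℕ) : WConn Λ S u v := by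
  obtain ⟨o', ho'⟩ := exists_out Λ
  have key : ∀ u, WConn Λ S u o' := by
    intro u
    by_cases hu : u ∈ Λ
    · exact h.wconn_out (hΛ u hu).1 (hΛ u hu).2 (fun v hv hv' => (hΛ v hv').2 hv) (hS u hu) ho'
        (h.self_mem_comp (hΛ u hu).2)
    · exact WConn.out hu ho'
  exact (key u).trans (key v).symm

lemma comp_inV {n x y : ℕ} (hxV : x ∈ V) (hx : x ∉ B n) (hy : y ∈ comp E (B n) x) : y ∈ V := by
  rw [h.mem_comp hx] at hy
  induction hy with
  | refl => exact hxV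
  | tail _ h2 _ => exact h.inV _ _ (by rw [Sym2.eq_swap]; exact h2.1)

lemma comp_subset {n m x y : ℕ} (hnm : n ≤ m) (hx : x ∉ B m) (hy : y ∈ comp E (B m) x)
    (hyB : y ∉ B n) : comp E (B n) y ⊆ comp E (B m) x := by
  intro z hz
  rw [h.mem_comp hyB] at hz
  rw [h.mem_comp hx] at hy ⊢
  exact hy.trans (hz.mono (h.anti hnm))

end QEnv

end Pool.Agent.WUSF
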