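import Mathlib
import Pool.Agent.WUSF.Graph

/-!
The increasing sequence of forests built from the coupling kernels.
-/

open MeasureTheory
open scoped Classical unitInterval ENNReal

namespace Pool.Agent.WUSF

variable {β : Type*} [LinearOrder β]

/-- The edges of `R` touching `Λ`. -/
noncomputable def RL (R : Set (Sym2 ℕ)) (Λ : Finset ℕ) : Finset (Sym2 ℕ) :=
  toFin {e | e ∈ R ∧ ∃ y ∈ Λ, y ∈ e}

/-- The kernel applied on the component `Λ` with label `u`. -/
noncomputable def upd (E : Set (Sym2 ℕ)) (B : Set ℕ) (o : ℕ → β) (R : Finset (Sym2 ℕ))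
    (Λ : Finset ℕ) (u : I) : Finset (Sym2 ℕ) :=
  rkern (rk o (vs Λ (tE E Λ))) Λ (Λ.filter fun y => y ∉ B) (tE E Λ) R u

/-- One step of the construction, from roots `B` to roots `B'`. -/
def stepSet (E : Set (Sym2 ℕ)) (B B' : Set ℕ) (o : ℕ → β) (w : ℕ → I)
    (R : Set (Sym2 ℕ)) : Set (Sym2 ℕ) :=
  {e | ∃ x v, x ∈ e ∧ x ∉ B' ∧ v ∈ comp E B' x ∧ (∀ v' ∈ comp E B' x, o v ≤ o v') ∧
    e ∈ upd E B o (RL R (comp E B' x)) (comp E B' x) (w v)}

/-- The increasing sequence of forests. -/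
noncomputable def forest (E : Set (Sym2 ℕ)) (B : ℕ → Set ℕ) (o : ℕ → β) (w : ℕ × ℕ → I) :
    ℕ → Set (Sym2 ℕ)
  | 0 => ∅
  | n + 1 => stepSet E (B n) (B (n + 1)) o (fun v => w (v, n)) (forest E B o w n)

lemma forest_sub {E : Set (Sym2 ℕ)} {B : ℕ → Set ℕ} {o : ℕ → β} {w : ℕ × ℕ → I} {n : ℕ}
    {e : Sym2 ℕ} (he : e ∈ forest E B o w n) : e ∈ E ∧ ∃ x ∈ e, x ∉ B n := by
  cases n with
  | zero => exact absurd he (Set.notMem_empty _)
  | succ n =>
    obtain ⟨x, v, hxe, hxB, hv, hmin, he⟩ := he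
    have h1 := (Finset.mem_filter.1 he).1
    exact ⟨(mem_of_mem_toFin h1).1, x, hxe, hxB⟩

lemma WT_mono {C : Finset ℕ} {F F' S : Finset (Sym2 ℕ)} (hF : F ⊆ F') (hS : S ∈ WT C F) :
    S ∈ WT C F' := by
  rw [mem_WT] at hS ⊢
  exact ⟨hS.1.trans hF, hS.2⟩

/-- The minimum-label vertex. -/
lemma exists_leader {Λ : Finset ℕ} (hΛ : Λ.Nonempty) (o : ℕ → β) :
    ∃ v ∈ Λ, ∀ v' ∈ Λ, o v ≤ o v' := Λ.exists_min_image o hΛ

namespace QEnv

variable {E : Set (Sym2 ℕ)} {B : ℕ → Set ℕ} {V : Set ℕ} {o : ℕ → β} (h : QEnv E B V o)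

include h

lemma mem_RL_forest {w : ℕ × ℕ → I} {n : ℕ} {Λ : Finset ℕ} {e : Sym2 ℕ} :
    e ∈ RL (forest E B o w n) Λ ↔ e ∈ forest E B o w n ∧ ∃ y ∈ Λ, y ∈ e := by
  refine mem_toFin ((tE_finite h.lf Λ).subset ?_)
  rintro e ⟨h1, h2⟩
  exact ⟨(forest_sub h1).1, h2⟩

lemma WT_tE {C Λ : Finset ℕ} (hC : C ⊆ Λ) : WT C (tE E Λ) = WT C (tE E C) := by
  ext S
  constructor
  · intro hS
    have hS' := hS
    rw [mem_WT] at hS' ⊢
    refine ⟨?_, hS'.2⟩
    intro e he
    have h1 := hS'.1 he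
    rw [h.mem_tE] at h1
    rw [h.mem_tE]
    refine ⟨h1.1, ?_⟩
    induction e using Sym2.ind with
    | _ u v =>
      rcases touch_of_mem_WT hS he with h2 | h2
      · exact ⟨u, h2, Sym2.mem_mk_left u v⟩
      · exact ⟨v, h2, Sym2.mem_mk_right u v⟩
  · intro hS
    refine WT_mono ?_ hS
    intro e he
    rw [h.mem_tE] at he ⊢
    obtain ⟨h1, x, hx, hxe⟩ := he
    exact ⟨h1, x, hC hx, hxe⟩

/-- An end point outside the roots of an edge touching a component lies in the component. -/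
lemma mem_comp_of_touch {n x y z : ℕ} (hx : x ∉ B n) (hy : y ∈ comp E (B n) x) {e : Sym2 ℕ}
    (he : e ∈ E) (hye : y ∈ e) (hze : z ∈ e) (hz : z ∉ B n) : z ∈ comp E (B n) x := by
  by_cases hyz : y = z
  · rw [← hyz]; exact hy
  · have : e = s(y, z) := (Sym2.mem_and_mem_iff hyz).1 ⟨hye, hze⟩
    subst this
    exact h.comp_closed hx hy he hz

/-- The forest of level `n + 1` on a component. -/
lemma RL_succ {w : ℕ × ℕ → I} {n x : ℕ} (hx : x ∉ B (n + 1)) {v : ℕ}
    (hv : v ∈ comp E (B (n + 1)) x) (hmin : ∀ v' ∈ comp E (B (n + 1)) x, o v ≤ o v') :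
    RL (forest E B o w (n + 1)) (comp E (B (n + 1)) x) =
      upd E (B n) o (RL (forest E B o w n) (comp E (B (n + 1)) x)) (comp E (B (n + 1)) x)
        (w (v, n)) := by
  ext e
  rw [h.mem_RL_forest]
  constructor
  · rintro ⟨⟨x', v', hxe, hxB, hv', hmin', he⟩, y, hy, hye⟩
    have heE : e ∈ E := (mem_of_mem_toFin (Finset.mem_filter.1 he).1).1
    have hx' : x' ∈ comp E (B (n + 1)) x := h.mem_comp_of_touch hx hy heE hye hxe hxB
    have hc := h.comp_eq_of_mem hx hx'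
    rw [← hc] at hv' hmin' he
    have hvv : v' = v := by
      apply h.inj
      exact le_antisymm (hmin' v hv) (hmin v' hv')
    rw [hvv] at he
    exact he
  · intro he
    have h1 := (Finset.mem_filter.1 he).1
    rw [h.mem_tE] at h1
    obtain ⟨_, y, hy, hye⟩ := h1
    have hyB := h.comp_notMem hx hy
    have hc := h.comp_eq_of_mem hx hy
    refine ⟨⟨y, v, hye, hyB, ?_, ?_, ?_⟩, y, hy, hye⟩
    · rw [← hc]; exact hv
    · rw [← hc]; exact hmin
    · rw [← hc]; exact he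

/-- The family of level-`n` components inside a saturated set. -/
lemma biUnion_comps {n : ℕ} {X : Finset ℕ} (hX : ∀ x ∈ X, x ∉ B n ∧ comp E (B n) x ⊆ X) :
    (X.image fun x => comp E (B n) x).biUnion id = X := by
  ext y
  rw [Finset.mem_biUnion]
  constructor
  · rintro ⟨C, hC, hy⟩
    obtain ⟨x, hx, rfl⟩ := Finset.mem_image.1 hC
    exact (hX x hx).2 hy
  · intro hy
    exact ⟨comp E (B n) y, Finset.mem_image_of_mem _ hy, h.self_mem_comp (hX y hy).1⟩

lemma comps_disj {n : ℕ} {X : Finset ℕ} (hX : ∀ x ∈ X, x ∉ B n ∧ comp E (B n) x ⊆ X) :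
    ∀ C ∈ (X.image fun x => comp E (B n) x), ∀ C' ∈ (X.image fun x => comp E (B n) x),
      C ≠ C' → Disjoint C C' := by
  intro C hC C' hC' hne
  obtain ⟨x, hx, rfl⟩ := Finset.mem_image.1 hC
  obtain ⟨x', hx', rfl⟩ := Finset.mem_image.1 hC'
  rw [Finset.disjoint_left]
  intro y hy hy'
  exact hne ((h.comp_eq_of_mem (hX x hx).1 hy).trans (h.comp_eq_of_mem (hX x' hx').1 hy').symm)

lemma comps_sep {n : ℕ} {X : Finset ℕ} (hX : ∀ x ∈ X, x ∉ B n ∧ comp E (B n) x ⊆ X)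
    {F : Finset (Sym2 ℕ)} (hF : ∀ e ∈ F, e ∈ E) :
    ∀ C ∈ (X.image fun x => comp E (B n) x), ∀ C' ∈ (X.image fun x => comp E (B n) x),
      ∀ u ∈ C, ∀ v ∈ C', s(u, v) ∈ F → C = C' := by
  intro C hC C' hC' u hu v hv huv
  obtain ⟨x, hx, rfl⟩ := Finset.mem_image.1 hC
  obtain ⟨x', hx', rfl⟩ := Finset.mem_image.1 hC'
  have hvB := h.comp_notMem (hX x' hx').1 hv
  have hvC := h.comp_closed (hX x hx).1 hu (hF _ huv) hvB
  exact (h.comp_eq_of_mem (hX x hx).1 hvC).trans (h.comp_eq_of_mem (hX x' hx').1 hv).symm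

/-- The part of `RL R X` touching a smaller set. -/
lemma tch_RL {w : ℕ × ℕ → I} {n : ℕ} {C X : Finset ℕ} (hC : C ⊆ X) :
    tch C (RL (forest E B o w n) X) = RL (forest E B o w n) C := by
  ext e
  rw [mem_tch, h.mem_RL_forest, h.mem_RL_forest]
  constructor
  · rintro ⟨⟨h1, _⟩, h2⟩; exact ⟨h1, h2⟩
  · rintro ⟨h1, x, hx, hxe⟩; exact ⟨⟨h1, x, hC hx, hxe⟩, x, hx, hxe⟩

/-- The forest on a saturated set is determined by its restrictions to the components. -/
lemma RL_saturated {w : ℕ × ℕ → I} {n : ℕ} {X : Finset ℕ}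
    (hX : ∀ x ∈ X, x ∈ V ∧ x ∉ B n ∧ comp E (B n) x ⊆ X)
    (hI : ∀ x ∈ X, RL (forest E B o w n) (comp E (B n) x) ∈
      WT (comp E (B n) x) (tE E (comp E (B n) x))) :
    RL (forest E B o w n) X ∈ WT X (tE E X) := by
  have hX' : ∀ x ∈ X, x ∉ B n ∧ comp E (B n) x ⊆ X := fun x hx => (hX x hx).2
  have hF : ∀ e ∈ tE E X, e ∈ E := fun e he => (h.mem_tE.1 he).1
  have key := mem_WT_biUnion (S := RL (forest E B o w n) X) (h.comps_disj hX') (h.comps_sep hX' hF)
  rw [h.biUnion_comps hX'] at key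
  rw [key]
  refine ⟨?_, ?_, ?_⟩
  · intro e he
    rw [h.mem_RL_forest] at he
    rw [h.mem_tE]
    exact ⟨(forest_sub he.1).1, he.2⟩
  · intro e he
    rw [h.mem_RL_forest] at he
    obtain ⟨_, y, hy, hye⟩ := he
    exact ⟨comp E (B n) y, Finset.mem_image_of_mem _ hy, y, h.self_mem_comp (hX' y hy).1, hye⟩
  · intro C hC
    obtain ⟨x, hx, rfl⟩ := Finset.mem_image.1 hC
    rw [h.tch_RL (hX' x hx).2, h.WT_tE (hX' x hx).2]
    exact hI x hx

/-- The old part of a new component. -/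
lemma old_saturated {n x : ℕ} (hxV : x ∈ V) (hx : x ∉ B (n + 1)) :
    ∀ y ∈ (comp E (B (n + 1)) x).filter (fun y => y ∉ B n),
      y ∈ V ∧ y ∉ B n ∧ comp E (B n) y ⊆ (comp E (B (n + 1)) x).filter (fun y => y ∉ B n) := by
  intro y hy
  rw [Finset.mem_filter] at hy
  refine ⟨h.comp_inV hxV hx hy.1, hy.2, ?_⟩
  intro z hz
  rw [Finset.mem_filter]
  exact ⟨h.comp_subset (Nat.le_succ n) hx hy.1 hy.2 hz, h.comp_notMem hy.2 hz⟩

lemma RL_old {w : ℕ × ℕ → I} {n x : ℕ} (hx : x ∉ B (n + 1)) :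
    RL (forest E B o w n) (comp E (B (n + 1)) x) =
      RL (forest E B o w n) ((comp E (B (n + 1)) x).filter (fun y => y ∉ B n)) := by
  ext e
  rw [h.mem_RL_forest, h.mem_RL_forest]
  constructor
  · rintro ⟨h1, y, hy, hye⟩
    refine ⟨h1, ?_⟩
    obtain ⟨heE, z, hze, hzB⟩ := forest_sub h1
    have hzB' : z ∉ B (n + 1) := fun h' => hzB (h.anti (Nat.le_succ n) h')
    exact ⟨z, Finset.mem_filter.2 ⟨h.mem_comp_of_touch hx hy heE hye hze hzB', hzB⟩, hze⟩
  · rintro ⟨h1, y, hy, hye⟩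
    exact ⟨h1, y, (Finset.mem_filter.1 hy).1, hye⟩

/-- The data of the kernel on a new component are good. -/
lemma good {n x : ℕ} (hxV : x ∈ V) (hx : x ∉ B (n + 1)) :
    Good (comp E (B (n + 1)) x) ((comp E (B (n + 1)) x).filter (fun y => y ∉ B n))
      (tE E (comp E (B (n + 1)) x)) := by
  refine ⟨Finset.filter_subset _ _, ?_, ?_⟩
  · refine WT_nonempty (h.wconn_all (n := n + 1) (fun v hv => ⟨h.comp_inV hxV hx hv,
      h.comp_notMem hx hv⟩) ?_)
    intro y hy e he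
    rw [← h.comp_eq_of_mem hx hy] at he
    exact he
  · refine WT_nonempty (h.wconn_all (n := n) (fun v hv => ?_) ?_)
    · exact ⟨(h.old_saturated hxV hx v hv).1, (h.old_saturated hxV hx v hv).2.1⟩
    · intro y hy e he
      have h1 := (h.old_saturated hxV hx y hy).2.2
      rw [h.mem_tE] at he
      obtain ⟨heE, z, hz, hze⟩ := he
      show e ∈ tE E (comp E (B (n + 1)) x)
      rw [h.mem_tE]
      exact ⟨heE, z, (Finset.mem_filter.1 (h1 hz)).1, hze⟩

/-- The forest restricted to a component is a wired spanning tree. -/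
theorem forest_mem_WT (w : ℕ × ℕ → I) (n x : ℕ) (hxV : x ∈ V) (hx : x ∉ B n) :
    RL (forest E B o w n) (comp E (B n) x) ∈ WT (comp E (B n) x) (tE E (comp E (B n) x)) := by
  induction n generalizing x with
  | zero => rw [h.B0] at hx; exact absurd (Set.mem_univ _) hx
  | succ n ih =>
    obtain ⟨v, hv, hmin⟩ := exists_leader ⟨x, h.self_mem_comp hx⟩ o
    rw [h.RL_succ hx hv hmin, upd]
    refine rkern_mem (rk_injOn h.inj _) (h.good hxV hx) ?_ _
    rw [h.RL_old hx, h.WT_tE (Finset.filter_subset _ _)]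
    have hs := h.old_saturated hxV hx
    exact h.RL_saturated hs fun y hy => ih y (hs y hy).1 (hs y hy).2.1

lemma RL_old_mem (w : ℕ × ℕ → I) {n x : ℕ} (hxV : x ∈ V) (hx : x ∉ B (n + 1)) :
    RL (forest E B o w n) (comp E (B (n + 1)) x) ∈
      WT ((comp E (B (n + 1)) x).filter (fun y => y ∉ B n)) (tE E (comp E (B (n + 1)) x)) := by
  rw [h.RL_old hx, h.WT_tE (Finset.filter_subset _ _)]
  have hs := h.old_saturated hxV hx
  exact h.RL_saturated hs fun y hy => h.forest_mem_WT w n y (hs y hy).1 (hs y hy).2.1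

/-- The forests increase. -/
theorem forest_mono (w : ℕ × ℕ → I) : Monotone (forest E B o w) := by
  refine monotone_nat_of_le_succ fun n => ?_
  intro e he
  obtain ⟨heE, x, hxe, hxB⟩ := forest_sub he
  have hxB' : x ∉ B (n + 1) := fun h' => hxB (h.anti (Nat.le_succ n) h')
  have hxV : x ∈ V := by
    obtain ⟨y, rfl⟩ := Sym2.mem_iff_exists.1 hxe
    exact h.inV _ _ heE
  have h1 : e ∈ RL (forest E B o w n) (comp E (B (n + 1)) x) :=
    h.mem_RL_forest.2 ⟨he, x, h.self_mem_comp hxB', hxe⟩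
  obtain ⟨v, hv, hmin⟩ := exists_leader ⟨x, h.self_mem_comp hxB'⟩ o
  have h2 := subset_rkern (rk_injOn h.inj (vs (comp E (B (n + 1)) x)
    (tE E (comp E (B (n + 1)) x)))) (h.good hxV hxB') (h.RL_old_mem w hxV hxB') (w (v, n)) h1
  have h3 : e ∈ RL (forest E B o w (n + 1)) (comp E (B (n + 1)) x) := by
    rw [h.RL_succ hxB' hv hmin, upd]; exact h2
  exact (h.mem_RL_forest.1 h3).1

/-- Locality: the forest on a component depends only on the labels inside. -/
theorem forest_local (w w' : ℕ × ℕ → I) (n x : ℕ) (hx : x ∉ B n)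
    (hw : ∀ v ∈ comp E (B n) x, ∀ k < n, w (v, k) = w' (v, k)) :
    RL (forest E B o w n) (comp E (B n) x) = RL (forest E B o w' n) (comp E (B n) x) := by
  induction n generalizing x w w' with
  | zero => rw [h.B0] at hx; exact absurd (Set.mem_univ _) hx
  | succ n ih =>
    obtain ⟨v, hv, hmin⟩ := exists_leader ⟨x, h.self_mem_comp hx⟩ o
    rw [h.RL_succ hx hv hmin, h.RL_succ hx hv hmin, hw v hv n (Nat.lt_succ_self n)]
    congr 1
    ext e
    have gen : ∀ w w' : ℕ × ℕ → I,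
        (∀ v ∈ comp E (B (n + 1)) x, ∀ k < n + 1, w (v, k) = w' (v, k)) →
        e ∈ RL (forest E B o w n) (comp E (B (n + 1)) x) →
        e ∈ RL (forest E B o w' n) (comp E (B (n + 1)) x) := by
      intro w w' hw he
      rw [h.RL_old hx, h.mem_RL_forest] at he
      obtain ⟨h1, y, hy, hye⟩ := he
      rw [Finset.mem_filter] at hy
      have hsub := h.comp_subset (Nat.le_succ n) hx hy.1 hy.2
      have h2 : e ∈ RL (forest E B o w n) (comp E (B n) y) :=
        h.mem_RL_forest.2 ⟨h1, y, h.self_mem_comp hy.2, hye⟩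
      rw [ih w w' y hy.2 (fun v hv k hk => hw v (hsub hv) k (by omega))] at h2
      exact h.mem_RL_forest.2 ⟨(h.mem_RL_forest.1 h2).1, y, hy.1, hye⟩
    exact ⟨gen w w' hw, gen w' w fun v hv k hk => (hw v hv k hk).symm⟩

end QEnv

end Pool.Agent.WUSF
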