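import Mathlib
import Pool.Agent.WUSF.Forest

/-!
Measurability of the construction.
-/

open MeasureTheory
open scoped Classical unitInterval ENNReal

namespace Pool.Agent.WUSF

variable {Ω : Type*} [MeasurableSpace Ω]

/-- A function all of whose level sets are measurable. -/
def MF {κ : Type*} (g : Ω → κ) : Prop := ∀ k, MeasurableSet {ω | g ω = k}

/-- A random set all of whose membership events are measurable. -/
def MS {α : Type*} (s : Ω → Set α) : Prop := ∀ a, MeasurableSet {ω | a ∈ s ω}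

lemma MF.const {κ : Type*} (k : κ) : MF (fun _ : Ω => k) := fun _ => MeasurableSet.const _

lemma MF.bind {κ : Type*} [Countable κ] {g : Ω → κ} (hg : MF g) {P : κ → Ω → Prop}
    (hP : ∀ k, MeasurableSet {ω | P k ω}) : MeasurableSet {ω | P (g ω) ω} := by
  have : {ω | P (g ω) ω} = ⋃ k, ({ω | g ω = k} ∩ {ω | P k ω}) := by
    ext ω
    simp only [Set.mem_ofPred_eq, Set.mem_iUnion, Set.mem_inter_iff]
    constructor
    · intro h; exact ⟨g ω, rfl, h⟩
    · rintro ⟨k, rfl, h⟩; exact h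
  rw [this]
  exact MeasurableSet.iUnion fun k => (hg k).inter (hP k)

lemma MF.bind_fun {κ κ' : Type*} [Countable κ] {g : Ω → κ} (hg : MF g) {f : κ → Ω → κ'}
    (hf : ∀ k, MF (f k)) : MF (fun ω => f (g ω) ω) :=
  fun k' => hg.bind (P := fun k ω => f k ω = k') fun k => hf k k'

lemma MF.comp {κ κ' : Type*} [Countable κ] {g : Ω → κ} (hg : MF g) (f : κ → κ') :
    MF (fun ω => f (g ω)) := hg.bind_fun (f := fun k _ => f k) fun _ => MF.const _

lemma mset_iff {P Q : Ω → Prop} (hP : MeasurableSet {ω | P ω}) (hQ : MeasurableSet {ω | Q ω}) :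
    MeasurableSet {ω | P ω ↔ Q ω} := by
  have : {ω | P ω ↔ Q ω} = ({ω | P ω} ∩ {ω | Q ω}) ∪ ({ω | P ω}ᶜ ∩ {ω | Q ω}ᶜ) := by
    ext ω
    simp only [Set.mem_ofPred_eq, Set.mem_union, Set.mem_inter_iff, Set.mem_compl_iff]
    tauto
  rw [this]
  exact (hP.inter hQ).union (hP.compl.inter hQ.compl)

lemma mset_and {P Q : Ω → Prop} (hP : MeasurableSet {ω | P ω}) (hQ : MeasurableSet {ω | Q ω}) :
    MeasurableSet {ω | P ω ∧ Q ω} := hP.inter hQ

lemma mset_or {P Q : Ω → Prop} (hP : MeasurableSet {ω | P ω}) (hQ : MeasurableSet {ω | Q ω}) :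
    MeasurableSet {ω | P ω ∨ Q ω} := hP.union hQ

lemma mset_not {P : Ω → Prop} (hP : MeasurableSet {ω | P ω}) :
    MeasurableSet {ω | ¬ P ω} := hP.compl

lemma mset_exists {κ : Type*} [Countable κ] {P : κ → Ω → Prop}
    (hP : ∀ k, MeasurableSet {ω | P k ω}) : MeasurableSet {ω | ∃ k, P k ω} := by
  have : {ω | ∃ k, P k ω} = ⋃ k, {ω | P k ω} := by ext ω; simp
  rw [this]; exact MeasurableSet.iUnion hP

lemma mset_forall {κ : Type*} [Countable κ] {P : κ → Ω → Prop}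
    (hP : ∀ k, MeasurableSet {ω | P k ω}) : MeasurableSet {ω | ∀ k, P k ω} := by
  have : {ω | ∀ k, P k ω} = ⋂ k, {ω | P k ω} := by ext ω; simp
  rw [this]; exact MeasurableSet.iInter hP

lemma mset_imp {Q : Prop} {P : Ω → Prop} (hP : MeasurableSet {ω | P ω}) :
    MeasurableSet {ω | Q → P ω} := by
  by_cases hQ : Q
  · simpa [hQ] using hP
  · simp [hQ]

lemma MF.finset {α : Type*} [Countable α] {g : Ω → Finset α}
    (h : ∀ a, MeasurableSet {ω | a ∈ g ω}) : MF g := by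
  intro S
  have : {ω | g ω = S} = {ω | ∀ a, a ∈ g ω ↔ a ∈ S} := by
    ext ω; simp only [Set.mem_ofPred_eq, Finset.ext_iff]
  rw [this]
  exact mset_forall fun a => mset_iff (h a) (MeasurableSet.const _)

lemma MF.mem {α : Type*} [Countable α] {g : Ω → Finset α} (h : MF g) (a : α) :
    MeasurableSet {ω | a ∈ g ω} :=
  h.bind (P := fun S _ => a ∈ S) fun _ => MeasurableSet.const _

lemma MS.toFin {α : Type*} [Countable α] {s : Ω → Set α} (hs : MS s) :
    MF (fun ω => toFin (s ω)) := by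
  refine MF.finset fun a => ?_
  have : {ω | a ∈ WUSF.toFin (s ω)} = {ω | (∃ F : Finset α, ∀ b, b ∉ F → b ∉ s ω) ∧ a ∈ s ω} := by
    ext ω
    simp only [Set.mem_ofPred_eq]
    constructor
    · intro h
      refine ⟨?_, mem_of_mem_toFin h⟩
      have hfin : (s ω).Finite := by
        by_contra hcon
        unfold WUSF.toFin at h
        rw [dif_neg hcon] at h
        simp at h
      exact ⟨hfin.toFinset, fun b hb hb' => hb (hfin.mem_toFinset.2 hb')⟩
    · rintro ⟨⟨F, hF⟩, ha⟩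
      have hfin : (s ω).Finite := F.finite_toSet.subset fun b hb => by
        by_contra hb'; exact hF b hb' hb
      exact (mem_toFin hfin).2 ha
  rw [this]
  refine mset_and (mset_exists fun F => mset_forall fun b => mset_imp (mset_not (hs b))) (hs a)

/-- reachability in `n` steps -/
def reachN (E : Set (Sym2 ℕ)) (B : Set ℕ) : ℕ → ℕ → ℕ → Prop
  | 0, x, y => x = y
  | n + 1, x, y => ∃ z, reachN E B n x z ∧ s(z, y) ∈ E ∧ z ∉ B ∧ y ∉ B

lemma reach_iff {E : Set (Sym2 ℕ)} {B : Set ℕ} {x y : ℕ} :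
    Reach E B x y ↔ ∃ n, reachN E B n x y := by
  constructor
  · intro h
    induction h with
    | refl => exact ⟨0, rfl⟩
    | tail _ h ih =>
      obtain ⟨n, hn⟩ := ih
      exact ⟨n + 1, _, hn, h⟩
  · rintro ⟨n, hn⟩
    induction n generalizing y with
    | zero => cases hn; exact Reach.refl _
    | succ n ih =>
      obtain ⟨z, hz, h⟩ := hn
      exact (ih hz).trans (Reach.edge h.1 h.2.1 h.2.2)

section Random

variable {E : Ω → Set (Sym2 ℕ)} (hE : MS E)

include hE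

lemma MS.reach {B : Ω → Set ℕ} (hB : MS B) (x y : ℕ) :
    MeasurableSet {ω | Reach (E ω) (B ω) x y} := by
  have h1 : ∀ n y, MeasurableSet {ω | reachN (E ω) (B ω) n x y} := by
    intro n
    induction n with
    | zero => intro y; exact MeasurableSet.const _
    | succ n ih =>
      intro y
      refine mset_exists fun z => ?_
      exact mset_and (ih z) (mset_and (hE _) (mset_and (mset_not (hB z)) (mset_not (hB y))))
  have : {ω | Reach (E ω) (B ω) x y} = {ω | ∃ n, reachN (E ω) (B ω) n x y} := by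
    ext ω; exact reach_iff
  rw [this]
  exact mset_exists fun n => h1 n y

lemma mf_comp {B : Ω → Set ℕ} (hB : MS B) (x : ℕ) : MF (fun ω => comp (E ω) (B ω) x) :=
  MS.toFin (s := fun ω => {y | Reach (E ω) (B ω) x y}) fun y => MS.reach hE hB x y

lemma MF.tE (Λ : Finset ℕ) : MF (fun ω => tE (E ω) Λ) :=
  MS.toFin (s := fun ω => {e | e ∈ E ω ∧ ∃ x ∈ Λ, x ∈ e}) fun e =>
    mset_and (hE e) (MeasurableSet.const _)

end Random

lemma MF.RL {R : Ω → Set (Sym2 ℕ)} (hR : MS R) (Λ : Finset ℕ) : MF (fun ω => RL (R ω) Λ) :=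
  MS.toFin (s := fun ω => {e | e ∈ R ω ∧ ∃ y ∈ Λ, y ∈ e}) fun e =>
    mset_and (hR e) (MeasurableSet.const _)

lemma MF.rk {o : Ω → ℕ → I} (ho : ∀ v, Measurable fun ω => o ω v) (X : Finset ℕ) (v : ℕ) :
    MF (fun ω => rk (o ω) X v) := by
  have h1 : MF (fun ω => X.filter fun u => o ω u < o ω v) := by
    refine MF.finset fun u => ?_
    have : {ω | u ∈ X.filter fun u => o ω u < o ω v} = {ω | u ∈ X ∧ o ω u < o ω v} := by
      ext ω; simp
    rw [this]
    exact mset_and (MeasurableSet.const _) (measurableSet_lt (ho u) (ho v))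
  exact h1.comp Finset.card

/-- random relabelling functions -/
lemma MF.image {f : Ω → ℕ → ℕ} (hf : ∀ v, MF fun ω => f ω v) (Λ : Finset ℕ) :
    MF (fun ω => Λ.image (f ω)) := by
  refine MF.finset fun a => ?_
  have : {ω | a ∈ Λ.image (f ω)} = {ω | ∃ x, x ∈ Λ ∧ f ω x = a} := by
    ext ω; simp
  rw [this]
  exact mset_exists fun x => mset_and (MeasurableSet.const _) (hf x a)

lemma MF.map {f : Ω → ℕ → ℕ} (hf : ∀ v, MF fun ω => f ω v) (e : Sym2 ℕ) :
    MF (fun ω => Sym2.map (f ω) e) := by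
  induction e using Sym2.ind with
  | _ x y =>
    have h1 := MF.bind_fun (hf x) (f := fun a ω => s(a, f ω y)) fun a => by
      exact MF.comp (hf y) (fun b => s(a, b))
    exact h1

lemma MF.imageMap {f : Ω → ℕ → ℕ} (hf : ∀ v, MF fun ω => f ω v) (F : Finset (Sym2 ℕ)) :
    MF (fun ω => F.image (Sym2.map (f ω))) := by
  refine MF.finset fun a => ?_
  have : {ω | a ∈ F.image (Sym2.map (f ω))} = {ω | ∃ e, e ∈ F ∧ Sym2.map (f ω) e = a} := by
    ext ω; simp
  rw [this]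
  exact mset_exists fun x => mset_and (MeasurableSet.const _) (MF.map hf x a)

lemma mset_kern {u : Ω → I} (hu : Measurable u) (A₁ A₂ : Finset ℕ) (F R : Finset (Sym2 ℕ))
    (e : Sym2 ℕ) : MeasurableSet {ω | e ∈ kern A₁ A₂ F R (u ω)} := by
  have h1 : MF (fun ω => kern A₁ A₂ F R (u ω)) := fun S => hu (measurable_kern A₁ A₂ F R S)
  exact h1.mem e

lemma mset_rkern {f : Ω → ℕ → ℕ} (hf : ∀ v, MF fun ω => f ω v) {u : Ω → I} (hu : Measurable u)
    (Λ₁ Λ₂ : Finset ℕ) (F R : Finset (Sym2 ℕ)) (e : Sym2 ℕ) :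
    MeasurableSet {ω | e ∈ rkern (f ω) Λ₁ Λ₂ F R (u ω)} := by
  have : {ω | e ∈ rkern (f ω) Λ₁ Λ₂ F R (u ω)} = {ω | e ∈ F ∧ Sym2.map (f ω) e ∈
      kern (Λ₁.image (f ω)) (Λ₂.image (f ω)) (F.image (Sym2.map (f ω)))
        (R.image (Sym2.map (f ω))) (u ω)} := by
    ext ω; simp only [rkern, Set.mem_ofPred_eq, Finset.mem_filter]
  rw [this]
  refine mset_and (MeasurableSet.const _) ?_
  refine (MF.map hf e).bind (P := fun e' ω => e' ∈ kern (Λ₁.image (f ω)) (Λ₂.image (f ω))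
    (F.image (Sym2.map (f ω))) (R.image (Sym2.map (f ω))) (u ω)) fun e' => ?_
  refine (MF.image hf Λ₁).bind (P := fun A₁ ω => e' ∈ kern A₁ (Λ₂.image (f ω))
    (F.image (Sym2.map (f ω))) (R.image (Sym2.map (f ω))) (u ω)) fun A₁ => ?_
  refine (MF.image hf Λ₂).bind (P := fun A₂ ω => e' ∈ kern A₁ A₂
    (F.image (Sym2.map (f ω))) (R.image (Sym2.map (f ω))) (u ω)) fun A₂ => ?_
  refine (MF.imageMap hf F).bind (P := fun A₃ ω => e' ∈ kern A₁ A₂
    A₃ (R.image (Sym2.map (f ω))) (u ω)) fun A₃ => ?_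
  refine (MF.imageMap hf R).bind (P := fun A₄ ω => e' ∈ kern A₁ A₂
    A₃ A₄ (u ω)) fun A₄ => ?_
  exact mset_kern hu _ _ _ _ _

lemma mset_upd {E : Ω → Set (Sym2 ℕ)} (hE : MS E) {B : Ω → Set ℕ} (hB : MS B) {o : Ω → ℕ → I}
    (ho : ∀ v, Measurable fun ω => o ω v) {R : Ω → Finset (Sym2 ℕ)} (hR : MF R) {u : Ω → I}
    (hu : Measurable u) (Λ : Finset ℕ) (e : Sym2 ℕ) :
    MeasurableSet {ω | e ∈ upd (E ω) (B ω) (o ω) (R ω) Λ (u ω)} := by
  unfold upd
  refine (MF.tE hE Λ).bind (P := fun F ω => e ∈ rkern (rk (o ω) (vs Λ F)) Λ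
    (Λ.filter fun y => y ∉ B ω) F (R ω) (u ω)) fun F => ?_
  have h2 : MF (fun ω => Λ.filter fun y => y ∉ B ω) := by
    refine MF.finset fun a => ?_
    have : {ω | a ∈ Λ.filter fun y => y ∉ B ω} = {ω | a ∈ Λ ∧ a ∉ B ω} := by
      ext ω; simp
    rw [this]
    exact mset_and (MeasurableSet.const _) (mset_not (hB a))
  refine h2.bind (P := fun Λ₂ ω => e ∈ rkern (rk (o ω) (vs Λ F)) Λ Λ₂ F (R ω) (u ω)) fun Λ₂ => ?_
  refine hR.bind (P := fun R' ω => e ∈ rkern (rk (o ω) (vs Λ F)) Λ Λ₂ F R' (u ω)) fun R' => ?_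
  exact mset_rkern (f := fun ω => rk (o ω) (vs Λ F)) (fun v => MF.rk ho _ v) hu _ _ _ _ _

lemma MS.stepSet {E : Ω → Set (Sym2 ℕ)} (hE : MS E) {B B' : Ω → Set ℕ} (hB : MS B) (hB' : MS B')
    {o : Ω → ℕ → I} (ho : ∀ v, Measurable fun ω => o ω v) {w : Ω → ℕ → I}
    (hw : ∀ v, Measurable fun ω => w ω v) {R : Ω → Set (Sym2 ℕ)} (hR : MS R) :
    MS (fun ω => stepSet (E ω) (B ω) (B' ω) (o ω) (w ω) (R ω)) := by
  intro e
  refine mset_exists fun x => mset_exists fun v => ?_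
  refine mset_and (MeasurableSet.const _) (mset_and (mset_not (hB' x)) ?_)
  refine (mf_comp hE hB' x).bind (P := fun Λ ω => v ∈ Λ ∧ (∀ v' ∈ Λ, o ω v ≤ o ω v') ∧
    e ∈ upd (E ω) (B ω) (o ω) (RL (R ω) Λ) Λ (w ω v)) fun Λ => ?_
  refine mset_and (MeasurableSet.const _) (mset_and ?_ ?_)
  · exact mset_forall fun v' => mset_imp (measurableSet_le (ho v) (ho v'))
  · exact mset_upd hE hB ho (MF.RL hR Λ) (hw v) Λ e

theorem MS.forest {E : Ω → Set (Sym2 ℕ)} (hE : MS E) {B : Ω → ℕ → Set ℕ}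
    (hB : ∀ n, MS fun ω => B ω n) {o : Ω → ℕ → I} (ho : ∀ v, Measurable fun ω => o ω v)
    {w : Ω → ℕ × ℕ → I} (hw : ∀ p, Measurable fun ω => w ω p) (n : ℕ) :
    MS (fun ω => forest (E ω) (B ω) (o ω) (w ω) n) := by
  induction n with
  | zero => intro e; exact MeasurableSet.const _
  | succ n ih => exact MS.stepSet hE (hB n) (hB (n + 1)) ho (fun v => hw (v, n)) ih

end Pool.Agent.WUSF
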