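import Mathlib
import Pool.Agent.WUSF.Meas

/-!
The law of the forests: on every component it is uniform on wired spanning trees.
-/

open MeasureTheory ProbabilityTheory
open scoped Classical unitInterval ENNReal

namespace Pool.Agent.WUSF

/-- The law of i.i.d. uniform labels indexed by `ι`. -/
noncomputable def lab (ι : Type*) : Measure (ι → I) :=
  Measure.infinitePi fun _ : ι => (volume : Measure I)

instance (ι : Type*) : IsProbabilityMeasure (lab ι) := by
  unfold lab; infer_instance

/-- The event `A` depends only on the coordinates in `J`. -/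
def DepOn {ι : Type*} (J : Set ι) (A : Set (ι → I)) : Prop :=
  ∀ w w' : ι → I, (∀ p ∈ J, w p = w' p) → (w ∈ A ↔ w' ∈ A)

lemma DepOn.mono {ι : Type*} {J J' : Set ι} {A : Set (ι → I)} (h : DepOn J A) (hJ : J ⊆ J') :
    DepOn J' A := fun w w' hw => h w w' fun p hp => hw p (hJ hp)

/-- Events depending on disjoint finite sets of coordinates are independent. -/
lemma lab_inter {ι : Type*} (J J' : Finset ι) (hJ : Disjoint J J') {A A' : Set (ι → I)}
    (hA : MeasurableSet A) (hA' : MeasurableSet A') (hAJ : DepOn (J : Set ι) A)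
    (hAJ' : DepOn (J' : Set ι) A') : lab ι (A ∩ A') = lab ι A * lab ι A' := by
  have hind : iIndepFun (fun (i : ι) (ω : ι → I) => ω i) (lab ι) :=
    iIndepFun_infinitePi (X := fun (_ : ι) (x : I) => x) (fun _ => measurable_id)
  have h2 := hind.indepFun_finset J J' hJ (fun i => measurable_pi_apply i)
  let ext : ∀ K : Finset ι, (K → I) → ι → I := fun K z i => if h : i ∈ K then z ⟨i, h⟩ else 0
  have hext : ∀ K : Finset ι, Measurable (ext K) := by
    intro K
    refine measurable_pi_lambda _ fun i => ?_
    by_cases hi : i ∈ K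
    · simp only [ext, dif_pos hi]; exact measurable_pi_apply _
    · simp only [ext, dif_neg hi]; exact measurable_const
  have key : ∀ (K : Finset ι) (A : Set (ι → I)), DepOn (K : Set ι) A →
      A = (fun (a : ι → I) (i : K) => a i) ⁻¹' (ext K ⁻¹' A) := by
    intro K A hA
    ext w
    simp only [Set.mem_preimage]
    refine hA _ _ fun p hp => ?_
    have hp' : p ∈ K := hp
    simp only [ext, dif_pos hp']
  rw [key J A hAJ, key J' A' hAJ']
  exact h2.measure_inter_preimage_eq_mul _ _ (hext J hA) (hext J' hA')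

/-- Finite families of independent events. -/
lemma lab_iInter {ι κ : Type*} (T : Finset κ) (J : κ → Finset ι) (A : κ → Set (ι → I))
    (hJ : ∀ C ∈ T, ∀ C' ∈ T, C ≠ C' → Disjoint (J C) (J C'))
    (hA : ∀ C ∈ T, MeasurableSet (A C)) (hAJ : ∀ C ∈ T, DepOn (J C : Set ι) (A C)) :
    lab ι {w | ∀ C ∈ T, w ∈ A C} = ∏ C ∈ T, lab ι (A C) := by
  induction T using Finset.induction_on with
  | empty => simp
  | insert C T hC ih =>
    have h1 : {w | ∀ C' ∈ insert C T, w ∈ A C'} = A C ∩ {w | ∀ C' ∈ T, w ∈ A C'} := by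
      ext w; simp
    have hm : MeasurableSet {w : ι → I | ∀ C' ∈ T, w ∈ A C'} := by
      have : {w : ι → I | ∀ C' ∈ T, w ∈ A C'} = ⋂ C' ∈ T, A C' := by ext w; simp
      rw [this]
      exact Finset.measurableSet_biInter _ fun C' hC' => hA C' (Finset.mem_insert_of_mem hC')
    have hd : DepOn ((T.biUnion J : Finset ι) : Set ι) {w : ι → I | ∀ C' ∈ T, w ∈ A C'} := by
      intro w w' hw
      simp only [Set.mem_ofPred_eq]
      refine forall_congr' fun C' => forall_congr' fun hC' => ?_
      refine hAJ C' (Finset.mem_insert_of_mem hC') w w' fun p hp => hw p ?_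
      exact Finset.mem_coe.2 (Finset.mem_biUnion.2 ⟨C', hC', hp⟩)
    have hdisj : Disjoint (J C) (T.biUnion J) := by
      rw [Finset.disjoint_biUnion_right]
      intro C' hC'
      exact hJ C (Finset.mem_insert_self _ _) C' (Finset.mem_insert_of_mem hC')
        (fun h => hC (h ▸ hC'))
    rw [h1, lab_inter (J C) (T.biUnion J) hdisj (hA C (Finset.mem_insert_self _ _)) hm
      (hAJ C (Finset.mem_insert_self _ _)) hd, Finset.prod_insert hC, ih]
    · intro C' hC' C'' hC''
      exact hJ C' (Finset.mem_insert_of_mem hC') C'' (Finset.mem_insert_of_mem hC'')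
    · exact fun C' hC' => hA C' (Finset.mem_insert_of_mem hC')
    · exact fun C' hC' => hAJ C' (Finset.mem_insert_of_mem hC')

namespace QEnv

variable {E : Set (Sym2 ℕ)} {B : ℕ → Set ℕ} {V : Set ℕ} {o : ℕ → I} (h : QEnv E B V o)

include h

omit h in
lemma ms_forest (E : Set (Sym2 ℕ)) (B : ℕ → Set ℕ) (o : ℕ → I) (n : ℕ) :
    MS (fun w : ℕ × ℕ → I => forest E B o w n) :=
  MS.forest (Ω := ℕ × ℕ → I) (E := fun _ => E) (fun _ => MeasurableSet.const _)
    (B := fun _ => B) (fun _ _ => MeasurableSet.const _) (o := fun _ => o)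
    (fun _ => measurable_const) (w := fun w => w) (fun p => measurable_pi_apply p) n

omit h in
lemma measurable_RL (E : Set (Sym2 ℕ)) (B : ℕ → Set ℕ) (o : ℕ → I) (n : ℕ) (Λ : Finset ℕ)
    (S : Finset (Sym2 ℕ)) : MeasurableSet {w : ℕ × ℕ → I | RL (forest E B o w n) Λ = S} :=
  MF.RL (ms_forest E B o n) Λ S

/-- The uniform law on components. -/
def UnifComp (E : Set (Sym2 ℕ)) (B : ℕ → Set ℕ) (V : Set ℕ) (o : ℕ → I) (n : ℕ) : Prop :=
  ∀ x ∈ V, x ∉ B n → ∀ S ∈ WT (comp E (B n) x) (tE E (comp E (B n) x)),
    lab (ℕ × ℕ) {w | RL (forest E B o w n) (comp E (B n) x) = S} =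
      ((WT (comp E (B n) x) (tE E (comp E (B n) x))).card : ℝ≥0∞)⁻¹

/-- The uniform law on saturated sets. -/
lemma unif_saturated {n : ℕ} (hU : UnifComp E B V o n) {X : Finset ℕ}
    (hX : ∀ x ∈ X, x ∈ V ∧ x ∉ B n ∧ comp E (B n) x ⊆ X) {S : Finset (Sym2 ℕ)}
    (hS : S ∈ WT X (tE E X)) :
    lab (ℕ × ℕ) {w | RL (forest E B o w n) X = S} = ((WT X (tE E X)).card : ℝ≥0∞)⁻¹ := by
  have hX' : ∀ x ∈ X, x ∉ B n ∧ comp E (B n) x ⊆ X := fun x hx => (hX x hx).2
  have hF : ∀ e ∈ tE E X, e ∈ E := fun e he => (h.mem_tE.1 he).1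
  set 𝒞 := X.image fun x => comp E (B n) x with h𝒞
  set c : ℝ≥0∞ := ∏ C ∈ 𝒞, ((WT C (tE E C)).card : ℝ≥0∞)⁻¹ with hc
  have hmemX : ∀ w, RL (forest E B o w n) X ∈ WT X (tE E X) := fun w =>
    h.RL_saturated hX fun x hx => h.forest_mem_WT w n x (hX x hx).1 (hX x hx).2.1
  -- the probability of a given tree is the constant `c`
  have hconst : ∀ S ∈ WT X (tE E X), lab (ℕ × ℕ) {w | RL (forest E B o w n) X = S} = c := by
    intro S hS
    have hSdec := hS
    have key := mem_WT_biUnion (S := S) (h.comps_disj hX') (h.comps_sep hX' hF)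
    rw [h.biUnion_comps hX'] at key
    rw [key] at hSdec
    obtain ⟨hS1, hS2, hS3⟩ := hSdec
    have hev : {w | RL (forest E B o w n) X = S} =
        {w | ∀ C ∈ 𝒞, w ∈ {w | RL (forest E B o w n) C = tch C S}} := by
      ext w
      simp only [Set.mem_ofPred_eq]
      constructor
      · intro hw C hC
        obtain ⟨x, hx, rfl⟩ := Finset.mem_image.1 hC
        rw [← hw, h.tch_RL (hX' x hx).2]
      · intro hw
        ext e
        constructor
        · intro he
          have he' := h.mem_RL_forest.1 he
          obtain ⟨h1, y, hy, hye⟩ := he'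
          have hC : comp E (B n) y ∈ 𝒞 := Finset.mem_image_of_mem _ hy
          have h2 : e ∈ RL (forest E B o w n) (comp E (B n) y) :=
            h.mem_RL_forest.2 ⟨h1, y, h.self_mem_comp (hX' y hy).1, hye⟩
          rw [hw _ hC] at h2
          exact tch_subset _ _ h2
        · intro he
          obtain ⟨C, hC, y, hy, hye⟩ := hS2 e he
          have h2 : e ∈ tch C S := mem_tch.2 ⟨he, y, hy, hye⟩
          rw [← hw C hC] at h2
          obtain ⟨x, hx, rfl⟩ := Finset.mem_image.1 hC
          have h3 := h.mem_RL_forest.1 h2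
          obtain ⟨h4, z, hz, hze⟩ := h3
          exact h.mem_RL_forest.2 ⟨h4, z, (hX' x hx).2 hz, hze⟩
    rw [hev, lab_iInter 𝒞 (fun C => C ×ˢ Finset.range n)
      (fun C => {w | RL (forest E B o w n) C = tch C S})]
    · refine Finset.prod_congr rfl fun C hC => ?_
      obtain ⟨x, hx, rfl⟩ := Finset.mem_image.1 hC
      refine hU x (hX x hx).1 (hX' x hx).1 _ ?_
      rw [← h.WT_tE (hX' x hx).2]
      exact hS3 _ hC
    · intro C hC C' hC' hne
      rw [Finset.disjoint_product]
      exact Or.inl (h.comps_disj hX' C hC C' hC' hne)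
    · intro C _
      exact measurable_RL E B o n C _
    · intro C hC w w' hw
      obtain ⟨x, hx, rfl⟩ := Finset.mem_image.1 hC
      simp only [Set.mem_ofPred_eq]
      rw [h.forest_local w w' n x (hX' x hx).1 fun v hv k hk => hw (v, k)
        (Finset.mem_coe.2 (Finset.mem_product.2 ⟨hv, Finset.mem_range.2 hk⟩))]
  -- total mass
  have hsum : ∑ S ∈ WT X (tE E X), lab (ℕ × ℕ) {w | RL (forest E B o w n) X = S} = 1 := by
    rw [← measure_biUnion_finset]
    · have : (⋃ S ∈ WT X (tE E X), {w | RL (forest E B o w n) X = S}) = Set.univ := by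
        ext w
        simp only [Set.mem_iUnion, Set.mem_ofPred_eq, exists_prop, exists_eq_right', Set.mem_univ,
          iff_true]
        exact hmemX w
      rw [this, measure_univ]
    · intro S _ S' _ hne
      rw [Function.onFun, Set.disjoint_left]
      intro w hw hw'
      exact hne (hw.symm.trans hw')
    · intro S _
      exact measurable_RL E B o n X S
  rw [Finset.sum_congr rfl hconst, Finset.sum_const, nsmul_eq_mul] at hsum
  rw [hconst S hS]
  exact ENNReal.eq_inv_of_mul_eq_one_left (by rw [mul_comm]; exact hsum)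

/-- The forest of level `n` is uniform on each component. -/
theorem unif_comp (n : ℕ) : UnifComp E B V o n := by
  induction n with
  | zero => intro x _ hx; rw [h.B0] at hx; exact absurd (Set.mem_univ _) hx
  | succ n ih =>
    intro x hxV hx S hS
    set Λ := comp E (B (n + 1)) x with hΛ
    set X := Λ.filter (fun y => y ∉ B n) with hXdef
    have hsat := h.old_saturated hxV hx
    obtain ⟨v, hv, hmin⟩ := exists_leader ⟨x, h.self_mem_comp hx⟩ o
    have hgood := h.good hxV hx
    have hWT : WT X (tE E Λ) = WT X (tE E X) := h.WT_tE (Finset.filter_subset _ _)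
    have hrk := rk_injOn h.inj (vs Λ (tE E Λ))
    -- decomposition over the old tree
    have hdec : {w | RL (forest E B o w (n + 1)) Λ = S} =
        ⋃ R ∈ WT X (tE E Λ), ({w | RL (forest E B o w n) Λ = R} ∩
          {w | upd E (B n) o R Λ (w (v, n)) = S}) := by
      ext w
      simp only [Set.mem_ofPred_eq, Set.mem_iUnion, Set.mem_inter_iff, exists_prop]
      rw [h.RL_succ hx hv hmin]
      constructor
      · intro hw
        exact ⟨_, h.RL_old_mem w hxV hx, rfl, hw⟩
      · rintro ⟨R, _, rfl, hw⟩; exact hw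
    have hmeasU : ∀ R, MeasurableSet {u : I | upd E (B n) o R Λ u = S} := fun R =>
      measurable_rkern _ _ _ _ _ _
    have hmeasW : ∀ R, MeasurableSet {w : ℕ × ℕ → I | upd E (B n) o R Λ (w (v, n)) = S} :=
      fun R => by
        have hm : Measurable fun w : ℕ × ℕ → I => w (v, n) := measurable_pi_apply (v, n)
        exact hm (hmeasU R)
    rw [hdec, measure_biUnion_finset]
    · have hterm : ∀ R ∈ WT X (tE E Λ),
          lab (ℕ × ℕ) ({w | RL (forest E B o w n) Λ = R} ∩
            {w | upd E (B n) o R Λ (w (v, n)) = S}) =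
          ((WT X (tE E Λ)).card : ℝ≥0∞)⁻¹ * volume {u : I | upd E (B n) o R Λ u = S} := by
        intro R hR
        rw [lab_inter (X ×ˢ Finset.range n) {(v, n)}]
        · congr 1
          · have : {w | RL (forest E B o w n) Λ = R} = {w | RL (forest E B o w n) X = R} := by
              ext w
              simp only [Set.mem_ofPred_eq]
              rw [hΛ, h.RL_old hx]
            rw [this, h.unif_saturated ih hsat (by rw [← hWT]; exact hR), hWT]
          · have hp : MeasurePreserving (fun w : ℕ × ℕ → I => w (v, n)) (lab (ℕ × ℕ)) volume :=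
              measurePreserving_eval_infinitePi _ _
            rw [← hp.measure_preimage (hmeasU R).nullMeasurableSet]
            rfl
        · rw [Finset.disjoint_left]
          rintro ⟨a, k⟩ h1 h2
          rw [Finset.mem_product, Finset.mem_range] at h1
          rw [Finset.mem_singleton, Prod.mk.injEq] at h2
          have h3 := h1.2
          simp only at h3
          omega
        · exact measurable_RL E B o n Λ R
        · exact hmeasW R
        · intro w w' hw
          simp only [Set.mem_ofPred_eq]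
          have hgen : RL (forest E B o w n) Λ = RL (forest E B o w' n) Λ := by
            have gen : ∀ w w' : ℕ × ℕ → I,
                (∀ p ∈ ((X ×ˢ Finset.range n : Finset (ℕ × ℕ)) : Set (ℕ × ℕ)), w p = w' p) →
                ∀ e, e ∈ RL (forest E B o w n) Λ → e ∈ RL (forest E B o w' n) Λ := by
              intro w w' hw e he
              rw [hΛ, h.RL_old hx, h.mem_RL_forest] at he
              obtain ⟨h1, y, hy, hye⟩ := he
              have hy' := hsat y hy
              have h2 : e ∈ RL (forest E B o w n) (comp E (B n) y) :=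
                h.mem_RL_forest.2 ⟨h1, y, h.self_mem_comp hy'.2.1, hye⟩
              rw [h.forest_local w w' n y hy'.2.1 fun v hv k hk => hw (v, k)
                (Finset.mem_coe.2 (Finset.mem_product.2 ⟨hy'.2.2 hv, Finset.mem_range.2 hk⟩))] at h2
              exact h.mem_RL_forest.2 ⟨(h.mem_RL_forest.1 h2).1, y, (Finset.mem_filter.1 hy).1, hye⟩
            ext e
            exact ⟨gen w w' hw e, gen w' w (fun p hp => (hw p hp).symm) e⟩
          rw [hgen]
        · intro w w' hw
          simp only [Set.mem_ofPred_eq]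
          rw [hw (v, n) (by simp)]
      rw [Finset.sum_congr rfl hterm, ← Finset.mul_sum]
      have hk := sum_rkern hrk hgood hS
      have hk' : ∑ R ∈ WT X (tE E Λ), volume {u : I | upd E (B n) o R Λ u = S} =
          ((WT X (tE E Λ)).card : ℝ≥0∞) * ((WT Λ (tE E Λ)).card : ℝ≥0∞)⁻¹ := hk
      rw [hk', ← mul_assoc, ENNReal.inv_mul_cancel, one_mul]
      · have := Finset.card_pos.2 hgood.2.2
        exact_mod_cast this.ne'
      · exact ENNReal.natCast_ne_top _
    · intro R _ R' _ hne
      rw [Function.onFun, Set.disjoint_left]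
      rintro w ⟨hw, _⟩ ⟨hw', _⟩
      exact hne (hw.symm.trans hw')
    · intro R _
      exact (measurable_RL E B o n Λ R).inter (hmeasW R)

end QEnv

end Pool.Agent.WUSF
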