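import Mathlib
import Pool.Agent.WUSF.Graph

/-!
Simple random walk, recurrence, and asymptotic invariance of Cesàro averages.
-/

open Filter Topology
open scoped Classical

namespace Pool.Agent.WUSF

/-- The probability that the walk from `x` is in `A` after `n` steps. -/
noncomputable def pwA (E : Set (Sym2 ℕ)) (A : Set ℕ) : ℕ → ℕ → ℝ
  | 0, x => if x ∈ A then 1 else 0
  | n + 1, x => avg E (pwA E A n) x

/-- The Cesàro average. -/
noncomputable def cesA (E : Set (Sym2 ℕ)) (N : ℕ) (A : Set ℕ) (x : ℕ) : ℝ :=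
  (∑ n ∈ Finset.range N, pwA E A n x) / N

/-- The Cesàro kernel. -/
noncomputable def ces (E : Set (Sym2 ℕ)) (N : ℕ) (x a : ℕ) : ℝ := cesA E N {a} x

section basic

variable {E : Set (Sym2 ℕ)}

lemma avg_mono {f g : ℕ → ℝ} {x : ℕ} (h : ∀ y ∈ nbr E x, f y ≤ g y) : avg E f x ≤ avg E g x := by
  unfold avg
  gcongr with y hy
  exact h y hy

lemma avg_congr {f g : ℕ → ℝ} {x : ℕ} (h : ∀ y ∈ nbr E x, f y = g y) : avg E f x = avg E g x := by
  unfold avg
  rw [Finset.sum_congr rfl h]

lemma avg_nonneg {f : ℕ → ℝ} {x : ℕ} (h : ∀ y ∈ nbr E x, 0 ≤ f y) : 0 ≤ avg E f x := by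
  unfold avg
  exact div_nonneg (Finset.sum_nonneg h) (Nat.cast_nonneg _)

lemma avg_const {x : ℕ} (hx : (nbr E x).Nonempty) (c : ℝ) : avg E (fun _ => c) x = c := by
  unfold avg
  have : ((nbr E x).card : ℝ) ≠ 0 := by
    have := Finset.card_pos.2 hx
    positivity
  rw [Finset.sum_const, nsmul_eq_mul]
  field_simp

lemma avg_mul_const (f : ℕ → ℝ) (c : ℝ) (x : ℕ) : avg E (fun y => f y * c) x = avg E f x * c := by
  unfold avg
  rw [← Finset.sum_mul]
  ring

lemma avg_sum {κ : Type*} (s : Finset κ) (f : κ → ℕ → ℝ) (x : ℕ) :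
    avg E (fun y => ∑ i ∈ s, f i y) x = ∑ i ∈ s, avg E (f i) x := by
  unfold avg
  rw [Finset.sum_comm, ← Finset.sum_div]

lemma avg_sub (f g : ℕ → ℝ) (x : ℕ) :
    avg E (fun y => f y - g y) x = avg E f x - avg E g x := by
  unfold avg
  rw [Finset.sum_sub_distrib, sub_div]

lemma avg_le_one {f : ℕ → ℝ} {x : ℕ} (h : ∀ y ∈ nbr E x, f y ≤ 1) : avg E f x ≤ 1 := by
  by_cases hx : (nbr E x).Nonempty
  · calc avg E f x ≤ avg E (fun _ => 1) x := avg_mono h
      _ = 1 := avg_const hx 1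
  · rw [Finset.not_nonempty_iff_eq_empty] at hx
    unfold avg
    rw [hx]
    simp

lemma tendsto_avg {κ : Type*} {l : Filter κ} {f : κ → ℕ → ℝ} {g : ℕ → ℝ}
    (h : ∀ y, Tendsto (fun k => f k y) l (𝓝 (g y))) (x : ℕ) :
    Tendsto (fun k => avg E (f k) x) l (𝓝 (avg E g x)) := by
  unfold avg
  exact (tendsto_finsetSum _ fun y _ => h y).div_const _

/-! ### Recurrence and the Liouville property -/

lemma hit_nonneg (ρ : ℕ) (n x : ℕ) : 0 ≤ hit E ρ n x := by
  induction n generalizing x with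
  | zero => rw [hit]; split_ifs <;> norm_num
  | succ n ih =>
    rw [hit]
    split_ifs
    · norm_num
    · exact avg_nonneg fun y _ => ih y

lemma hit_le_one (ρ : ℕ) (n x : ℕ) : hit E ρ n x ≤ 1 := by
  induction n generalizing x with
  | zero => rw [hit]; split_ifs <;> norm_num
  | succ n ih =>
    rw [hit]
    split_ifs
    · exact le_rfl
    · exact avg_le_one fun y _ => ih y

/-- If the averages at `x` tend to one then so do the values at the neighbours. -/
lemma tendsto_one_of_avg {f : ℕ → ℕ → ℝ} (hf : ∀ n y, f n y ≤ 1) {x : ℕ}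
    (h : Tendsto (fun n => avg E (f n) x) atTop (𝓝 1)) {y : ℕ} (hy : y ∈ nbr E x) :
    Tendsto (fun n => f n y) atTop (𝓝 1) := by
  have hpos : 0 < ((nbr E x).card : ℝ) := by
    have := Finset.card_pos.2 ⟨y, hy⟩
    exact_mod_cast this
  have hlow : ∀ n, (nbr E x).card * avg E (f n) x - ((nbr E x).card - 1) ≤ f n y := by
    intro n
    have h1 : (nbr E x).card * avg E (f n) x = ∑ z ∈ nbr E x, f n z := by
      unfold avg; field_simp
    rw [h1, ← Finset.add_sum_erase _ _ hy]
    have h2 : ∑ z ∈ (nbr E x).erase y, f n z ≤ (nbr E x).card - 1 := by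
      calc ∑ z ∈ (nbr E x).erase y, f n z ≤ ∑ z ∈ (nbr E x).erase y, (1 : ℝ) :=
            Finset.sum_le_sum fun z _ => hf n z
        _ = (nbr E x).card - 1 := by
            rw [Finset.sum_const, Finset.card_erase_of_mem hy, nsmul_eq_mul, mul_one,
              Nat.cast_sub (Finset.card_pos.2 ⟨y, hy⟩), Nat.cast_one]
    linarith
  have hlim : Tendsto (fun n => (nbr E x).card * avg E (f n) x - ((nbr E x).card - 1)) atTop
      (𝓝 1) := by
    have := (h.const_mul ((nbr E x).card : ℝ)).sub_const (((nbr E x).card : ℝ) - 1)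
    simpa using this
  exact tendsto_of_tendsto_of_tendsto_of_le_of_le hlim tendsto_const_nhds hlow fun n => hf n y

variable {ρ : ℕ} (hlf : ∀ x, {y | s(x, y) ∈ E}.Finite)

include hlf

lemma mem_nbr {x y : ℕ} : y ∈ nbr E x ↔ s(x, y) ∈ E := mem_toFin (hlf x)

lemma nbr_nonempty {x y : ℕ} (h : s(x, y) ∈ E) : (nbr E x).Nonempty := ⟨y, (mem_nbr hlf).2 h⟩

/-- Every vertex of a graph with an edge at the root has a neighbour. -/
lemma nbr_nonempty_of_reach (hρ : (nbr E ρ).Nonempty) {x : ℕ} (hx : Reach E ∅ ρ x) :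
    (nbr E x).Nonempty := by
  induction hx with
  | refl => exact hρ
  | tail _ h _ => exact nbr_nonempty hlf (by rw [Sym2.eq_swap]; exact h.1)

/-- On a recurrent graph the root is hit almost surely. -/
lemma tendsto_hit (h : Tendsto (fun n => avg E (hit E ρ n) ρ) atTop (𝓝 1)) {x : ℕ}
    (hx : Reach E ∅ ρ x) : Tendsto (fun n => hit E ρ n x) atTop (𝓝 1) := by
  induction hx with
  | refl =>
    refine tendsto_const_nhds.congr fun n => ?_
    cases n <;> simp [hit]
  | @tail y z _ hyz ih =>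
    have hz : z ∈ nbr E y := (mem_nbr hlf).2 hyz.1
    refine tendsto_one_of_avg (x := y) (hit_le_one ρ) ?_ hz
    by_cases hyρ : y = ρ
    · rw [hyρ]; exact h
    · have h1 := (tendsto_add_atTop_iff_nat 1).2 ih
      refine h1.congr fun n => ?_
      rw [hit, if_neg hyρ]

/-- The Liouville property. -/
def Liouville (E : Set (Sym2 ℕ)) (ρ : ℕ) : Prop :=
  ∀ v : ℕ → ℝ, (∀ x, 0 ≤ v x ∧ v x ≤ 1) → (∀ x, Reach E ∅ ρ x → v x = avg E v x) →
    ∀ x, Reach E ∅ ρ x → v x = v ρ

lemma hit_mul_le {v : ℕ → ℝ} (hv : ∀ x, 0 ≤ v x ∧ v x ≤ 1)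
    (hh : ∀ x, Reach E ∅ ρ x → v x = avg E v x) (n : ℕ) {x : ℕ} (hx : Reach E ∅ ρ x) :
    hit E ρ n x * v ρ ≤ v x := by
  induction n generalizing x with
  | zero =>
    rw [hit]
    split_ifs with h
    · rw [h, one_mul]
    · rw [zero_mul]; exact (hv x).1
  | succ n ih =>
    rw [hit]
    split_ifs with h
    · rw [h, one_mul]
    · rw [hh x hx, ← avg_mul_const]
      refine avg_mono fun y hy => ih ?_
      exact hx.trans (Reach.edge ((mem_nbr hlf).1 hy) (Set.notMem_empty _) (Set.notMem_empty _))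

lemma le_of_recurrent (h : Tendsto (fun n => avg E (hit E ρ n) ρ) atTop (𝓝 1)) {v : ℕ → ℝ}
    (hv : ∀ x, 0 ≤ v x ∧ v x ≤ 1)
    (hh : ∀ x, Reach E ∅ ρ x → v x = avg E v x) {x : ℕ} (hx : Reach E ∅ ρ x) : v ρ ≤ v x := by
  have h1 := (tendsto_hit hlf h hx).mul_const (v ρ)
  rw [one_mul] at h1
  exact le_of_tendsto h1 (Eventually.of_forall fun n => hit_mul_le hlf hv hh n hx)

/-- Recurrent graphs have the Liouville property. -/
theorem liouville_of_recurrent (hrec : Recurrent E ρ) (hρ : (nbr E ρ).Nonempty) :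
    Liouville E ρ := by
  intro v hv hh x hx
  have h : Tendsto (fun n => avg E (hit E ρ n) ρ) atTop (𝓝 1) := by
    rcases hrec with h | h
    · exact absurd h hρ.ne_empty
    · exact h
  refine le_antisymm ?_ (le_of_recurrent hlf h hv hh hx)
  have h2 := le_of_recurrent hlf h (v := fun y => 1 - v y)
    (fun y => ⟨by linarith [(hv y).2], by linarith [(hv y).1]⟩) (fun y hy => ?_) hx
  · linarith
  · rw [avg_sub, avg_const (nbr_nonempty_of_reach hlf hρ hy), ← hh y hy]

/-- Asymptotically harmonic functions are asymptotically constant. -/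
theorem asymp_const (hL : Liouville E ρ) {u : ℕ → ℕ → ℝ} (hu : ∀ N z, 0 ≤ u N z ∧ u N z ≤ 1)
    (hh : ∀ z, Reach E ∅ ρ z → Tendsto (fun N => u N z - avg E (u N) z) atTop (𝓝 0))
    {x y : ℕ} (hx : Reach E ∅ ρ x) (hy : Reach E ∅ ρ y) :
    Tendsto (fun N => u N x - u N y) atTop (𝓝 0) := by
  rw [tendsto_iff_ultrafilter]
  intro g hg
  have hlim : ∀ z, ∃ c : ℝ, (0 ≤ c ∧ c ≤ 1) ∧ Tendsto (fun N => u N z) g (𝓝 c) := by
    intro z
    have h1 : ((g.map fun N => u N z : Ultrafilter ℝ) : Filter ℝ) ≤ 𝓟 (Set.Icc 0 1) := by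
      rw [le_principal_iff]
      have h2 : ∀ᶠ N in (g : Filter ℕ), u N z ∈ Set.Icc (0 : ℝ) 1 :=
        Filter.Eventually.of_forall (fun N => hu N z)
      exact h2
    obtain ⟨c, hc, hc'⟩ := isCompact_Icc.ultrafilter_le_nhds _ h1
    exact ⟨c, hc, hc'⟩
  choose c hc hlim using hlim
  have hharm : ∀ z, Reach E ∅ ρ z → c z = avg E c z := by
    intro z hz
    have h1 : Tendsto (fun N => u N z - avg E (u N) z) g (𝓝 (c z - avg E c z)) :=
      (hlim z).sub (tendsto_avg hlim z)
    have h2 := tendsto_nhds_unique h1 ((hh z hz).mono_left hg)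
    linarith
  have hconst := hL c hc hharm
  have h3 : Tendsto (fun N => u N x - u N y) g (𝓝 (c x - c y)) := (hlim x).sub (hlim y)
  rw [hconst x hx, hconst y hy, sub_self] at h3
  exact h3

omit hlf

lemma pwA_nonneg (A : Set ℕ) (n x : ℕ) : 0 ≤ pwA E A n x := by
  induction n generalizing x with
  | zero => rw [pwA]; split_ifs <;> norm_num
  | succ n ih => rw [pwA]; exact avg_nonneg fun y _ => ih y

lemma pwA_le_one (A : Set ℕ) (n x : ℕ) : pwA E A n x ≤ 1 := by
  induction n generalizing x with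
  | zero => rw [pwA]; split_ifs <;> norm_num
  | succ n ih => rw [pwA]; exact avg_le_one fun y _ => ih y

lemma cesA_nonneg (N : ℕ) (A : Set ℕ) (x : ℕ) : 0 ≤ cesA E N A x :=
  div_nonneg (Finset.sum_nonneg fun n _ => pwA_nonneg A n x) (Nat.cast_nonneg _)

lemma cesA_le_one (N : ℕ) (A : Set ℕ) (x : ℕ) : cesA E N A x ≤ 1 := by
  unfold cesA
  refine div_le_one_of_le₀ ?_ (Nat.cast_nonneg _)
  calc ∑ n ∈ Finset.range N, pwA E A n x ≤ ∑ n ∈ Finset.range N, (1 : ℝ) :=
        Finset.sum_le_sum fun n _ => pwA_le_one A n x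
    _ = N := by simp

lemma ces_nonneg (N x a : ℕ) : 0 ≤ ces E N x a := cesA_nonneg _ _ _

/-- The Cesàro averages are nearly harmonic. -/
lemma cesA_sub_avg (N : ℕ) (A : Set ℕ) (x : ℕ) :
    cesA E N A x - avg E (cesA E N A) x = (pwA E A 0 x - pwA E A N x) / N := by
  have h1 : avg E (cesA E N A) x = (∑ n ∈ Finset.range N, pwA E A (n + 1) x) / N := by
    have : cesA E N A = fun y => (∑ n ∈ Finset.range N, pwA E A n y) * (N : ℝ)⁻¹ := by
      funext y; rw [cesA, div_eq_mul_inv]
    rw [this, avg_mul_const, avg_sum, ← div_eq_mul_inv]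
    rfl
  rw [h1, cesA, ← sub_div, ← Finset.sum_sub_distrib]
  congr 1
  have := Finset.sum_range_sub' (fun n => pwA E A n x) N
  exact this

include hlf

/-- The sets may depend on `N`. -/
theorem tendsto_cesA (hL : Liouville E ρ) (A : ℕ → Set ℕ) {x y : ℕ} (hx : Reach E ∅ ρ x)
    (hy : Reach E ∅ ρ y) :
    Tendsto (fun N => cesA E N (A N) x - cesA E N (A N) y) atTop (𝓝 0) := by
  refine asymp_const hlf hL (u := fun N z => cesA E N (A N) z)
    (fun N z => ⟨cesA_nonneg _ _ _, cesA_le_one _ _ _⟩) ?_ hx hy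
  intro z _
  have h1 : Tendsto (fun N : ℕ => (2 : ℝ) / N) atTop (𝓝 0) := tendsto_const_div_atTop_nhds_zero_nat 2
  refine squeeze_zero_norm (fun N => ?_) h1
  have h2 : cesA E N (A N) z - avg E (fun z => cesA E N (A N) z) z =
    (pwA E (A N) 0 z - pwA E (A N) N z) / N := cesA_sub_avg N (A N) z
  rw [h2, Real.norm_eq_abs, abs_div, abs_of_nonneg (Nat.cast_nonneg (α := ℝ) N)]
  gcongr
  have h3 := pwA_nonneg (E := E) (A N) 0 z
  have h4 := pwA_nonneg (E := E) (A N) N z
  have h5 := pwA_le_one (E := E) (A N) 0 z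
  have h6 := pwA_le_one (E := E) (A N) N z
  rw [abs_le]
  constructor <;> linarith

/-! ### The kernel as a finite sum -/

lemma support_left (n a : ℕ) : {x | pwA E {a} n x ≠ 0}.Finite := by
  induction n with
  | zero =>
    refine (Set.finite_singleton a).subset fun x hx => ?_
    by_contra h
    exact hx (by rw [pwA, if_neg h])
  | succ n ih =>
    refine (Set.Finite.biUnion ih fun z _ => hlf z).subset fun x hx => ?_
    rw [Set.mem_ofPred_eq, pwA] at hx
    by_contra h
    apply hx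
    unfold avg
    rw [Finset.sum_eq_zero, zero_div]
    intro y hy
    by_contra hy'
    apply h
    rw [Set.mem_iUnion₂]
    refine ⟨y, hy', ?_⟩
    have := (mem_nbr hlf).1 hy
    rw [Sym2.eq_swap] at this
    exact this

omit hlf in
lemma support_right (n x : ℕ) : {a | pwA E {a} n x ≠ 0}.Finite := by
  induction n generalizing x with
  | zero =>
    refine (Set.finite_singleton x).subset fun a ha => ?_
    by_contra h
    refine ha ?_
    rw [pwA, if_neg fun h' => h ?_]
    exact (Set.mem_singleton_iff.1 h').symm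
  | succ n ih =>
    refine (Set.Finite.biUnion (nbr E x).finite_toSet fun z _ => ih z).subset fun a ha => ?_
    rw [Set.mem_ofPred_eq, pwA] at ha
    by_contra h
    apply ha
    unfold avg
    rw [Finset.sum_eq_zero, zero_div]
    intro y hy
    by_contra hy'
    apply h
    rw [Set.mem_iUnion₂]
    exact ⟨y, hy, hy'⟩

lemma ces_support_left (N a : ℕ) : {x | ces E N x a ≠ 0}.Finite := by
  refine (Set.Finite.biUnion (Finset.range N).finite_toSet
    fun n _ => support_left hlf n a).subset fun x hx => ?_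
  by_contra h
  apply hx
  rw [Set.mem_iUnion₂] at h
  push Not at h
  unfold ces cesA
  rw [Finset.sum_eq_zero, zero_div]
  intro n hn
  by_contra hne
  exact h n hn hne

omit hlf in
lemma ces_support_right (N x : ℕ) : {a | ces E N x a ≠ 0}.Finite := by
  refine (Set.Finite.biUnion (Finset.range N).finite_toSet
    fun n _ => support_right (E := E) n x).subset fun a ha => ?_
  by_contra h
  apply ha
  rw [Set.mem_iUnion₂] at h
  push Not at h
  unfold ces cesA
  rw [Finset.sum_eq_zero, zero_div]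
  intro n hn
  by_contra hne
  exact h n hn hne

omit hlf in
/-- A large finite set carries the walk. -/
lemma pwA_eq_sum (n x : ℕ) : ∃ T₀ : Finset ℕ, ∀ T, T₀ ⊆ T → ∀ A : Set ℕ,
    pwA E A n x = ∑ a ∈ T.filter (fun a => a ∈ A), pwA E {a} n x := by
  induction n generalizing x with
  | zero =>
    refine ⟨{x}, fun T hT A => ?_⟩
    have hx : x ∈ T := hT (Finset.mem_singleton_self x)
    simp only [pwA, Set.mem_singleton_iff]
    by_cases hA : x ∈ A
    · rw [if_pos hA, Finset.sum_ite_eq, if_pos (Finset.mem_filter.2 ⟨hx, hA⟩)]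
    · rw [if_neg hA, Finset.sum_ite_eq, if_neg fun h => hA (Finset.mem_filter.1 h).2]
  | succ n ih =>
    choose T₀ hT₀ using ih
    refine ⟨(nbr E x).biUnion T₀, fun T hT A => ?_⟩
    have h1 : ∀ y ∈ nbr E x, T₀ y ⊆ T := fun y hy =>
      (Finset.subset_biUnion_of_mem T₀ hy).trans hT
    simp only [pwA]
    rw [avg_congr (g := fun y => ∑ a ∈ T.filter (fun a => a ∈ A), pwA E {a} n y)
      fun y hy => hT₀ y T (h1 y hy) A, avg_sum]

omit hlf in
lemma cesA_eq_sum (N x : ℕ) : ∃ T₀ : Finset ℕ, ∀ T, T₀ ⊆ T → ∀ A : Set ℕ,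
    cesA E N A x = ∑ a ∈ T.filter (fun a => a ∈ A), ces E N x a := by
  have h := fun n => pwA_eq_sum (E := E) n x
  choose T₀ hT₀ using h
  refine ⟨(Finset.range N).biUnion T₀, fun T hT A => ?_⟩
  have h1 : ∀ n ∈ Finset.range N, T₀ n ⊆ T := fun n hn =>
    (Finset.subset_biUnion_of_mem T₀ hn).trans hT
  unfold ces cesA
  rw [← Finset.sum_div, Finset.sum_comm]
  congr 1
  exact Finset.sum_congr rfl fun n hn => hT₀ n T (h1 n hn) A

/-- The total mass is one. -/
lemma pwA_univ (hρ : (nbr E ρ).Nonempty) (n : ℕ) {x : ℕ} (hx : Reach E ∅ ρ x) :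
    pwA E Set.univ n x = 1 := by
  induction n generalizing x with
  | zero => rw [pwA, if_pos (Set.mem_univ _)]
  | succ n ih =>
    rw [pwA, avg_congr (g := fun _ => 1), avg_const (nbr_nonempty_of_reach hlf hρ hx)]
    intro y hy
    exact ih (hx.trans (Reach.edge ((mem_nbr hlf).1 hy) (Set.notMem_empty _)
      (Set.notMem_empty _)))

lemma cesA_univ (hρ : (nbr E ρ).Nonempty) {N : ℕ} (hN : 0 < N) {x : ℕ} (hx : Reach E ∅ ρ x) :
    cesA E N Set.univ x = 1 := by
  unfold cesA
  rw [Finset.sum_congr rfl fun n _ => pwA_univ hlf hρ n hx]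
  have : (N : ℝ) ≠ 0 := by positivity
  simp [this]

end basic

end Pool.Agent.WUSF
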