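import Mathlib
import Pool.Agent.WUSF.Walk
import Pool.Agent.WUSF.Law

/-!
The random root sets: boundaries of threshold clusters of the Cesàro kernel.
-/

open MeasureTheory Filter Topology
open scoped Classical unitInterval ENNReal

namespace Pool.Agent.WUSF

/-- The bad vertices at scale `(N, K)` for the threshold labels `t`. -/
def Bad (E : Set (Sym2 ℕ)) (N : ℕ) (K : ℝ) (t : ℕ → I) : Set ℕ :=
  {x | (∀ a, ¬ (t a : ℝ) < K * ces E N x a) ∨
    ∃ y, s(x, y) ∈ E ∧ ∃ a, ¬ ((t a : ℝ) < K * ces E N x a ↔ (t a : ℝ) < K * ces E N y a)}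

/-- The error bound. -/
noncomputable def err (E : Set (Sym2 ℕ)) (N : ℕ) (K : ℝ) (x : ℕ) : ℝ≥0∞ :=
  ∑ y ∈ nbr E x, ∑' a, (ENNReal.ofReal (K * (ces E N x a - ces E N y a)) +
    ENNReal.ofReal (K * (ces E N y a - ces E N x a)))

section

variable {E : Set (Sym2 ℕ)} (hlf : ∀ x, {y | s(x, y) ∈ E}.Finite)

include hlf

/-- The components of the complement of the bad set are finite. -/
lemma bad_fin {N : ℕ} {K : ℝ} {t : ℕ → I} {x : ℕ} (hx : x ∉ Bad E N K t) :
    {y | Reach E (Bad E N K t) x y}.Finite := by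
  have h1 : ∃ a, (t a : ℝ) < K * ces E N x a := by
    by_contra h
    push Not at h
    exact hx (Or.inl fun a ha => absurd ha (not_lt.2 (h a)))
  obtain ⟨a, ha⟩ := h1
  have key : ∀ y, Reach E (Bad E N K t) x y → (t a : ℝ) < K * ces E N y a := by
    intro y hy
    induction hy with
    | refl => exact ha
    | @tail y z _ h ih =>
      by_contra hcon
      exact h.2.1 (Or.inr ⟨z, h.1, a, fun h' => hcon (h'.1 ih)⟩)
  refine (ces_support_left hlf N a).subset fun y hy => ?_
  intro h0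
  have h2 := key y hy
  rw [h0, mul_zero] at h2
  exact absurd h2 (not_lt.2 (t a).2.1)

end

lemma vol_le_compl {c : ℝ} :
    (volume : Measure I) {s | ¬ (s : ℝ) < c} ≤ ENNReal.ofReal (Real.exp (-c)) := by
  have h1 : (volume : Measure I) {s | ¬ (s : ℝ) < c} ≤ ENNReal.ofReal (1 - c) := by
    rw [unitInterval.volume_apply, ← Real.volume_Icc]
    refine measure_mono ?_
    rintro _ ⟨s, hs, rfl⟩
    exact ⟨not_lt.1 hs, s.2.2⟩
  refine h1.trans (ENNReal.ofReal_le_ofReal ?_)
  have := Real.add_one_le_exp (-c)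
  linarith

lemma vol_diff_le {c d : ℝ} :
    (volume : Measure I) {s | ¬ ((s : ℝ) < c ↔ (s : ℝ) < d)} ≤
      ENNReal.ofReal (c - d) + ENNReal.ofReal (d - c) := by
  rw [unitInterval.volume_apply, ← Real.volume_Ico, ← Real.volume_Ico]
  refine le_trans (measure_mono ?_) (measure_union_le _ _)
  rintro _ ⟨s, hs, rfl⟩
  rw [Set.mem_ofPred_eq] at hs
  by_cases h1 : (s : ℝ) < c
  · by_cases h2 : (s : ℝ) < d
    · exact absurd ⟨fun _ => h2, fun _ => h1⟩ hs
    · exact Or.inl ⟨not_lt.1 h2, h1⟩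
  · by_cases h2 : (s : ℝ) < d
    · exact Or.inr ⟨not_lt.1 h1, h2⟩
    · exact absurd ⟨fun h => absurd h h1, fun h => absurd h h2⟩ hs

lemma mset_lt_const (c : ℝ) : MeasurableSet {s : I | (s : ℝ) < c} :=
  measurableSet_lt measurable_subtype_coe measurable_const

lemma lab_eval_le (a : ℕ) (A : Set I) (hA : MeasurableSet A) :
    lab ℕ {t | t a ∈ A} = volume A := by
  have hp : MeasurePreserving (fun w : ℕ → I => w a) (lab ℕ) volume :=
    measurePreserving_eval_infinitePi _ _
  rw [← hp.measure_preimage hA.nullMeasurableSet]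
  rfl

section

variable {E : Set (Sym2 ℕ)} (hlf : ∀ x, {y | s(x, y) ∈ E}.Finite) {ρ : ℕ}

include hlf

/-- The probability bound. -/
theorem bad_prob (hρ : (nbr E ρ).Nonempty) {N : ℕ} (hN : 0 < N) {K : ℝ} {x : ℕ}
    (hx : Reach E ∅ ρ x) :
    lab ℕ {t | x ∈ Bad E N K t} ≤ ENNReal.ofReal (Real.exp (-K)) + err E N K x := by
  have hsub : {t : ℕ → I | x ∈ Bad E N K t} ⊆
      {t | ∀ a, t a ∈ {s : I | ¬ (s : ℝ) < K * ces E N x a}} ∪
      ⋃ y ∈ nbr E x, ⋃ a, {t | t a ∈ {s : I | ¬ ((s : ℝ) < K * ces E N x a ↔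
        (s : ℝ) < K * ces E N y a)}} := by
    intro t ht
    rcases ht with ht | ⟨y, hy, a, ha⟩
    · exact Or.inl ht
    · refine Or.inr ?_
      simp only [Set.mem_iUnion]
      exact ⟨y, (mem_nbr hlf).2 hy, a, ha⟩
  refine (measure_mono hsub).trans ((measure_union_le _ _).trans (add_le_add ?_ ?_))
  · obtain ⟨T, hT⟩ := cesA_eq_sum (E := E) N x
    have h1 := hT T (Finset.Subset.refl _) Set.univ
    rw [cesA_univ hlf hρ hN hx] at h1
    simp only [Set.mem_univ, Finset.filter_true] at h1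
    have h2 : {t : ℕ → I | ∀ a, t a ∈ {s : I | ¬ (s : ℝ) < K * ces E N x a}} ⊆
        Set.pi (T : Set ℕ) fun a => {s : I | ¬ (s : ℝ) < K * ces E N x a} :=
      fun t ht a _ => ht a
    refine (measure_mono h2).trans ?_
    have hms : ∀ a ∈ T, MeasurableSet {s : I | ¬ (s : ℝ) < K * ces E N x a} :=
      fun a _ => (mset_lt_const _).compl
    rw [lab, Measure.infinitePi_pi _ hms]
    calc ∏ a ∈ T, (volume : Measure I) {s : I | ¬ (s : ℝ) < K * ces E N x a}
        ≤ ∏ a ∈ T, ENNReal.ofReal (Real.exp (-(K * ces E N x a))) :=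
          Finset.prod_le_prod' fun a _ => vol_le_compl
      _ = ENNReal.ofReal (∏ a ∈ T, Real.exp (-(K * ces E N x a))) :=
          (ENNReal.ofReal_prod_of_nonneg fun a _ => (Real.exp_pos _).le).symm
      _ = ENNReal.ofReal (Real.exp (-K)) := by
          rw [← Real.exp_sum, Finset.sum_neg_distrib, ← Finset.mul_sum, ← h1, mul_one]
  · refine (measure_biUnion_finset_le _ _).trans ?_
    unfold err
    refine Finset.sum_le_sum fun y _ => (measure_iUnion_le _).trans ?_
    refine ENNReal.tsum_le_tsum fun a => ?_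
    rw [lab_eval_le a _ (by
      have h3 := mset_lt_const (K * ces E N x a)
      have h4 := mset_lt_const (K * ces E N y a)
      exact (mset_iff h3 h4).compl)]
    refine vol_diff_le.trans ?_
    rw [mul_sub, mul_sub]

omit hlf in
lemma tsum_ofReal_eq (N : ℕ) {K : ℝ} (hK : 0 ≤ K) (x y : ℕ) :
    ∑' a, ENNReal.ofReal (K * (ces E N x a - ces E N y a)) =
      ENNReal.ofReal (K * (cesA E N {a | ces E N y a < ces E N x a} x -
        cesA E N {a | ces E N y a < ces E N x a} y)) := by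
  obtain ⟨T₁, hT₁⟩ := cesA_eq_sum (E := E) N x
  obtain ⟨T₂, hT₂⟩ := cesA_eq_sum (E := E) N y
  set T₃ := (ces_support_right (E := E) N x).toFinset with hT₃
  set T := T₁ ∪ T₂ ∪ T₃ with hT
  set A : Set ℕ := {a | ces E N y a < ces E N x a} with hA
  rw [hT₁ T (by intro a ha; simp [hT, ha]) A, hT₂ T (by intro a ha; simp [hT, ha]) A,
    ← Finset.sum_sub_distrib, Finset.mul_sum, ENNReal.ofReal_sum_of_nonneg]
  · rw [tsum_eq_sum (s := T.filter fun a => a ∈ A)]
    intro a ha
    rw [Finset.mem_filter, not_and_or] at ha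
    rw [ENNReal.ofReal_eq_zero]
    refine mul_nonpos_of_nonneg_of_nonpos hK ?_
    rcases ha with ha | ha
    · have h1 : ces E N x a = 0 := by
        by_contra hne
        apply ha
        rw [hT, Finset.mem_union]
        exact Or.inr ((ces_support_right (E := E) N x).mem_toFinset.2 hne)
      rw [h1, zero_sub]
      linarith [ces_nonneg (E := E) N y a]
    · have h2 : ¬ ces E N y a < ces E N x a := ha
      linarith [not_lt.1 h2]
  · intro a ha
    have h2 : ces E N y a < ces E N x a := (Finset.mem_filter.1 ha).2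
    exact mul_nonneg hK (by linarith)

lemma tendsto_tsum (hL : Liouville E ρ) {K : ℝ} (hK : 0 ≤ K) {x y : ℕ}
    (hx : Reach E ∅ ρ x) (hy : Reach E ∅ ρ y) :
    Tendsto (fun N => ∑' a, ENNReal.ofReal (K * (ces E N x a - ces E N y a))) atTop (𝓝 0) := by
  have h1 := tendsto_cesA hlf hL (fun N => {a | ces E N y a < ces E N x a}) hx hy
  have h2 := (h1.const_mul K)
  rw [mul_zero] at h2
  have h3 := ENNReal.tendsto_ofReal h2
  rw [ENNReal.ofReal_zero] at h3
  exact h3.congr fun N => (tsum_ofReal_eq N hK x y).symm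

/-- The error tends to zero. -/
theorem tendsto_err (hL : Liouville E ρ) {K : ℝ} (hK : 0 ≤ K) {x : ℕ} (hx : Reach E ∅ ρ x) :
    Tendsto (fun N => err E N K x) atTop (𝓝 0) := by
  unfold err
  have : (0 : ℝ≥0∞) = ∑ y ∈ nbr E x, (0 + 0) := by simp
  rw [this]
  refine tendsto_finsetSum _ fun y hy => ?_
  have hy' : Reach E ∅ ρ y :=
    hx.trans (Reach.edge ((mem_nbr hlf).1 hy) (Set.notMem_empty _) (Set.notMem_empty _))
  refine ((tendsto_tsum hlf hL hK hx hy').add (tendsto_tsum hlf hL hK hy' hx)).congr fun N => ?_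
  rw [ENNReal.tsum_add]

end

end Pool.Agent.WUSF
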