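import Mathlib
import Pool.Agent.WUSF.Bad

/-!
The decreasing sequence of root sets; measurability.
-/

open MeasureTheory Filter Topology
open scoped Classical unitInterval ENNReal

namespace Pool.Agent.WUSF

/-- The root sets. -/
def roots (E : Set (Sym2 ℕ)) (N K : ℕ → ℕ) (t : ℕ × ℕ → I) (o : ℕ → I) : ℕ → Set ℕ
  | 0 => Set.univ
  | n + 1 => {x | (∃ i, n ≤ i ∧ x ∈ Bad E (N i) (K i) (fun a => t (a, i))) ∨
      ({y | Reach E ∅ x y}.Finite ∧ ∀ y, Reach E ∅ x y → o x ≤ o y)}

/-- The vertices with a neighbour. -/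
def nonIso (E : Set (Sym2 ℕ)) : Set ℕ := {x | ∃ y, s(x, y) ∈ E}

lemma qenv {E : Set (Sym2 ℕ)} (hlf : ∀ x, {y | s(x, y) ∈ E}.Finite) (hnl : ∀ x, s(x, x) ∉ E)
    (N K : ℕ → ℕ) (t : ℕ × ℕ → I) {o : ℕ → I} (ho : Function.Injective o) :
    QEnv E (roots E N K t o) (nonIso E) o where
  noloop := hnl
  lf := hlf
  B0 := rfl
  anti := by
    refine antitone_nat_of_succ_le fun n => ?_
    cases n with
    | zero => exact fun x _ => Set.mem_univ x
    | succ n =>
      rintro x (⟨i, hi, hx⟩ | hx)
      · exact Or.inl ⟨i, (Nat.le_succ n).trans hi, hx⟩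
      · exact Or.inr hx
  fin := by
    intro n x hx
    cases n with
    | zero => exact absurd (Set.mem_univ x) hx
    | succ n =>
      have h1 : Bad E (N n) (K n) (fun a => t (a, n)) ⊆ roots E N K t o (n + 1) :=
        fun y hy => Or.inl ⟨n, le_rfl, hy⟩
      exact (bad_fin hlf fun h => hx (h1 h)).subset fun y hy => Reach.mono h1 hy
  inj := ho
  inV := fun x y h => ⟨y, h⟩
  out := by
    intro n x _ hx
    cases n with
    | zero => exact absurd (Set.mem_univ x) hx
    | succ n =>
      by_contra hcon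
      push Not at hcon
      have h1 : Bad E (N n) (K n) (fun a => t (a, n)) ⊆ roots E N K t o (n + 1) :=
        fun y hy => Or.inl ⟨n, le_rfl, hy⟩
      have hfin : {y | Reach E (roots E N K t o (n + 1)) x y}.Finite :=
        (bad_fin hlf fun h => hx (h1 h)).subset fun y hy => Reach.mono h1 hy
      have hall : ∀ y, Reach E ∅ x y → Reach E (roots E N K t o (n + 1)) x y := by
        intro y hy
        induction hy with
        | refl => exact Reach.refl _
        | @tail y z _ h ih =>
          by_contra hz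
          exact hcon y z ih hz h.1
      have hfin' : {y | Reach E ∅ x y}.Finite := hfin.subset fun y hy => hall y hy
      obtain ⟨r, hr, hmin⟩ := hfin'.toFinset.exists_min_image o
        ⟨x, hfin'.mem_toFinset.2 (Reach.refl x)⟩
      have hr' : Reach E ∅ x r := hfin'.mem_toFinset.1 hr
      have hrB : r ∈ roots E N K t o (n + 1) := by
        refine Or.inr ⟨?_, ?_⟩
        · rw [← hr'.set_eq]; exact hfin'
        · intro y hy
          exact hmin y (hfin'.mem_toFinset.2 (hr'.trans hy))
      exact (hall r hr').notMem hx hrB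

/-! ### Measurability -/

section Random

variable {Ω : Type*} [MeasurableSpace Ω] {E : Ω → Set (Sym2 ℕ)} (hE : MS E)

lemma MF.bind_meas {κ β : Type*} [Countable κ] [MeasurableSpace β] {g : Ω → κ} (hg : MF g)
    {f : κ → Ω → β} (hf : ∀ k, Measurable (f k)) : Measurable (fun ω => f (g ω) ω) := by
  intro s hs
  exact hg.bind (P := fun k ω => f k ω ∈ s) fun k => hf k hs

include hE

lemma mf_nbr (x : ℕ) : MF (fun ω => nbr (E ω) x) :=
  MS.toFin (s := fun ω => {y | s(x, y) ∈ E ω}) fun _ => hE _

lemma meas_avg {g : Ω → ℕ → ℝ} (hg : ∀ y, Measurable fun ω => g ω y) (x : ℕ) :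
    Measurable fun ω => avg (E ω) (g ω) x :=
  (mf_nbr hE x).bind_meas (f := fun (F : Finset ℕ) ω => (∑ y ∈ F, g ω y) / F.card) fun F =>
    (Finset.measurable_fun_sum F fun y _ => hg y).div_const _

lemma meas_pwA (A : Set ℕ) (n x : ℕ) : Measurable fun ω => pwA (E ω) A n x := by
  induction n generalizing x with
  | zero => exact measurable_const
  | succ n ih => exact meas_avg hE (g := fun ω => pwA (E ω) A n) ih x

lemma meas_cesA (N : ℕ) (A : Set ℕ) (x : ℕ) : Measurable fun ω => cesA (E ω) N A x := by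
  unfold cesA
  exact (Finset.measurable_fun_sum _ fun n _ => meas_pwA hE A n x).div_const _

lemma meas_ces (N x a : ℕ) : Measurable fun ω => ces (E ω) N x a := meas_cesA hE N {a} x

lemma meas_err (N : ℕ) (K : ℝ) (x : ℕ) : Measurable fun ω => err (E ω) N K x := by
  refine (mf_nbr hE x).bind_meas (f := fun (F : Finset ℕ) ω => ∑ y ∈ F, ∑' a,
    (ENNReal.ofReal (K * (ces (E ω) N x a - ces (E ω) N y a)) +
      ENNReal.ofReal (K * (ces (E ω) N y a - ces (E ω) N x a)))) fun F => ?_
  refine Finset.measurable_fun_sum F fun y _ => Measurable.tsum fun a => ?_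
  have h1 := meas_ces hE N x a
  have h2 := meas_ces hE N y a
  exact ((h1.sub h2).const_mul K).ennreal_ofReal.add ((h2.sub h1).const_mul K).ennreal_ofReal

lemma ms_bad (N : ℕ) (K : ℝ) {t : Ω → ℕ → I} (ht : ∀ a, Measurable fun ω => t ω a) :
    MS fun ω => Bad (E ω) N K (t ω) := by
  intro x
  have h1 : ∀ x a, MeasurableSet {ω | (t ω a : ℝ) < K * ces (E ω) N x a} := fun x a =>
    measurableSet_lt (measurable_subtype_coe.comp (ht a)) ((meas_ces hE N x a).const_mul K)
  refine mset_or (mset_forall fun a => mset_not (h1 x a)) (mset_exists fun y => ?_)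
  exact mset_and (hE _) (mset_exists fun a => mset_not (mset_iff (h1 x a) (h1 y a)))

lemma mset_finite {s : Ω → Set ℕ} (hs : MS s) : MeasurableSet {ω | (s ω).Finite} := by
  have : {ω | (s ω).Finite} = {ω | ∃ F : Finset ℕ, ∀ b, b ∉ F → b ∉ s ω} := by
    ext ω
    simp only [Set.mem_ofPred_eq]
    constructor
    · intro hfin
      exact ⟨hfin.toFinset, fun b hb hb' => hb (hfin.mem_toFinset.2 hb')⟩
    · rintro ⟨F, hF⟩
      exact F.finite_toSet.subset fun b hb => by
        by_contra hb'; exact hF b hb' hb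
  rw [this]
  exact mset_exists fun F => mset_forall fun b => mset_imp (mset_not (hs b))

lemma ms_roots (N K : ℕ → ℕ) {t : Ω → ℕ × ℕ → I} (ht : ∀ p, Measurable fun ω => t ω p)
    {o : Ω → ℕ → I} (ho : ∀ v, Measurable fun ω => o ω v) (n : ℕ) :
    MS fun ω => roots (E ω) N K (t ω) (o ω) n := by
  intro x
  cases n with
  | zero => exact MeasurableSet.univ
  | succ n =>
    have hr : ∀ y, MeasurableSet {ω | Reach (E ω) ∅ x y} := fun y =>
      MS.reach hE (B := fun _ => ∅) (fun _ => MeasurableSet.const _) x y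
    refine mset_or (mset_exists fun i => mset_and (MeasurableSet.const _) ?_)
      (mset_and (mset_finite hE hr) (mset_forall fun y => ?_))
    · exact ms_bad hE (N i) (K i) (t := fun ω a => t ω (a, i)) (fun a => ht (a, i)) x
    · have h2 : {ω | Reach (E ω) ∅ x y → o ω x ≤ o ω y} =
          {ω | ¬ Reach (E ω) ∅ x y ∨ o ω x ≤ o ω y} := by
        ext ω
        simp only [Set.mem_ofPred_eq]
        tauto
      rw [h2]
      exact mset_or (mset_not (hr y)) (measurableSet_le (ho x) (ho y))

end Random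

end Pool.Agent.WUSF
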