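import Mathlib
import Pool.Agent.WUSF.Roots

/-!
Equivariance of the construction under relabelling of the vertices.
-/

open MeasureTheory Filter Topology
open scoped Classical unitInterval ENNReal

namespace Pool.Agent.WUSF

/-- The relabelled graph. -/
def act (π : Equiv.Perm ℕ) (E : Set (Sym2 ℕ)) : Set (Sym2 ℕ) := Sym2.map π '' E

lemma toFin_image {α β : Type*} [DecidableEq β] {f : α → β} (hf : Function.Injective f)
    (s : Set α) :
    toFin (f '' s) = (toFin s).image f := by
  by_cases h : s.Finite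
  · ext b
    rw [mem_toFin (h.image f), Finset.mem_image]
    constructor
    · rintro ⟨a, ha, rfl⟩; exact ⟨a, (mem_toFin h).2 ha, rfl⟩
    · rintro ⟨a, ha, rfl⟩; exact ⟨a, (mem_toFin h).1 ha, rfl⟩
  · have h' : ¬ (f '' s).Finite := fun h' => h (h'.of_finite_image hf.injOn)
    rw [toFin, toFin, dif_neg h, dif_neg h', Finset.image_empty]

section

variable (π : Equiv.Perm ℕ) {E : Set (Sym2 ℕ)}

lemma map_inj : Function.Injective (Sym2.map π : Sym2 ℕ → Sym2 ℕ) := Sym2.map.injective π.injective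

lemma mem_act_map {e : Sym2 ℕ} : Sym2.map π e ∈ act π E ↔ e ∈ E :=
  (map_inj π).mem_set_image

lemma mem_act_mk {x y : ℕ} : s(π x, π y) ∈ act π E ↔ s(x, y) ∈ E := mem_act_map π (e := s(x, y))

lemma mem_act_mk' {x y : ℕ} : s(x, y) ∈ act π E ↔ s(π.symm x, π.symm y) ∈ E := by
  have := mem_act_mk π (E := E) (x := π.symm x) (y := π.symm y)
  simpa using this

lemma mem_image_perm {B : Set ℕ} {x : ℕ} : π x ∈ π '' B ↔ x ∈ B := π.injective.mem_set_image

lemma reach_act {B : Set ℕ} {x y : ℕ} (h : Reach E B x y) :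
    Reach (act π E) (π '' B) (π x) (π y) := by
  induction h with
  | refl => exact Reach.refl _
  | tail _ h ih =>
    exact ih.trans (Reach.edge ((mem_act_mk π).2 h.1) (fun h' => h.2.1 ((mem_image_perm π).1 h'))
      (fun h' => h.2.2 ((mem_image_perm π).1 h')))

lemma act_symm (E : Set (Sym2 ℕ)) : act π.symm (act π E) = E := by
  unfold act
  rw [Set.image_image]
  have : (fun e : Sym2 ℕ => Sym2.map π.symm (Sym2.map π e)) = id := by
    funext e
    rw [Sym2.map_map]
    have : (π.symm ∘ π : ℕ → ℕ) = id := by funext x; simp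
    rw [this, Sym2.map_id]
  rw [this, Set.image_id]

lemma image_symm_image (B : Set ℕ) : π.symm '' (π '' B) = B := by
  rw [Set.image_image]; simp

lemma reach_act_iff {B : Set ℕ} {x y : ℕ} :
    Reach (act π E) (π '' B) (π x) (π y) ↔ Reach E B x y := by
  refine ⟨fun h => ?_, reach_act π⟩
  have h1 := reach_act π.symm h
  rw [act_symm, image_symm_image] at h1
  simpa using h1

lemma reach_act_iff' {x y : ℕ} : Reach (act π E) ∅ (π x) (π y) ↔ Reach E ∅ x y := by
  have := reach_act_iff π (E := E) (B := ∅) (x := x) (y := y)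
  rwa [Set.image_empty] at this

lemma reach_set (B : Set ℕ) (x : ℕ) :
    {y | Reach (act π E) (π '' B) (π x) y} = π '' {y | Reach E B x y} := by
  ext y
  obtain ⟨z, rfl⟩ := π.surjective y
  rw [mem_image_perm]
  exact reach_act_iff π

lemma reach_set' (x : ℕ) :
    {y | Reach (act π E) ∅ (π x) y} = π '' {y | Reach E ∅ x y} := by
  have := reach_set π (E := E) ∅ x
  rwa [Set.image_empty] at this

lemma comp_act (B : Set ℕ) (x : ℕ) :
    comp (act π E) (π '' B) (π x) = (comp E B x).image π := by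
  unfold comp
  rw [reach_set, toFin_image π.injective]

lemma tE_act (Λ : Finset ℕ) : tE (act π E) (Λ.image π) = (tE E Λ).image (Sym2.map π) := by
  unfold tE
  rw [← toFin_image (map_inj π)]
  congr 1
  ext e
  constructor
  · rintro ⟨⟨e', he', rfl⟩, x, hx, hxe⟩
    obtain ⟨x', hx', rfl⟩ := Finset.mem_image.1 hx
    refine ⟨e', ⟨he', x', hx', ?_⟩, rfl⟩
    obtain ⟨z, hz, hz'⟩ := Sym2.mem_map.1 hxe
    rwa [← π.injective hz']
  · rintro ⟨e', ⟨he', x, hx, hxe⟩, rfl⟩
    exact ⟨⟨e', he', rfl⟩, π x, Finset.mem_image_of_mem _ hx, Sym2.mem_map.2 ⟨x, hxe, rfl⟩⟩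

lemma RL_act (R : Set (Sym2 ℕ)) (Λ : Finset ℕ) :
    RL (act π R) (Λ.image π) = (RL R Λ).image (Sym2.map π) := tE_act π Λ

lemma vs_act (Λ : Finset ℕ) (F : Finset (Sym2 ℕ)) :
    vs (Λ.image π) (F.image (Sym2.map π)) = (vs Λ F).image π := by
  ext x
  obtain ⟨z, rfl⟩ := π.surjective x
  rw [mem_vs, π.injective.mem_finset_image, π.injective.mem_finset_image, mem_vs]
  refine or_congr Iff.rfl ?_
  constructor
  · rintro ⟨e, he, hze⟩
    obtain ⟨e', he', rfl⟩ := Finset.mem_image.1 he
    obtain ⟨z', hz', h⟩ := Sym2.mem_map.1 hze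
    exact ⟨e', he', by rwa [← π.injective h]⟩
  · rintro ⟨e, he, hze⟩
    exact ⟨_, Finset.mem_image_of_mem _ he, Sym2.mem_map.2 ⟨z, hze, rfl⟩⟩

lemma rk_act (o : ℕ → I) (X : Finset ℕ) : rk (o ∘ π.symm) (X.image π) = rk o X ∘ π.symm := by
  funext v
  unfold rk
  have : (X.image π).filter (fun u => (o ∘ π.symm) u < (o ∘ π.symm) v) =
      (X.filter fun u => o u < o (π.symm v)).image π := by
    ext u
    obtain ⟨z, rfl⟩ := π.surjective u
    simp [π.injective.mem_finset_image]
  rw [this, Finset.card_image_of_injective _ π.injective]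
  rfl

lemma upd_act (B : Set ℕ) (o : ℕ → I) (R : Finset (Sym2 ℕ)) (Λ : Finset ℕ) (u : I) :
    upd (act π E) (π '' B) (o ∘ π.symm) (R.image (Sym2.map π)) (Λ.image π) u =
      (upd E B o R Λ u).image (Sym2.map π) := by
  unfold upd
  have h1 : (Λ.image π).filter (fun y => y ∉ π '' B) = (Λ.filter fun y => y ∉ B).image π := by
    ext u
    obtain ⟨z, rfl⟩ := π.surjective u
    rw [Finset.mem_filter, π.injective.mem_finset_image, π.injective.mem_finset_image,
      Finset.mem_filter, mem_image_perm]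
  rw [tE_act, vs_act, rk_act, h1, rkern_equivariant]

lemma stepSet_act (B B' : Set ℕ) (o w : ℕ → I) (R : Set (Sym2 ℕ)) :
    stepSet (act π E) (π '' B) (π '' B') (o ∘ π.symm) (w ∘ π.symm) (act π R) =
      act π (stepSet E B B' o w R) := by
  ext e
  obtain ⟨e, rfl⟩ : ∃ e', e = Sym2.map π e' := ⟨Sym2.map π.symm e, by
    rw [Sym2.map_map]
    have : (π ∘ π.symm : ℕ → ℕ) = id := by funext x; simp
    rw [this, Sym2.map_id]; rfl⟩
  rw [mem_act_map]
  have hmem : ∀ x, π x ∈ Sym2.map π e ↔ x ∈ e := by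
    intro x
    rw [Sym2.mem_map]
    constructor
    · rintro ⟨z, hz, h⟩; rwa [← π.injective h]
    · intro h; exact ⟨x, h, rfl⟩
  have hmin : ∀ (x v : ℕ), (∀ v' ∈ (comp E B' x).image π, o v ≤ o (π.symm v')) ↔
      ∀ v' ∈ comp E B' x, o v ≤ o v' := by
    intro x v
    constructor
    · intro h v' hv'
      have := h (π v') (Finset.mem_image_of_mem _ hv')
      simpa using this
    · intro h v' hv'
      obtain ⟨z, hz, rfl⟩ := Finset.mem_image.1 hv'
      simpa using h z hz
  constructor
  · rintro ⟨x, v, hxe, hxB, hv, hm, he⟩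
    obtain ⟨x, rfl⟩ := π.surjective x
    obtain ⟨v, rfl⟩ := π.surjective v
    rw [comp_act] at hv hm he
    rw [RL_act, upd_act, (map_inj π).mem_finset_image] at he
    rw [π.injective.mem_finset_image] at hv
    refine ⟨x, v, (hmem x).1 hxe, fun h => hxB ((mem_image_perm π).2 h), hv, ?_, ?_⟩
    · refine (hmin x v).1 fun v' hv' => ?_
      have := hm v' hv'
      simpa using this
    · simpa using he
  · rintro ⟨x, v, hxe, hxB, hv, hm, he⟩
    refine ⟨π x, π v, (hmem x).2 hxe, fun h => hxB ((mem_image_perm π).1 h), ?_, ?_, ?_⟩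
    · rw [comp_act, π.injective.mem_finset_image]; exact hv
    · rw [comp_act]
      intro v' hv'
      have := (hmin x v).2 hm v' hv'
      simpa using this
    · rw [comp_act, RL_act, upd_act, (map_inj π).mem_finset_image]
      simpa using he

lemma forest_act (B : ℕ → Set ℕ) (o : ℕ → I) (w : ℕ × ℕ → I) (n : ℕ) :
    forest (act π E) (fun k => π '' B k) (o ∘ π.symm) (fun p => w (π.symm p.1, p.2)) n =
      act π (forest E B o w n) := by
  induction n with
  | zero => simp [forest, act]
  | succ n ih =>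
    simp only [forest]
    rw [ih]
    exact stepSet_act π (B n) (B (n + 1)) o (fun v => w (v, n)) (forest E B o w n)

/-! ### The walk -/

lemma nbr_act (x : ℕ) : nbr (act π E) (π x) = (nbr E x).image π := by
  unfold nbr
  rw [← toFin_image π.injective]
  congr 1
  ext y
  obtain ⟨z, rfl⟩ := π.surjective y
  rw [mem_image_perm]
  exact mem_act_mk π

lemma avg_act (f : ℕ → ℝ) (x : ℕ) : avg (act π E) f (π x) = avg E (f ∘ π) x := by
  unfold avg
  rw [nbr_act, Finset.sum_image (fun _ _ _ _ h => π.injective h),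
    Finset.card_image_of_injective _ π.injective]
  rfl

lemma pwA_act (A : Set ℕ) (n x : ℕ) : pwA (act π E) (π '' A) n (π x) = pwA E A n x := by
  induction n generalizing x with
  | zero => simp only [pwA, mem_image_perm]
  | succ n ih =>
    rw [pwA, pwA, avg_act]
    exact avg_congr fun y _ => ih y

lemma ces_act (N x a : ℕ) : ces (act π E) N (π x) (π a) = ces E N x a := by
  unfold ces cesA
  congr 1
  refine Finset.sum_congr rfl fun n _ => ?_
  rw [← pwA_act π {a} n x, Set.image_singleton]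

lemma bad_act (N : ℕ) (K : ℝ) (t : ℕ → I) :
    Bad (act π E) N K (t ∘ π.symm) = π '' Bad E N K t := by
  ext x
  obtain ⟨x, rfl⟩ := π.surjective x
  rw [mem_image_perm]
  have h1 : ∀ (x a : ℕ), (((t ∘ π.symm) (π a) : I) : ℝ) < K * ces (act π E) N (π x) (π a) ↔
      (t a : ℝ) < K * ces E N x a := by
    intro x a
    rw [ces_act]; simp
  constructor
  · rintro (h | ⟨y, hy, a, h⟩)
    · exact Or.inl fun a ha => h (π a) ((h1 x a).2 ha)
    · obtain ⟨y, rfl⟩ := π.surjective y
      obtain ⟨a, rfl⟩ := π.surjective a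
      refine Or.inr ⟨y, (mem_act_mk π).1 hy, a, ?_⟩
      rwa [h1, h1] at h
  · rintro (h | ⟨y, hy, a, h⟩)
    · refine Or.inl fun a ha => ?_
      obtain ⟨a, rfl⟩ := π.surjective a
      exact h a ((h1 x a).1 ha)
    · refine Or.inr ⟨π y, (mem_act_mk π).2 hy, π a, ?_⟩
      rwa [h1, h1]

lemma roots_act (N K : ℕ → ℕ) (t : ℕ × ℕ → I) (o : ℕ → I) (n : ℕ) :
    roots (act π E) N K (fun p => t (π.symm p.1, p.2)) (o ∘ π.symm) n =
      π '' roots E N K t o n := by
  cases n with
  | zero => simp [roots]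
  | succ n =>
    ext x
    obtain ⟨x, rfl⟩ := π.surjective x
    rw [mem_image_perm]
    have h1 : ∀ i, π x ∈ Bad (act π E) (N i) (K i) (fun a => t (π.symm a, i)) ↔
        x ∈ Bad E (N i) (K i) (fun a => t (a, i)) := by
      intro i
      have := bad_act π (E := E) (N i) (K i) (fun a => t (a, i))
      rw [← mem_image_perm π (x := x), ← this]
      rfl
    have h2 : {y | Reach (act π E) ∅ (π x) y}.Finite ↔ {y | Reach E ∅ x y}.Finite := by
      rw [reach_set']
      exact Set.finite_image_iff π.injective.injOn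
    have h3 : (∀ y, Reach (act π E) ∅ (π x) y → (o ∘ π.symm) (π x) ≤ (o ∘ π.symm) y) ↔
        ∀ y, Reach E ∅ x y → o x ≤ o y := by
      constructor
      · intro h y hy
        have := h (π y) ((reach_act_iff' π).2 hy)
        simpa using this
      · intro h y hy
        obtain ⟨y, rfl⟩ := π.surjective y
        have := h y ((reach_act_iff' π).1 hy)
        simpa using this
    simp only [roots, Set.mem_ofPred_eq]
    exact or_congr (exists_congr fun i => and_congr Iff.rfl (h1 i)) (and_congr h2 h3)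

lemma err_act (N : ℕ) (K : ℝ) (x : ℕ) : err (act π E) N K (π x) = err E N K x := by
  unfold err
  rw [nbr_act, Finset.sum_image (fun _ _ _ _ h => π.injective h)]
  refine Finset.sum_congr rfl fun y _ => ?_
  rw [← π.tsum_eq]
  refine tsum_congr fun a => ?_
  rw [ces_act, ces_act]

end

end Pool.Agent.WUSF
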