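import Mathlib
import Pool.Agent.WUSF.Law

/-!
Splitting one uniform label per vertex into many independent uniform labels.
-/

open MeasureTheory ProbabilityTheory Filter Topology
open scoped Classical unitInterval ENNReal

namespace Pool.Agent.WUSF

lemma lab_comp_inj {ι κ : Type*} {g : κ → ι} (hg : Function.Injective g) :
    (lab ι).map (fun (z : ι → I) (k : κ) => z (g k)) = lab κ := by
  refine Measure.eq_infinitePi _ fun s t ht => ?_
  have hm : Measurable fun (z : ι → I) (k : κ) => z (g k) :=
    measurable_pi_lambda _ fun k => measurable_pi_apply _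
  rw [Measure.map_apply hm (MeasurableSet.pi s.countable_toSet fun i _ => ht i)]
  by_cases hne : Nonempty κ
  · have hpre : (fun (z : ι → I) (k : κ) => z (g k)) ⁻¹' Set.pi (s : Set κ) t =
        Set.pi ((s.image g : Finset ι) : Set ι) (fun i => t (Function.invFun g i)) := by
      ext z
      simp only [Set.mem_preimage, Set.mem_pi, Finset.mem_coe, Finset.mem_image]
      constructor
      · rintro h _ ⟨k, hk, rfl⟩
        rw [Function.leftInverse_invFun hg k]
        exact h k hk
      · intro h k hk
        have := h (g k) ⟨k, hk, rfl⟩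
        rwa [Function.leftInverse_invFun hg k] at this
    rw [hpre, lab, Measure.infinitePi_pi _ fun i _ => ht _,
      Finset.prod_image fun _ _ _ _ h => hg h]
    refine Finset.prod_congr rfl fun k _ => ?_
    rw [Function.leftInverse_invFun hg k]
  · have hs : s = ∅ := by
      ext k; exact absurd ⟨k⟩ hne
    subst hs
    simp

lemma lab_sum {κ κ' : Type*} :
    ((lab κ).prod (lab κ')).map (fun p : (κ → I) × (κ' → I) => (Sum.elim p.1 p.2 : κ ⊕ κ' → I)) =
      lab (κ ⊕ κ') := by
  refine Measure.eq_infinitePi _ fun s t ht => ?_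
  have hm : Measurable fun p : (κ → I) × (κ' → I) => (Sum.elim p.1 p.2 : κ ⊕ κ' → I) := by
    refine measurable_pi_lambda _ fun k => ?_
    cases k with
    | inl k => exact (measurable_pi_apply k).comp measurable_fst
    | inr k => exact (measurable_pi_apply k).comp measurable_snd
  rw [Measure.map_apply hm (MeasurableSet.pi s.countable_toSet fun i _ => ht i)]
  have hpre : (fun p : (κ → I) × (κ' → I) => (Sum.elim p.1 p.2 : κ ⊕ κ' → I)) ⁻¹'
      Set.pi (s : Set (κ ⊕ κ')) t =
      (Set.pi (s.toLeft : Set κ) fun k => t (Sum.inl k)) ×ˢ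
        (Set.pi (s.toRight : Set κ') fun k => t (Sum.inr k)) := by
    ext p
    simp only [Set.mem_preimage, Set.mem_pi, Finset.mem_coe, Set.mem_prod, Finset.mem_toLeft,
      Finset.mem_toRight, Sum.forall, Sum.elim_inl, Sum.elim_inr]
  rw [hpre, Measure.prod_prod, lab, lab, Measure.infinitePi_pi _ fun i _ => ht _,
    Measure.infinitePi_pi _ fun i _ => ht _]
  conv_rhs => rw [← Finset.toLeft_disjSum_toRight (u := s), Finset.prod_disjSum]

/-- Labels indexed by disjoint sets are independent. -/
lemma lab_pair {ι κ κ' : Type*} {g : κ → ι} {g' : κ' → ι}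
    (hg : Function.Injective (Sum.elim g g')) :
    (lab ι).map (fun z : ι → I => ((fun k => z (g k) : κ → I), (fun k => z (g' k) : κ' → I))) =
      (lab κ).prod (lab κ') := by
  have h1 := lab_comp_inj hg
  have hm1 : Measurable fun (z : ι → I) (k : κ ⊕ κ') => z (Sum.elim g g' k) :=
    measurable_pi_lambda _ fun k => measurable_pi_apply _
  have hm2 : Measurable fun y : κ ⊕ κ' → I => ((fun k => y (Sum.inl k) : κ → I),
      (fun k => y (Sum.inr k) : κ' → I)) :=
    (measurable_pi_lambda _ fun k => measurable_pi_apply _).prodMk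
      (measurable_pi_lambda _ fun k => measurable_pi_apply _)
  have hm3 : Measurable fun p : (κ → I) × (κ' → I) => (Sum.elim p.1 p.2 : κ ⊕ κ' → I) := by
    refine measurable_pi_lambda _ fun k => ?_
    cases k with
    | inl k => exact (measurable_pi_apply k).comp measurable_fst
    | inr k => exact (measurable_pi_apply k).comp measurable_snd
  have e1 : (fun z : ι → I => ((fun k => z (g k) : κ → I), (fun k => z (g' k) : κ' → I))) =
      (fun y : κ ⊕ κ' → I => ((fun k => y (Sum.inl k) : κ → I),
        (fun k => y (Sum.inr k) : κ' → I))) ∘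
      (fun (z : ι → I) (k : κ ⊕ κ') => z (Sum.elim g g' k)) := rfl
  rw [e1, ← Measure.map_map hm2 hm1, h1, ← lab_sum, Measure.map_map hm2 hm3]
  have e2 : ((fun y : κ ⊕ κ' → I => ((fun k => y (Sum.inl k) : κ → I),
        (fun k => y (Sum.inr k) : κ' → I))) ∘
      (fun p : (κ → I) × (κ' → I) => (Sum.elim p.1 p.2 : κ ⊕ κ' → I))) = id := by
    funext p; rfl
  rw [e2, Measure.map_id]

lemma exists_split : ∃ f : I → (ℕ ⊕ ℕ → I), Measurable f ∧
    (volume : Measure I).map f = lab (ℕ ⊕ ℕ) := by
  obtain ⟨f, hf, h⟩ := Measure.exists_measurable_map_eq (lab (ℕ ⊕ ℕ))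
  exact ⟨f, hf, h⟩

/-- The splitting function. -/
noncomputable def spl : I → (ℕ ⊕ ℕ → I) := exists_split.choose

lemma measurable_spl : Measurable spl := exists_split.choose_spec.1

lemma map_spl : (volume : Measure I).map spl = lab (ℕ ⊕ ℕ) := exists_split.choose_spec.2

/-- Auxiliary labels. -/
noncomputable def zlab (u : ℕ → I) (p : ℕ × ℕ) : I := spl (u p.1) (Sum.inl p.2)

/-- Kernel labels. -/
noncomputable def wlab (u : ℕ → I) (p : ℕ × ℕ) : I := spl (u p.1) (Sum.inr p.2)

lemma measurable_spl_apply (j : ℕ ⊕ ℕ) : Measurable fun s => spl s j :=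
  (measurable_pi_apply j).comp measurable_spl

lemma measurable_zlab (p : ℕ × ℕ) : Measurable fun u => zlab u p :=
  (measurable_spl_apply _).comp (measurable_pi_apply _)

lemma measurable_wlab (p : ℕ × ℕ) : Measurable fun u => wlab u p :=
  (measurable_spl_apply _).comp (measurable_pi_apply _)

lemma map_raw : (lab ℕ).map (fun (u : ℕ → I) (p : ℕ × (ℕ ⊕ ℕ)) => spl (u p.1) p.2) =
    lab (ℕ × (ℕ ⊕ ℕ)) := by
  have h1 : (lab ℕ).map (fun (u : ℕ → I) (i : ℕ) => spl (u i)) =
      Measure.infinitePi fun _ : ℕ => lab (ℕ ⊕ ℕ) := by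
    have := Measure.infinitePi_map_pi (μ := fun _ : ℕ => (volume : Measure I))
      (Y := fun _ => ℕ ⊕ ℕ → I) (f := fun _ => spl) (fun _ => measurable_spl)
    rw [lab, this]
    congr 1
    funext i
    exact map_spl
  have h2 := Measure.infinitePi_map_curry_symm
    (fun (_ : ℕ) (_ : ℕ ⊕ ℕ) => (volume : Measure I))
  have h3 : (fun (u : ℕ → I) (p : ℕ × (ℕ ⊕ ℕ)) => spl (u p.1) p.2) =
      (MeasurableEquiv.curry ℕ (ℕ ⊕ ℕ) I).symm ∘ (fun (u : ℕ → I) (i : ℕ) => spl (u i)) := rfl
  have hm : Measurable (fun (u : ℕ → I) (i : ℕ) => spl (u i)) :=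
    measurable_pi_lambda _ fun i => measurable_spl.comp (measurable_pi_apply i)
  rw [h3, ← Measure.map_map (MeasurableEquiv.measurable _) hm, h1]
  exact h2

/-- The joint law of the labels. -/
theorem map_labels : (lab ℕ).map (fun u => (zlab u, wlab u)) =
    (lab (ℕ × ℕ)).prod (lab (ℕ × ℕ)) := by
  have hinj : Function.Injective (Sum.elim
      (fun p : ℕ × ℕ => ((p.1, Sum.inl p.2) : ℕ × (ℕ ⊕ ℕ)))
      (fun p : ℕ × ℕ => ((p.1, Sum.inr p.2) : ℕ × (ℕ ⊕ ℕ)))) := by
    rintro (⟨a, b⟩ | ⟨a, b⟩) (⟨c, d⟩ | ⟨c, d⟩) h <;> simp_all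
  have h1 := lab_pair hinj
  rw [← map_raw, Measure.map_map] at h1
  · exact h1
  · exact (measurable_pi_lambda _ fun k => measurable_pi_apply _).prodMk
      (measurable_pi_lambda _ fun k => measurable_pi_apply _)
  · exact measurable_pi_lambda _ fun p =>
      (measurable_spl_apply _).comp (measurable_pi_apply _)

lemma measurable_labels : Measurable fun u => (zlab u, wlab u) :=
  (measurable_pi_lambda _ measurable_zlab).prodMk (measurable_pi_lambda _ measurable_wlab)

/-- Distinct labels are almost surely different. -/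
lemma lab_ne {ι : Type*} {i j : ι} (hij : i ≠ j) : lab ι {z | z i = z j} = 0 := by
  have hinj : Function.Injective (Sum.elim (fun _ : Unit => i) (fun _ : Unit => j)) := by
    rintro (⟨⟩ | ⟨⟩) (⟨⟩ | ⟨⟩) h
    · rfl
    · exact absurd h hij
    · exact absurd h.symm hij
    · rfl
  have h1 := lab_pair hinj
  have hms : MeasurableSet {p : (Unit → I) × (Unit → I) | p.1 () = p.2 ()} :=
    measurableSet_eq_fun ((measurable_pi_apply ()).comp measurable_fst)
      ((measurable_pi_apply ()).comp measurable_snd)
  have h2 : ((lab Unit).prod (lab Unit)) {p : (Unit → I) × (Unit → I) | p.1 () = p.2 ()} = 0 := by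
    rw [Measure.measure_prod_null hms]
    refine Eventually.of_forall fun a => ?_
    have hp : MeasurePreserving (fun w : Unit → I => w ()) (lab Unit) volume :=
      measurePreserving_eval_infinitePi _ _
    have h3 : (Prod.mk a ⁻¹' {p : (Unit → I) × (Unit → I) | p.1 () = p.2 ()}) =
        (fun w : Unit → I => w ()) ⁻¹' {a ()} := by
      ext b
      simp only [Set.mem_preimage, Set.mem_ofPred_eq, Set.mem_singleton_iff]
      exact eq_comm
    show lab Unit (Prod.mk a ⁻¹' {p : (Unit → I) × (Unit → I) | p.1 () = p.2 ()}) = 0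
    rw [h3, hp.measure_preimage (measurableSet_singleton _).nullMeasurableSet]
    exact measure_singleton _
  rw [← h1, Measure.map_apply _ hms] at h2
  · exact h2
  · exact (measurable_pi_lambda _ fun k => measurable_pi_apply _).prodMk
      (measurable_pi_lambda _ fun k => measurable_pi_apply _)

lemma ae_injective {ι κ : Type*} [Countable κ] {g : κ → ι} (hg : Function.Injective g) :
    ∀ᵐ z ∂(lab ι), Function.Injective fun k => z (g k) := by
  have h1 : ∀ p : κ × κ, ∀ᵐ z ∂(lab ι), p.1 ≠ p.2 → z (g p.1) ≠ z (g p.2) := by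
    intro p
    by_cases hp : p.1 = p.2
    · exact Eventually.of_forall fun z h => absurd hp h
    · rw [ae_iff]
      refine measure_mono_null ?_ (lab_ne fun h => hp (hg h))
      intro z hz
      rw [Set.mem_ofPred_eq] at hz
      push Not at hz
      exact hz.2
  rw [← ae_all_iff] at h1
  filter_upwards [h1] with z hz k k' hkk
  by_contra hne
  exact hz (k, k') hne hkk

end Pool.Agent.WUSF
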