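import Mathlib
import Pool.Agent.WUSF.Roots

/-!
The construction only uses the labels of the vertices that have a neighbour.
-/

open MeasureTheory Filter Topology
open scoped Classical unitInterval ENNReal

namespace Pool.Agent.WUSF

variable {E : Set (Sym2 ℕ)}

lemma nonIso_left {x y : ℕ} (h : s(x, y) ∈ E) : x ∈ nonIso E := ⟨y, h⟩

lemma nonIso_right {x y : ℕ} (h : s(x, y) ∈ E) : y ∈ nonIso E := ⟨x, by rwa [Sym2.eq_swap]⟩

lemma nonIso_of_mem {e : Sym2 ℕ} (he : e ∈ E) {x : ℕ} (hx : x ∈ e) : x ∈ nonIso E := by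
  obtain ⟨y, rfl⟩ := Sym2.mem_iff_exists.1 hx
  exact nonIso_left he

lemma reach_nonIso {B : Set ℕ} {x y : ℕ} (hx : x ∈ nonIso E) (h : Reach E B x y) :
    y ∈ nonIso E := by
  induction h with
  | refl => exact hx
  | tail _ h _ => exact nonIso_right h.1

lemma reach_local {B B' : Set ℕ} (hB : ∀ v ∈ nonIso E, v ∈ B ↔ v ∈ B') {x y : ℕ}
    (h : Reach E B x y) : Reach E B' x y := by
  induction h with
  | refl => exact Reach.refl _
  | tail _ h ih =>
    exact ih.trans (Reach.edge h.1 (fun h' => h.2.1 ((hB _ (nonIso_left h.1)).2 h'))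
      (fun h' => h.2.2 ((hB _ (nonIso_right h.1)).2 h')))

lemma comp_local {B B' : Set ℕ} (hB : ∀ v ∈ nonIso E, v ∈ B ↔ v ∈ B') (x : ℕ) :
    comp E B x = comp E B' x := by
  unfold comp
  congr 1
  ext y
  exact ⟨reach_local hB, reach_local fun v hv => (hB v hv).symm⟩

lemma comp_nonIso {B : Set ℕ} {x y : ℕ} (hx : x ∈ nonIso E) (hy : y ∈ comp E B x) :
    y ∈ nonIso E := by
  have : Reach E B x y := mem_of_mem_toFin (s := {y | Reach E B x y}) hy
  exact reach_nonIso hx this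

lemma mem_of_mem_tE {Λ : Finset ℕ} {e : Sym2 ℕ} (he : e ∈ tE E Λ) : e ∈ E :=
  (mem_of_mem_toFin (s := {e | e ∈ E ∧ ∃ x ∈ Λ, x ∈ e}) he).1

lemma mem_of_mem_RL {R : Set (Sym2 ℕ)} {Λ : Finset ℕ} {e : Sym2 ℕ} (he : e ∈ RL R Λ) : e ∈ R :=
  (mem_of_mem_toFin (s := {e | e ∈ R ∧ ∃ x ∈ Λ, x ∈ e}) he).1

lemma vs_nonIso {Λ : Finset ℕ} (hΛ : ∀ x ∈ Λ, x ∈ nonIso E) {x : ℕ} (hx : x ∈ vs Λ (tE E Λ)) :
    x ∈ nonIso E := by
  rcases mem_vs.1 hx with h | ⟨e, he, h⟩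
  · exact hΛ x h
  · exact nonIso_of_mem (mem_of_mem_tE he) h

lemma rk_local {o o' : ℕ → I} (ho : ∀ v ∈ nonIso E, o v = o' v) {X : Finset ℕ}
    (hX : ∀ x ∈ X, x ∈ nonIso E) {v : ℕ} (hv : v ∈ nonIso E) : rk o X v = rk o' X v := by
  unfold rk
  congr 1
  refine Finset.filter_congr fun u hu => ?_
  rw [ho u (hX u hu), ho v hv]

lemma rkern_local {f f' : ℕ → ℕ} {Λ₁ Λ₂ : Finset ℕ} {F R : Finset (Sym2 ℕ)} {V : Set ℕ}
    (hf : ∀ v ∈ V, f v = f' v) (h1 : ∀ x ∈ Λ₁, x ∈ V) (h2 : ∀ x ∈ Λ₂, x ∈ V)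
    (hF : ∀ e ∈ F, ∀ x ∈ e, x ∈ V) (hR : ∀ e ∈ R, ∀ x ∈ e, x ∈ V) (u : I) :
    rkern f Λ₁ Λ₂ F R u = rkern f' Λ₁ Λ₂ F R u := by
  have e1 : Λ₁.image f = Λ₁.image f' := Finset.image_congr fun x hx => hf x (h1 x hx)
  have e2 : Λ₂.image f = Λ₂.image f' := Finset.image_congr fun x hx => hf x (h2 x hx)
  have e3 : F.image (Sym2.map f) = F.image (Sym2.map f') :=
    Finset.image_congr fun e he => Sym2.map_congr fun x hx => hf x (hF e he x hx)
  have e4 : R.image (Sym2.map f) = R.image (Sym2.map f') :=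
    Finset.image_congr fun e he => Sym2.map_congr fun x hx => hf x (hR e he x hx)
  unfold rkern
  rw [e1, e2, e3, e4]
  refine Finset.filter_congr fun e he => ?_
  rw [Sym2.map_congr fun x hx => hf x (hF e he x hx)]

lemma upd_local {B B' : Set ℕ} (hB : ∀ v ∈ nonIso E, v ∈ B ↔ v ∈ B') {o o' : ℕ → I}
    (ho : ∀ v ∈ nonIso E, o v = o' v) {R : Finset (Sym2 ℕ)} (hR : ∀ e ∈ R, e ∈ E)
    {Λ : Finset ℕ} (hΛ : ∀ x ∈ Λ, x ∈ nonIso E) (u : I) :
    upd E B o R Λ u = upd E B' o' R Λ u := by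
  unfold upd
  have h1 : (Λ.filter fun y => y ∉ B) = Λ.filter fun y => y ∉ B' :=
    Finset.filter_congr fun y hy => not_congr (hB y (hΛ y hy))
  rw [h1]
  refine rkern_local (V := nonIso E) (fun v hv => rk_local ho (fun x hx => vs_nonIso hΛ hx) hv)
    hΛ (fun x hx => hΛ x (Finset.mem_filter.1 hx).1)
    (fun e he x hx => nonIso_of_mem (mem_of_mem_tE he) hx)
    (fun e he x hx => nonIso_of_mem (hR e he) hx) u

lemma stepSet_local {B B₁ B' B₁' : Set ℕ} (hB : ∀ v ∈ nonIso E, v ∈ B ↔ v ∈ B₁)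
    (hB' : ∀ v ∈ nonIso E, v ∈ B' ↔ v ∈ B₁') {o o' : ℕ → I} (ho : ∀ v ∈ nonIso E, o v = o' v)
    {w w' : ℕ → I} (hw : ∀ v ∈ nonIso E, w v = w' v) {R : Set (Sym2 ℕ)} (hR : ∀ e ∈ R, e ∈ E) :
    stepSet E B B' o w R ⊆ stepSet E B₁ B₁' o' w' R := by
  rintro e ⟨x, v, hxe, hxB, hv, hmin, he⟩
  have heE : e ∈ E := mem_of_mem_tE (Finset.mem_filter.1 he).1
  have hx : x ∈ nonIso E := nonIso_of_mem heE hxe
  have hc := comp_local hB' x
  have hv' := comp_nonIso hx hv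
  have hΛ : ∀ y ∈ comp E B' x, y ∈ nonIso E := fun y hy => comp_nonIso hx hy
  refine ⟨x, v, hxe, fun h => hxB ((hB' x hx).2 h), hc ▸ hv, ?_, ?_⟩
  · intro v' hv''
    rw [← hc] at hv''
    rw [← ho v hv', ← ho v' (hΛ v' hv'')]
    exact hmin v' hv''
  · rw [← hc, ← hw v hv', ← upd_local hB ho (fun e he => hR e (mem_of_mem_RL he)) hΛ]
    exact he

lemma forest_agree {B B' : ℕ → Set ℕ} (hB : ∀ n, ∀ v ∈ nonIso E, v ∈ B n ↔ v ∈ B' n)
    {o o' : ℕ → I} (ho : ∀ v ∈ nonIso E, o v = o' v) {w w' : ℕ × ℕ → I}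
    (hw : ∀ v ∈ nonIso E, ∀ n, w (v, n) = w' (v, n)) (n : ℕ) :
    forest E B o w n = forest E B' o' w' n := by
  induction n with
  | zero => rfl
  | succ n ih =>
    simp only [forest]
    rw [← ih]
    refine Set.Subset.antisymm ?_ ?_
    · exact stepSet_local (hB n) (hB (n + 1)) ho (fun v hv => hw v hv n)
        fun e he => (forest_sub he).1
    · exact stepSet_local (fun v hv => (hB n v hv).symm) (fun v hv => (hB (n + 1) v hv).symm)
        (fun v hv => (ho v hv).symm) (fun v hv => (hw v hv n).symm) fun e he => (forest_sub he).1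

/-! ### The root sets -/

lemma pwA_zero {a : ℕ} (ha : a ∉ nonIso E) (n : ℕ) {x : ℕ} (hx : x ∈ nonIso E) :
    pwA E {a} n x = 0 := by
  induction n generalizing x with
  | zero =>
    rw [pwA, if_neg]
    intro h
    rw [Set.mem_singleton_iff] at h
    exact ha (h ▸ hx)
  | succ n ih =>
    rw [pwA]
    unfold avg
    rw [Finset.sum_eq_zero, zero_div]
    intro y hy
    have : s(x, y) ∈ E := mem_of_mem_toFin (s := {y | s(x, y) ∈ E}) hy
    exact ih (nonIso_right this)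

lemma ces_zero {a : ℕ} (ha : a ∉ nonIso E) (N : ℕ) {x : ℕ} (hx : x ∈ nonIso E) :
    ces E N x a = 0 := by
  unfold ces cesA
  rw [Finset.sum_eq_zero, zero_div]
  intro n _
  exact pwA_zero ha n hx

lemma bad_local {N : ℕ} {K : ℝ} {t t' : ℕ → I} (ht : ∀ v ∈ nonIso E, t v = t' v) {x : ℕ}
    (hx : x ∈ nonIso E) : x ∈ Bad E N K t ↔ x ∈ Bad E N K t' := by
  have h1 : ∀ x ∈ nonIso E, ∀ a, ((t a : ℝ) < K * ces E N x a ↔ (t' a : ℝ) < K * ces E N x a) := by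
    intro x hx a
    by_cases ha : a ∈ nonIso E
    · rw [ht a ha]
    · rw [ces_zero ha N hx, mul_zero]
      exact ⟨fun h => absurd h (not_lt.2 (t a).2.1), fun h => absurd h (not_lt.2 (t' a).2.1)⟩
  unfold Bad
  simp only [Set.mem_ofPred_eq]
  refine or_congr (forall_congr' fun a => not_congr (h1 x hx a)) ?_
  refine exists_congr fun y => and_congr_right fun hy => exists_congr fun a => not_congr ?_
  rw [h1 x hx a, h1 y (nonIso_right hy) a]

lemma roots_local {N K : ℕ → ℕ} {t t' : ℕ × ℕ → I} {o o' : ℕ → I}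
    (ht : ∀ v ∈ nonIso E, ∀ n, t (v, n) = t' (v, n)) (ho : ∀ v ∈ nonIso E, o v = o' v) (n : ℕ) :
    ∀ v ∈ nonIso E, v ∈ roots E N K t o n ↔ v ∈ roots E N K t' o' n := by
  intro v hv
  cases n with
  | zero => exact Iff.rfl
  | succ n =>
    simp only [roots, Set.mem_ofPred_eq]
    refine or_congr (exists_congr fun i => and_congr Iff.rfl ?_) (and_congr Iff.rfl ?_)
    · exact bad_local (fun u hu => ht u hu i) hv
    · refine forall_congr' fun y => forall_congr' fun hy => ?_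
      rw [ho v hv, ho y (reach_nonIso hv hy)]

end Pool.Agent.WUSF
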