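import Mathlib
import Pool.Agent.WUSF.Roots
import Pool.Agent.WUSF.Local

/-!
Limits of wired spanning tree probabilities along exhaustions.
-/

open MeasureTheory Filter Topology
open scoped Classical unitInterval ENNReal

namespace Pool.Agent.WUSF

variable {E : Set (Sym2 ℕ)} {ρ : ℕ}

lemma mem_verts {x : ℕ} : x ∈ verts E ρ ↔ Reach E ∅ ρ x := by
  unfold verts Reach
  simp only [Set.mem_ofPred_eq, Set.mem_empty_iff_false, not_false_eq_true, and_true]

lemma root_mem : ρ ∈ verts E ρ := mem_verts.2 (Reach.refl _)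

lemma verts_eq : verts E ρ = {x | Reach E ∅ ρ x} := by
  ext x; exact mem_verts

lemma mem_tE' (hlf : ∀ x, {y | s(x, y) ∈ E}.Finite) {Λ : Finset ℕ} {e : Sym2 ℕ} :
    e ∈ tE E Λ ↔ e ∈ E ∧ ∃ x ∈ Λ, x ∈ e := mem_toFin (tE_finite hlf Λ)

lemma WT_tE' (hlf : ∀ x, {y | s(x, y) ∈ E}.Finite) {C Λ : Finset ℕ} (hC : C ⊆ Λ) :
    WT C (tE E Λ) = WT C (tE E C) := by
  ext S
  constructor
  · intro hS
    have hS' := hS
    rw [mem_WT] at hS' ⊢
    refine ⟨?_, hS'.2⟩
    intro e he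
    have h1 := hS'.1 he
    rw [mem_tE' hlf] at h1
    rw [mem_tE' hlf]
    refine ⟨h1.1, ?_⟩
    induction e using Sym2.ind with
    | _ u v =>
      rcases touch_of_mem_WT hS he with h2 | h2
      · exact ⟨u, h2, Sym2.mem_mk_left u v⟩
      · exact ⟨v, h2, Sym2.mem_mk_right u v⟩
  · intro hS
    refine WT_mono ?_ hS
    intro e he
    rw [mem_tE' hlf] at he ⊢
    obtain ⟨h1, x, hx, hxe⟩ := he
    exact ⟨h1, x, hC hx, hxe⟩

/-- Agreement of the edge sets `S` and `R` on `W`. -/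
def Agree (W R : Finset (Sym2 ℕ)) (S : Finset (Sym2 ℕ)) : Prop := ∀ e ∈ W, (e ∈ S ↔ e ∈ R)

section

variable (hG : IsRootedGraph E ρ)

include hG

lemma edge_verts {x y : ℕ} (h : s(x, y) ∈ E) : x ∈ verts E ρ ∧ y ∈ verts E ρ :=
  ⟨hG.connected x y h, hG.connected y x (by rwa [Sym2.eq_swap])⟩

/-- Wired trees in the two formulations. -/
lemma wiredTree_iff {Λ : Finset ℕ} (hΛV : (Λ : Set ℕ) ⊆ verts E ρ)
    (hV : ¬ verts E ρ ⊆ (Λ : Set ℕ)) {S : Finset (Sym2 ℕ)} :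
    WiredTree E (verts E ρ) Λ S ↔ S ∈ WT Λ (tE E Λ) := by
  obtain ⟨o', ho'V, ho'⟩ := Set.not_subset.1 hV
  have ho'' : o' ∉ Λ := ho'
  rw [WiredTree, if_neg hV, mem_WT]
  constructor
  · rintro ⟨h1, h2, h3⟩
    refine ⟨fun e he => (mem_tE' hG.locallyFinite).2 (h1 e he), ?_, by omega⟩
    have key : ∀ u v, Relation.EqvGen (fun a b => s(a, b) ∈ S ∨
        (a ∈ verts E ρ \ (Λ : Set ℕ) ∧ b ∈ verts E ρ \ (Λ : Set ℕ))) u v →
        WConn Λ (S : Set (Sym2 ℕ)) u v := by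
      intro u v h
      induction h with
      | rel u v h' =>
        rcases h' with h' | h'
        · exact WConn.edge h'
        · exact WConn.out h'.1.2 h'.2.2
      | refl u => exact WConn.refl u
      | symm u v _ ih => exact ih.symm
      | trans u v w _ _ ih1 ih2 => exact ih1.trans ih2
    have key2 : ∀ u, WConn Λ (S : Set (Sym2 ℕ)) u o' := by
      intro u
      by_cases hu : u ∈ verts E ρ
      · exact key u o' (h2 u hu o' ho'V)
      · exact WConn.out (fun h => hu (hΛV h)) ho''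
    intro u v
    exact (key2 u).trans (key2 v).symm
  · rintro ⟨h1, h2, h3⟩
    refine ⟨fun e he => (mem_tE' hG.locallyFinite).1 (h1 he), ?_, by omega⟩
    set R : ℕ → ℕ → Prop := Relation.EqvGen (fun a b => s(a, b) ∈ S ∨
      (a ∈ verts E ρ \ (Λ : Set ℕ) ∧ b ∈ verts E ρ \ (Λ : Set ℕ))) with hR
    have key : ∀ u ∈ verts E ρ, R u o' := by
      intro u hu
      have h4 := WConn.fun_iff (p := fun w => w ∈ verts E ρ → R w o') ?_ ?_ (h2 u o')
      · exact h4.2 (fun _ => Relation.EqvGen.refl _) hu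
      · intro x y hxy
        have hxy' : s(x, y) ∈ S := hxy
        have hE : s(x, y) ∈ E := ((mem_tE' hG.locallyFinite).1 (h1 hxy')).1
        have hV' := edge_verts hG hE
        have h5 : R x y := Relation.EqvGen.rel _ _ (Or.inl hxy')
        exact ⟨fun h _ => (h5.symm).trans _ _ _ (h hV'.1),
          fun h _ => h5.trans _ _ _ (h hV'.2)⟩
      · intro x y hx hy
        have hgen : ∀ w, w ∉ Λ → w ∈ verts E ρ → R w o' := fun w hw hwV =>
          Relation.EqvGen.rel _ _ (Or.inr ⟨⟨hwV, hw⟩, ⟨ho'V, ho'⟩⟩)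
        exact ⟨fun _ => hgen y hy, fun _ => hgen x hx⟩
    intro u hu v hv
    exact (key u hu).trans _ _ _ (key v hv).symm

lemma WT_ne {Λ : Finset ℕ} (hΛV : (Λ : Set ℕ) ⊆ verts E ρ)
    (hV : ¬ verts E ρ ⊆ (Λ : Set ℕ)) : (WT Λ (tE E Λ)).Nonempty := by
  obtain ⟨o', ho'V, ho'⟩ := Set.not_subset.1 hV
  have ho'' : o' ∉ Λ := ho'
  have key : ∀ x, Reach E ∅ ρ x → WConn Λ (tE E Λ : Set (Sym2 ℕ)) ρ x := by
    intro x hx
    induction hx with
    | refl => exact WConn.refl _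
    | @tail a b _ h ih =>
      refine ih.trans ?_
      by_cases ha : a ∈ Λ
      · exact WConn.edge ((mem_tE' hG.locallyFinite).2 ⟨h.1, a, ha, Sym2.mem_mk_left a b⟩)
      · by_cases hb : b ∈ Λ
        · exact WConn.edge ((mem_tE' hG.locallyFinite).2 ⟨h.1, b, hb, Sym2.mem_mk_right a b⟩)
        · exact WConn.out ha hb
  have key2 : ∀ u, WConn Λ (tE E Λ : Set (Sym2 ℕ)) u o' := by
    intro u
    by_cases hu : u ∈ verts E ρ
    · exact (key u (mem_verts.1 hu)).symm.trans (key o' (mem_verts.1 ho'V))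
    · exact WConn.out (fun h => hu (hΛV h)) ho''
  exact WT_nonempty fun u v => (key2 u).trans (key2 v).symm

lemma wiredProb_eq {Λ : Finset ℕ} (hΛV : (Λ : Set ℕ) ⊆ verts E ρ)
    (hV : ¬ verts E ρ ⊆ (Λ : Set ℕ)) (W R : Finset (Sym2 ℕ)) :
    wiredProb E (verts E ρ) Λ W R =
      (((WT Λ (tE E Λ)).filter (Agree W R)).card : ℝ) / ((WT Λ (tE E Λ)).card : ℝ) := by
  unfold wiredProb
  have h1 : {S : Finset (Sym2 ℕ) | WiredTree E (verts E ρ) Λ S ∧ ∀ e ∈ W, (e ∈ S ↔ e ∈ R)} =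
      (((WT Λ (tE E Λ)).filter (Agree W R) : Finset (Finset (Sym2 ℕ))) :
        Set (Finset (Sym2 ℕ))) := by
    ext S
    simp only [Set.mem_ofPred_eq, Finset.coe_filter, wiredTree_iff hG hΛV hV, Agree]
  have h2 : {S : Finset (Sym2 ℕ) | WiredTree E (verts E ρ) Λ S} =
      ((WT Λ (tE E Λ) : Finset (Finset (Sym2 ℕ))) : Set (Finset (Sym2 ℕ))) := by
    ext S
    simp only [Set.mem_ofPred_eq, Finset.mem_coe, wiredTree_iff hG hΛV hV]
  rw [h1, h2, Set.ncard_coe_finset, Set.ncard_coe_finset]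

/-- Monotonicity of the wired probabilities of increasing events. -/
lemma wiredProb_mono {Λ₁ Λ₂ : Finset ℕ} (hΛ : Λ₂ ⊆ Λ₁) (hΛV : (Λ₁ : Set ℕ) ⊆ verts E ρ)
    (hV : ¬ verts E ρ ⊆ (Λ₁ : Set ℕ)) {W R : Finset (Sym2 ℕ)} (hWR : W ⊆ R) :
    wiredProb E (verts E ρ) Λ₂ W R ≤ wiredProb E (verts E ρ) Λ₁ W R := by
  have hΛV' : (Λ₂ : Set ℕ) ⊆ verts E ρ := (Finset.coe_subset.2 hΛ).trans hΛV
  have hV' : ¬ verts E ρ ⊆ (Λ₂ : Set ℕ) := fun h => hV (h.trans (Finset.coe_subset.2 hΛ))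
  rw [wiredProb_eq hG hΛV hV, wiredProb_eq hG hΛV' hV']
  have n1 := WT_ne hG hΛV hV
  have n2 := WT_ne hG hΛV' hV'
  have e2 := WT_tE' hG.locallyFinite hΛ
  have key := wired_mono hΛ n1 (by rw [e2]; exact n2) (Agree W R)
    (fun S S' hSS' hA e he => ⟨fun _ => hWR he, fun _ => hSS' ((hA e he).2 (hWR he))⟩)
  rw [e2] at key
  have p1 : (0 : ℝ) < (WT Λ₁ (tE E Λ₁)).card := by exact_mod_cast Finset.card_pos.2 n1
  have p2 : (0 : ℝ) < (WT Λ₂ (tE E Λ₂)).card := by exact_mod_cast Finset.card_pos.2 n2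
  rw [div_le_div_iff₀ p2 p1]
  exact_mod_cast key

omit hG in
lemma wiredProb_nonneg (V : Set ℕ) (Λ : Finset ℕ) (W R : Finset (Sym2 ℕ)) :
    0 ≤ wiredProb E V Λ W R := div_nonneg (Nat.cast_nonneg _) (Nat.cast_nonneg _)

lemma wiredProb_le_one {Λ : Finset ℕ} (hΛV : (Λ : Set ℕ) ⊆ verts E ρ)
    (hV : ¬ verts E ρ ⊆ (Λ : Set ℕ)) (W R : Finset (Sym2 ℕ)) :
    wiredProb E (verts E ρ) Λ W R ≤ 1 := by
  rw [wiredProb_eq hG hΛV hV]
  refine div_le_one_of_le₀ ?_ (Nat.cast_nonneg _)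
  exact_mod_cast Finset.card_filter_le _ _

/-- Splitting an event. -/
lemma wiredProb_split {Λ : Finset ℕ} (hΛV : (Λ : Set ℕ) ⊆ verts E ρ)
    (hV : ¬ verts E ρ ⊆ (Λ : Set ℕ)) {W R : Finset (Sym2 ℕ)} {e : Sym2 ℕ} (he : e ∈ W)
    (heR : e ∉ R) :
    wiredProb E (verts E ρ) Λ W R = wiredProb E (verts E ρ) Λ (W.erase e) R -
      wiredProb E (verts E ρ) Λ W (insert e R) := by
  rw [wiredProb_eq hG hΛV hV, wiredProb_eq hG hΛV hV, wiredProb_eq hG hΛV hV, ← sub_div,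
    eq_comm]
  congr 1
  rw [sub_eq_iff_eq_add]
  norm_cast
  rw [← Finset.card_union_of_disjoint]
  · congr 1
    ext S
    simp only [Finset.mem_union, Finset.mem_filter, Finset.mem_erase, Finset.mem_insert, Agree]
    constructor
    · rintro ⟨hS, h⟩
      by_cases heS : e ∈ S
      · refine Or.inr ⟨hS, fun e' he' => ?_⟩
        by_cases hee : e' = e
        · subst hee; exact ⟨fun _ => Or.inl rfl, fun _ => heS⟩
        · rw [h e' ⟨hee, he'⟩]
          exact ⟨Or.inr, fun h' => h'.resolve_left hee⟩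
      · refine Or.inl ⟨hS, fun e' he' => ?_⟩
        by_cases hee : e' = e
        · subst hee; exact ⟨fun h' => absurd h' heS, fun h' => absurd h' heR⟩
        · exact h e' ⟨hee, he'⟩
    · rintro (⟨hS, h⟩ | ⟨hS, h⟩)
      · exact ⟨hS, fun e' he' => h e' he'.2⟩
      · refine ⟨hS, fun e' he' => ?_⟩
        rw [h e' he'.2]
        exact ⟨fun h' => h'.resolve_left he'.1, Or.inr⟩
  · rw [Finset.disjoint_left]
    intro S h1 h2
    simp only [Finset.mem_filter, Agree] at h1 h2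
    have h3 := h1.2 e he
    have h4 := h2.2 e he
    exact heR (h3.1 (h4.2 (Finset.mem_insert_self _ _)))

omit hG in
lemma exhaust_sub {V : Set ℕ} {Λ : ℕ → Finset ℕ} (hU : (⋃ n, (Λ n : Set ℕ)) = V) (n : ℕ) :
    (Λ n : Set ℕ) ⊆ V := by
  rw [← hU]; exact Set.subset_iUnion (fun n => (Λ n : Set ℕ)) n

omit hG in
lemma exhaust_cofinal {V : Set ℕ} {Λ : ℕ → Finset ℕ} (hmono : Monotone Λ)
    (hU : (⋃ n, (Λ n : Set ℕ)) = V) {X : Finset ℕ} (hX : (X : Set ℕ) ⊆ V) : ∃ n, X ⊆ Λ n := by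
  have h1 : ∀ x ∈ X, ∃ n, x ∈ Λ n := by
    intro x hx
    have : x ∈ ⋃ n, (Λ n : Set ℕ) := by rw [hU]; exact hX hx
    obtain ⟨n, hn⟩ := Set.mem_iUnion.1 this
    exact ⟨n, hn⟩
  choose! f hf using h1
  refine ⟨X.sup f, fun x hx => ?_⟩
  exact hmono (Finset.le_sup (f := f) hx) (hf x hx)

/-- The limits exist and do not depend on the exhaustion. -/
theorem exists_limit (hinf : (verts E ρ).Infinite) (W R : Finset (Sym2 ℕ)) :
    ∃ ℓ : ℝ, ∀ Λ : ℕ → Finset ℕ, Monotone Λ → (⋃ n, (Λ n : Set ℕ)) = verts E ρ →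
      Tendsto (fun n => wiredProb E (verts E ρ) (Λ n) W R) atTop (𝓝 ℓ) := by
  have hnV : ∀ Λ : Finset ℕ, ¬ verts E ρ ⊆ (Λ : Set ℕ) := fun Λ h =>
    hinf (Λ.finite_toSet.subset h)
  induction hk : (W \ R).card generalizing W R with
  | zero =>
    have hWR : W ⊆ R := by
      rw [Finset.card_eq_zero, Finset.sdiff_eq_empty_iff_subset] at hk
      exact hk
    set 𝒮 : Set ℝ := {r | ∃ Λ : Finset ℕ, (Λ : Set ℕ) ⊆ verts E ρ ∧
      wiredProb E (verts E ρ) Λ W R = r} with h𝒮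
    have hne : 𝒮.Nonempty := ⟨_, ∅, by simp, rfl⟩
    have hbdd : BddAbove 𝒮 := by
      refine ⟨1, ?_⟩
      rintro _ ⟨Λ, hΛ, rfl⟩
      exact wiredProb_le_one hG hΛ (hnV Λ) W R
    have hlub := isLUB_csSup hne hbdd
    refine ⟨sSup 𝒮, fun Λ hmono hU => ?_⟩
    refine tendsto_atTop_isLUB ?_ ⟨?_, ?_⟩
    · intro m n hmn
      exact wiredProb_mono hG (hmono hmn) (exhaust_sub hU n) (hnV _) hWR
    · rintro _ ⟨n, rfl⟩
      exact hlub.1 ⟨Λ n, exhaust_sub hU n, rfl⟩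
    · intro b hb
      refine hlub.2 ?_
      rintro _ ⟨X, hX, rfl⟩
      obtain ⟨n, hn⟩ := exhaust_cofinal hmono hU hX
      exact (wiredProb_mono hG hn (exhaust_sub hU n) (hnV _) hWR).trans (hb ⟨n, rfl⟩)
  | succ k ih =>
    obtain ⟨e, he⟩ : (W \ R).Nonempty := Finset.card_pos.1 (by omega)
    have he' := Finset.mem_sdiff.1 he
    have c1 : ((W.erase e) \ R).card = k := by
      have : (W.erase e) \ R = (W \ R).erase e := by
        ext x; simp only [Finset.mem_sdiff, Finset.mem_erase]; tauto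
      rw [this, Finset.card_erase_of_mem he]; omega
    have c2 : (W \ (insert e R)).card = k := by
      have : W \ (insert e R) = (W \ R).erase e := by
        ext x; simp only [Finset.mem_sdiff, Finset.mem_erase, Finset.mem_insert]; tauto
      rw [this, Finset.card_erase_of_mem he]; omega
    obtain ⟨ℓ₁, h1⟩ := ih (W.erase e) R c1
    obtain ⟨ℓ₂, h2⟩ := ih W (insert e R) c2
    refine ⟨ℓ₁ - ℓ₂, fun Λ hmono hU => ?_⟩
    refine ((h1 Λ hmono hU).sub (h2 Λ hmono hU)).congr fun n => ?_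
    exact (wiredProb_split hG (exhaust_sub hU n) (hnV _) he'.1 he'.2).symm

/-! ### Finite graphs -/

/-- On a finite graph the wired trees are spanning trees. -/
lemma wiredTree_finite {V : Finset ℕ} (hV : (V : Set ℕ) = verts E ρ) {r : ℕ} (hr : r ∈ V)
    {S : Finset (Sym2 ℕ)} :
    WiredTree E (verts E ρ) V S ↔ S ∈ WT (V.erase r) (tE E (V.erase r)) := by
  have hF : ∀ u v, s(u, v) ∈ tE E (V.erase r) → u ∈ V ∧ v ∈ V := by
    intro u v h
    have h1 := edge_verts hG ((mem_tE' hG.locallyFinite).1 h).1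
    rw [← hV] at h1
    exact h1
  rw [mem_WT_erase_iff hr hF, WiredTree, if_pos hV.symm.subset]
  have hrel : (fun a b => s(a, b) ∈ S ∨
      (a ∈ verts E ρ \ (V : Set ℕ) ∧ b ∈ verts E ρ \ (V : Set ℕ))) =
      fun a b => s(a, b) ∈ S := by
    funext a b
    rw [hV, Set.sdiff_self]
    simp
  have hsub : (∀ e ∈ S, e ∈ E ∧ ∃ x ∈ V, x ∈ e) ↔ S ⊆ tE E (V.erase r) := by
    constructor
    · intro h e he
      rw [mem_tE' hG.locallyFinite]
      obtain ⟨h1, x, hx, hxe⟩ := h e he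
      refine ⟨h1, ?_⟩
      by_cases hxr : x = r
      · subst hxr
        obtain ⟨y, rfl⟩ := Sym2.mem_iff_exists.1 hxe
        have hyx : y ≠ x := by
          rintro rfl
          exact hG.noloop _ h1
        have hyV : y ∈ V := by
          have := (edge_verts hG h1).2
          rw [← hV] at this
          exact this
        exact ⟨y, Finset.mem_erase.2 ⟨hyx, hyV⟩, Sym2.mem_mk_right x y⟩
      · exact ⟨x, Finset.mem_erase.2 ⟨hxr, hx⟩, hxe⟩
    · intro h e he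
      have h1 := (mem_tE' hG.locallyFinite).1 (h he)
      obtain ⟨h2, x, hx, hxe⟩ := h1
      exact ⟨h2, x, Finset.mem_of_mem_erase hx, hxe⟩
  rw [hrel, hsub, add_zero, ← hV]
  simp only [Finset.mem_coe]

lemma wiredProb_finite {V : Finset ℕ} (hV : (V : Set ℕ) = verts E ρ) {r : ℕ} (hr : r ∈ V)
    (W R : Finset (Sym2 ℕ)) :
    wiredProb E (verts E ρ) V W R =
      (((WT (V.erase r) (tE E (V.erase r))).filter (Agree W R)).card : ℝ) /
        ((WT (V.erase r) (tE E (V.erase r))).card : ℝ) := by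
  unfold wiredProb
  have h1 : {S : Finset (Sym2 ℕ) | WiredTree E (verts E ρ) V S ∧ ∀ e ∈ W, (e ∈ S ↔ e ∈ R)} =
      (((WT (V.erase r) (tE E (V.erase r))).filter (Agree W R) :
        Finset (Finset (Sym2 ℕ))) : Set (Finset (Sym2 ℕ))) := by
    ext S
    simp only [Set.mem_ofPred_eq, Finset.coe_filter, wiredTree_finite hG hV hr, Agree]
  have h2 : {S : Finset (Sym2 ℕ) | WiredTree E (verts E ρ) V S} =
      ((WT (V.erase r) (tE E (V.erase r)) : Finset (Finset (Sym2 ℕ))) :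
        Set (Finset (Sym2 ℕ))) := by
    ext S
    simp only [Set.mem_ofPred_eq, Finset.mem_coe, wiredTree_finite hG hV hr]
  rw [h1, h2, Set.ncard_coe_finset, Set.ncard_coe_finset]

end

end Pool.Agent.WUSF
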