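import Mathlib
import Pool.Agent.WUSF.Limit
import Pool.Agent.WUSF.Labels

/-!
The law of the limiting forest given the root sets.
-/

open MeasureTheory Filter Topology
open scoped Classical unitInterval ENNReal

namespace Pool.Agent.WUSF

/-- The limiting forest. -/
def limForest (E : Set (Sym2 ℕ)) (B : ℕ → Set ℕ) (o : ℕ → I) (w : ℕ × ℕ → I) : Set (Sym2 ℕ) :=
  {e | ∃ n, e ∈ forest E B o w n}

/-- The cylinder event. -/
def Cyl (W R : Finset (Sym2 ℕ)) (T : Set (Sym2 ℕ)) : Prop := ∀ e ∈ W, (e ∈ T ↔ e ∈ R)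

lemma mset_cyl {Ω : Type*} [MeasurableSpace Ω] {T : Ω → Set (Sym2 ℕ)} (hT : MS T)
    (W R : Finset (Sym2 ℕ)) : MeasurableSet {ω | Cyl W R (T ω)} :=
  mset_forall fun e => mset_imp (mset_iff (hT e) (MeasurableSet.const _))

variable {E : Set (Sym2 ℕ)} {ρ : ℕ} {B : ℕ → Set ℕ} {o : ℕ → I}

lemma tendsto_cyl (h : QEnv E B (nonIso E) o) (W R : Finset (Sym2 ℕ)) :
    Tendsto (fun n => (lab (ℕ × ℕ)).real {w | Cyl W R (forest E B o w n)}) atTop
      (𝓝 ((lab (ℕ × ℕ)).real {w | Cyl W R (limForest E B o w)})) := by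
  have h1 : Tendsto (fun n => lab (ℕ × ℕ) {w | Cyl W R (forest E B o w n)}) atTop
      (𝓝 (lab (ℕ × ℕ) {w | Cyl W R (limForest E B o w)})) := by
    refine tendsto_measure_of_tendsto_indicator_of_isFiniteMeasure _ _
      (fun n => mset_cyl (QEnv.ms_forest E B o n) W R) fun w => ?_
    have h2 : ∀ e ∈ W, ∀ᶠ n in atTop, (e ∈ forest E B o w n ↔ e ∈ limForest E B o w) := by
      intro e _
      by_cases he : e ∈ limForest E B o w
      · obtain ⟨n, hn⟩ := he
        filter_upwards [eventually_ge_atTop n] with m hm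
        exact ⟨fun h' => ⟨m, h'⟩, fun _ => h.forest_mono w hm hn⟩
      · exact Eventually.of_forall fun n => ⟨fun h' => ⟨n, h'⟩, fun h' => absurd h' he⟩
    have h3 := (eventually_all_finset W).2 h2
    filter_upwards [h3] with n hn
    simp only [Set.mem_ofPred_eq, Cyl]
    exact forall_congr' fun e => forall_congr' fun he => by rw [hn e he]
  exact (ENNReal.tendsto_toReal (measure_ne_top _ _)).comp h1

/-- Probabilities from the uniform law. -/
lemma prob_of_unif {n : ℕ} {X : Finset ℕ} {𝒯 : Finset (Finset (Sym2 ℕ))}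
    (h1 : ∀ w, RL (forest E B o w n) X ∈ 𝒯)
    (h2 : ∀ S ∈ 𝒯, lab (ℕ × ℕ) {w | RL (forest E B o w n) X = S} = (𝒯.card : ℝ≥0∞)⁻¹)
    {W R : Finset (Sym2 ℕ)}
    (h3 : ∀ w, Cyl W R (forest E B o w n) ↔ Agree W R (RL (forest E B o w n) X)) :
    (lab (ℕ × ℕ)).real {w | Cyl W R (forest E B o w n)} =
      ((𝒯.filter (Agree W R)).card : ℝ) / (𝒯.card : ℝ) := by
  have e1 : {w | Cyl W R (forest E B o w n)} =
      ⋃ S ∈ 𝒯.filter (Agree W R), {w | RL (forest E B o w n) X = S} := by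
    ext w
    simp only [Set.mem_ofPred_eq, Set.mem_iUnion, exists_prop, exists_eq_right', h3,
      Finset.mem_filter]
    exact ⟨fun h' => ⟨h1 w, h'⟩, fun h' => h'.2⟩
  have e2 : lab (ℕ × ℕ) {w | Cyl W R (forest E B o w n)} =
      ((𝒯.filter (Agree W R)).card : ℝ≥0∞) * (𝒯.card : ℝ≥0∞)⁻¹ := by
    rw [e1, measure_biUnion_finset]
    · rw [Finset.sum_congr rfl fun S hS => h2 S (Finset.mem_filter.1 hS).1, Finset.sum_const,
        nsmul_eq_mul]
    · intro S _ S' _ hne
      rw [Function.onFun, Set.disjoint_left]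
      intro w hw hw'
      exact hne (hw.symm.trans hw')
    · intro S _
      exact QEnv.measurable_RL E B o n X S
  rw [measureReal_def, e2, ENNReal.toReal_mul, ENNReal.toReal_inv, ENNReal.toReal_natCast,
    ENNReal.toReal_natCast, div_eq_mul_inv]

section

variable (hG : IsRootedGraph E ρ)

include hG

lemma verts_nonIso {y : ℕ} (hy : y ∈ verts E ρ) (hne : y ≠ ρ) {x : ℕ} (hx : x ∈ verts E ρ) :
    x ∈ nonIso E := by
  have h1 : ρ ∈ nonIso E := by
    rw [mem_verts] at hy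
    rcases Relation.ReflTransGen.cases_head hy with h | ⟨z, hz, _⟩
    · exact absurd h.symm hne
    · exact nonIso_left hz.1
  exact reach_nonIso h1 (mem_verts.1 hx)

lemma nonIso_verts {x : ℕ} (hx : x ∈ nonIso E) : x ∈ verts E ρ := by
  obtain ⟨y, hy⟩ := hx
  exact hG.connected x y hy

/-- Infinite graphs. -/
theorem law_infinite (h : QEnv E B (nonIso E) o) (hinf : (verts E ρ).Infinite)
    (hev : ∀ x ∈ verts E ρ, ∀ᶠ n in atTop, x ∉ B n) {W R : Finset (Sym2 ℕ)} {ℓ : ℝ}
    (hℓ : ∀ Λ : ℕ → Finset ℕ, Monotone Λ → (⋃ n, (Λ n : Set ℕ)) = verts E ρ →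
      Tendsto (fun n => wiredProb E (verts E ρ) (Λ n) W R) atTop (𝓝 ℓ)) :
    (lab (ℕ × ℕ)).real {w | Cyl W R (limForest E B o w)} = ℓ := by
  have hnV : ∀ Λ : Finset ℕ, ¬ verts E ρ ⊆ (Λ : Set ℕ) := fun Λ h =>
    hinf (Λ.finite_toSet.subset h)
  obtain ⟨y₀, hy₀, hne⟩ : ∃ y ∈ verts E ρ, y ≠ ρ := by
    by_contra hcon
    push Not at hcon
    exact hinf ((Set.finite_singleton ρ).subset fun y hy => hcon y hy)
  have hiso : ∀ x ∈ verts E ρ, x ∈ nonIso E := fun x hx => verts_nonIso hG hy₀ hne hx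
  obtain ⟨n₀, hn₀⟩ := eventually_atTop.1 (hev ρ root_mem)
  have hρ : ∀ n, ρ ∉ B (n + n₀) := fun n => hn₀ _ (Nat.le_add_left _ _)
  set X : ℕ → Finset ℕ := fun n => comp E (B (n + n₀)) ρ with hX
  have hXmem : ∀ n x, x ∈ X n ↔ Reach E (B (n + n₀)) ρ x := fun n x => h.mem_comp (hρ n)
  have hmono : Monotone X := by
    intro m n hmn x hx
    rw [hXmem] at hx ⊢
    exact hx.mono (h.anti (Nat.add_le_add_right hmn n₀))
  have hreach : ∀ y, Reach E ∅ ρ y → ∀ᶠ n in atTop, Reach E (B n) ρ y := by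
    intro y hy
    induction hy with
    | refl => exact Eventually.of_forall fun n => Reach.refl _
    | @tail a b _ hab ih =>
      have hV := edge_verts hG hab.1
      filter_upwards [ih, hev a hV.1, hev b hV.2] with n h1 h2 h3
      exact h1.trans (Reach.edge hab.1 h2 h3)
  have hXev : ∀ y ∈ verts E ρ, ∀ᶠ n in atTop, y ∈ X n := by
    intro y hy
    have h1 := (tendsto_add_atTop_nat n₀).eventually (hreach y (mem_verts.1 hy))
    filter_upwards [h1] with n hn
    exact (hXmem n y).2 hn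
  have hU : (⋃ n, (X n : Set ℕ)) = verts E ρ := by
    ext y
    rw [Set.mem_iUnion]
    constructor
    · rintro ⟨n, hn⟩
      have : y ∈ X n := hn
      rw [hXmem] at this
      exact mem_verts.2 (this.mono (Set.empty_subset _))
    · intro hy
      obtain ⟨n, hn⟩ := (hXev y hy).exists
      exact ⟨n, hn⟩
  have hlim1 := hℓ X hmono hU
  have hlim2 := (tendsto_cyl h W R).comp (tendsto_add_atTop_nat n₀)
  refine tendsto_nhds_unique hlim2 (hlim1.congr' ?_)
  have hWev : ∀ e ∈ W, ∀ᶠ n in atTop, e ∈ E → ∃ x ∈ X n, x ∈ e := by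
    intro e _
    by_cases he : e ∈ E
    · induction e using Sym2.ind with
      | _ a b =>
        filter_upwards [hXev a (edge_verts hG he).1] with n hn
        exact fun _ => ⟨a, hn, Sym2.mem_mk_left a b⟩
    · exact Eventually.of_forall fun n h' => absurd h' he
  filter_upwards [(eventually_all_finset W).2 hWev] with n hn
  rw [wiredProb_eq hG (exhaust_sub hU n) (hnV _)]
  symm
  refine prob_of_unif (X := X n) ?_ ?_ ?_
  · exact fun w => h.forest_mem_WT w (n + n₀) ρ (hiso ρ root_mem) (hρ n)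
  · exact fun S hS => h.unif_comp (n + n₀) ρ (hiso ρ root_mem) (hρ n) S hS
  · intro w
    unfold Cyl Agree
    refine forall_congr' fun e => forall_congr' fun he => ?_
    rw [h.mem_RL_forest]
    constructor
    · intro h1
      rw [← h1]
      exact ⟨fun h2 => h2.1, fun h2 => ⟨h2, hn e he (forest_sub h2).1⟩⟩
    · intro h1
      rw [← h1]
      exact ⟨fun h2 => ⟨h2, hn e he (forest_sub h2).1⟩, fun h2 => h2.1⟩

/-- Finite graphs. -/
theorem law_finite (h : QEnv E B (nonIso E) o) {V : Finset ℕ} (hV : (V : Set ℕ) = verts E ρ)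
    {r : ℕ} (hr : r ∈ V) (hrB : ∀ n, r ∈ B n)
    (hev : ∀ x ∈ V.erase r, ∀ᶠ n in atTop, x ∉ B n) (W R : Finset (Sym2 ℕ)) :
    (lab (ℕ × ℕ)).real {w | Cyl W R (limForest E B o w)} =
      wiredProb E (verts E ρ) V W R := by
  refine tendsto_nhds_unique (tendsto_cyl h W R) ?_
  refine tendsto_const_nhds.congr' ?_
  filter_upwards [(eventually_all_finset (V.erase r)).2 hev] with n hn
  have hVmem : ∀ x, x ∈ V ↔ x ∈ verts E ρ := fun x => by rw [← hV]; rfl
  have hiso : ∀ x ∈ V.erase r, x ∈ nonIso E := by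
    intro x hx
    obtain ⟨hxr, hxV⟩ := Finset.mem_erase.1 hx
    by_cases hxρ : x = ρ
    · exact verts_nonIso hG ((hVmem r).1 hr) (fun h' => hxr (hxρ.trans h'.symm)) ((hVmem x).1 hxV)
    · exact verts_nonIso hG ((hVmem x).1 hxV) hxρ ((hVmem x).1 hxV)
  have hsat : ∀ x ∈ V.erase r, x ∈ nonIso E ∧ x ∉ B n ∧ comp E (B n) x ⊆ V.erase r := by
    intro x hx
    refine ⟨hiso x hx, hn x hx, fun y hy => ?_⟩
    have hyB := h.comp_notMem (hn x hx) hy
    have hyV := h.comp_inV (hiso x hx) (hn x hx) hy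
    rw [Finset.mem_erase]
    exact ⟨fun h' => hyB (h' ▸ hrB n), (hVmem y).2 (nonIso_verts hG hyV)⟩
  rw [wiredProb_finite hG hV hr]
  symm
  refine prob_of_unif (X := V.erase r) ?_ ?_ ?_
  · exact fun w => h.RL_saturated hsat fun x hx => h.forest_mem_WT w n x (hsat x hx).1
      (hsat x hx).2.1
  · exact fun S hS => h.unif_saturated (h.unif_comp n) hsat hS
  · intro w
    unfold Cyl Agree
    have htouch : ∀ e ∈ E, ∃ x ∈ V.erase r, x ∈ e := by
      intro e he
      induction e using Sym2.ind with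
      | _ a b =>
        have hab : a ≠ b := by
          rintro rfl; exact hG.noloop _ he
        have hV' := edge_verts hG he
        by_cases har : a = r
        · refine ⟨b, Finset.mem_erase.2 ⟨fun h' => hab (har.trans h'.symm), (hVmem b).2 hV'.2⟩,
            Sym2.mem_mk_right a b⟩
        · exact ⟨a, Finset.mem_erase.2 ⟨har, (hVmem a).2 hV'.1⟩, Sym2.mem_mk_left a b⟩
    refine forall_congr' fun e => forall_congr' fun he => ?_
    rw [h.mem_RL_forest]
    constructor
    · intro h1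
      rw [← h1]
      exact ⟨fun h2 => h2.1, fun h2 => ⟨h2, htouch e (forest_sub h2).1⟩⟩
    · intro h1
      rw [← h1]
      exact ⟨fun h2 => ⟨h2, htouch e (forest_sub h2).1⟩, fun h2 => h2.1⟩

end

end Pool.Agent.WUSF
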