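import Mathlib
import Pool.Agent.WUSF.LimLaw
import Pool.Agent.WUSF.Equivar

/-!
Choice of the scales, mass transport, Borel-Cantelli.
-/

open MeasureTheory Filter Topology
open scoped Classical unitInterval ENNReal

namespace Pool.Agent.WUSF

/-- The bound at level `i`. -/
noncomputable def bnd (N K : ℕ → ℕ) (E : Set (Sym2 ℕ)) (x i : ℕ) : ℝ≥0∞ :=
  ENNReal.ofReal (Real.exp (-(K i : ℝ))) + min 1 (err E (N i) (K i) x)

/-- The total bound. -/
noncomputable def tot (N K : ℕ → ℕ) (E : Set (Sym2 ℕ)) (x : ℕ) : ℝ≥0∞ := ∑' i, bnd N K E x i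

lemma tot_act (π : Equiv.Perm ℕ) (N K : ℕ → ℕ) (E : Set (Sym2 ℕ)) (x : ℕ) :
    tot N K (act π E) (π x) = tot N K E x := by
  unfold tot bnd
  exact tsum_congr fun i => by rw [err_act]

lemma err_root {E : Set (Sym2 ℕ)} {ρ : ℕ} (hG : IsRootedGraph E ρ) (hR : Recurrent E ρ) {K : ℝ}
    (hK : 0 ≤ K) : Tendsto (fun N => err E N K ρ) atTop (𝓝 0) := by
  by_cases hρ : (nbr E ρ).Nonempty
  · exact tendsto_err hG.locallyFinite (liouville_of_recurrent hG.locallyFinite hR hρ) hK
      (Reach.refl ρ)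
  · rw [Finset.not_nonempty_iff_eq_empty] at hρ
    unfold err
    rw [hρ]
    simp

section meas

lemma ms_fst {α : Type*} [MeasurableSpace α] : MS (fun ω : Set (Sym2 ℕ) × α => ω.1) := fun a =>
  measurable_fst (measurableSet_mem a)

lemma mf_snd {α : Type*} [MeasurableSpace α] : MF (fun ω : α × ℕ => ω.2) := fun k =>
  measurable_snd (measurableSet_singleton k)

lemma meas_err_root (N : ℕ) (K : ℝ) :
    Measurable fun z : Set (Sym2 ℕ) × ℕ => err z.1 N K z.2 :=
  mf_snd.bind_meas (f := fun k (z : Set (Sym2 ℕ) × ℕ) => err z.1 N K k)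
    fun k => meas_err ms_fst N K k

lemma meas_tot {Ω : Type*} [MeasurableSpace Ω] {E : Ω → Set (Sym2 ℕ)} (hE : MS E) (N K : ℕ → ℕ)
    (x : ℕ) : Measurable fun ω => tot N K (E ω) x := by
  unfold tot bnd
  exact Measurable.tsum fun i => measurable_const.add (measurable_const.min (meas_err hE _ _ x))

end meas

variable (P : Measure (Set (Sym2 ℕ) × ℕ)) [IsProbabilityMeasure P]

lemma exists_N (hG : ∀ᵐ z ∂P, IsRootedGraph z.1 z.2) (hR : ∀ᵐ z ∂P, Recurrent z.1 z.2) (K : ℕ)
    {ε : ℝ≥0∞} (hε : 0 < ε) : ∃ N : ℕ, 0 < N ∧ ∫⁻ z, min 1 (err z.1 N K z.2) ∂P ≤ ε := by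
  have h1 : Tendsto (fun N : ℕ => ∫⁻ z, min 1 (err z.1 N K z.2) ∂P) atTop
      (𝓝 (∫⁻ _ : Set (Sym2 ℕ) × ℕ, 0 ∂P)) := by
    refine tendsto_lintegral_of_dominated_convergence (fun _ => 1) (fun N => ?_) (fun N => ?_) ?_ ?_
    · exact measurable_const.min (meas_err_root N K)
    · exact Eventually.of_forall fun z => min_le_left _ _
    · simp
    · filter_upwards [hG, hR] with z h1 h2
      have h3 := err_root h1 h2 (K := (K : ℝ)) (Nat.cast_nonneg _)
      have h4 : Tendsto (fun N => min 1 (err z.1 N K z.2)) atTop (𝓝 (min 1 0)) :=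
        (tendsto_const_nhds).min h3
      simpa using h4
  rw [lintegral_zero] at h1
  obtain ⟨N, hN, hN'⟩ := ((h1.eventually (gt_mem_nhds hε)).and (eventually_gt_atTop 0)).exists
  exact ⟨N, hN', hN.le⟩

/-- The choice of the scales. -/
theorem exists_scales (hG : ∀ᵐ z ∂P, IsRootedGraph z.1 z.2) (hR : ∀ᵐ z ∂P, Recurrent z.1 z.2) :
    ∃ N : ℕ → ℕ, (∀ i, 0 < N i) ∧ ∀ᵐ z ∂P, tot N id z.1 z.2 ≠ ∞ := by
  have h1 := fun i : ℕ => exists_N P hG hR i (ε := (2⁻¹ : ℝ≥0∞) ^ i) (by
    exact ENNReal.pow_pos (by simp) _)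
  choose N hN hN' using h1
  refine ⟨N, hN, ?_⟩
  have hmeas : Measurable fun z : Set (Sym2 ℕ) × ℕ => tot N id z.1 z.2 :=
    mf_snd.bind_meas (f := fun k (z : Set (Sym2 ℕ) × ℕ) => tot N id z.1 k)
      fun k => meas_tot ms_fst N id k
  have hint : ∫⁻ z, tot N id z.1 z.2 ∂P ≠ ∞ := by
    unfold tot bnd
    rw [lintegral_tsum]
    · have h2 : ∀ i, ∫⁻ z, (ENNReal.ofReal (Real.exp (-((id i : ℕ) : ℝ))) +
          min 1 (err z.1 (N i) ((id i : ℕ) : ℝ) z.2)) ∂P ≤
          ENNReal.ofReal (Real.exp (-1)) ^ i + (2⁻¹ : ℝ≥0∞) ^ i := by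
        intro i
        rw [lintegral_add_left measurable_const]
        refine add_le_add ?_ (hN' i)
        rw [lintegral_const, measure_univ, mul_one, ← ENNReal.ofReal_pow (Real.exp_pos _).le,
          ← Real.exp_nat_mul]
        refine ENNReal.ofReal_le_ofReal ?_
        simp
      refine ne_top_of_le_ne_top ?_ (ENNReal.tsum_le_tsum h2)
      rw [ENNReal.tsum_add, ENNReal.tsum_geometric, ENNReal.tsum_geometric]
      refine ENNReal.add_ne_top.2 ⟨?_, ?_⟩
      · rw [ENNReal.inv_ne_top, ne_eq, tsub_eq_zero_iff_le, not_le,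
          ← ENNReal.ofReal_one]
        exact (ENNReal.ofReal_lt_ofReal_iff one_pos).2 (by
          rw [Real.exp_lt_one_iff]; norm_num)
      · rw [ENNReal.inv_ne_top, ne_eq, tsub_eq_zero_iff_le, not_le]
        exact ENNReal.inv_lt_one.2 (by norm_num)
    · intro i
      exact (measurable_const.add (measurable_const.min (meas_err_root _ _))).aemeasurable
  exact (ae_lt_top hmeas hint).mono fun z hz => hz.ne

/-- By mass transport the bound is finite at every vertex. -/
theorem tot_all (hU : Unimodular P) {N K : ℕ → ℕ}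
    (h : ∀ᵐ z ∂P, tot N K z.1 z.2 ≠ ∞) :
    ∀ᵐ z ∂P, ∀ x ∈ verts z.1 z.2, tot N K z.1 x ≠ ∞ := by
  have hset : ∀ {Ω : Type} [MeasurableSpace Ω] {E : Ω → Set (Sym2 ℕ)} (_ : MS E) (x : ℕ),
      Measurable fun ω => if tot N K (E ω) x = ∞ then (1 : ℝ≥0∞) else 0 := by
    intro Ω _ E hE x
    exact Measurable.ite ((meas_tot hE N K x) (measurableSet_singleton _)) measurable_const
      measurable_const
  have key := hU (fun E _ y => if tot N K E y = ∞ then 1 else 0) ?_ ?_
  · have hR : ∫⁻ z : Set (Sym2 ℕ) × ℕ, (∑' x : ℕ, if x ∈ verts z.1 z.2 then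
        (if tot N K z.1 z.2 = ∞ then (1 : ℝ≥0∞) else 0) else 0) ∂P = 0 := by
      rw [← lintegral_zero (μ := P)]
      refine lintegral_congr_ae ?_
      filter_upwards [h] with z hz
      simp [hz]
    rw [hR] at key
    rw [lintegral_eq_zero_iff] at key
    · filter_upwards [key] with z hz x hx
      have hz' : (∑' x : ℕ, if x ∈ verts z.1 z.2 then
        (if tot N K z.1 x = ∞ then (1 : ℝ≥0∞) else 0) else 0) = 0 := hz
      rw [ENNReal.tsum_eq_zero] at hz'
      have h2 := hz' x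
      rw [if_pos hx] at h2
      intro h3
      rw [if_pos h3] at h2
      exact one_ne_zero h2
    · refine Measurable.tsum fun x => ?_
      refine Measurable.ite ?_ (hset ms_fst x) measurable_const
      have : {z : Set (Sym2 ℕ) × ℕ | x ∈ verts z.1 z.2} =
          {z : Set (Sym2 ℕ) × ℕ | Reach z.1 ∅ z.2 x} := by
        ext z; exact mem_verts
      rw [this]
      exact mf_snd.bind (P := fun k (z : Set (Sym2 ℕ) × ℕ) => Reach z.1 ∅ k x) fun k =>
        MS.reach ms_fst (B := fun _ => ∅) (fun _ => MeasurableSet.const _) k x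
  · have hs : MF (fun z : Set (Sym2 ℕ) × ℕ × ℕ => z.2.2) := fun k =>
      (measurable_snd.comp measurable_snd) (measurableSet_singleton k)
    exact hs.bind_meas (f := fun k (z : Set (Sym2 ℕ) × ℕ × ℕ) =>
      if tot N K z.1 k = ∞ then (1 : ℝ≥0∞) else 0) fun k => hset ms_fst k
  · intro π E x y
    have := tot_act π N K E y
    unfold act at this
    rw [this]

/-- Threshold labels. -/
def tt (z : ℕ × ℕ → I) (p : ℕ × ℕ) : I := z (p.1, p.2 + 1)

/-- Order labels. -/
def oo (z : ℕ × ℕ → I) (x : ℕ) : I := z (x, 0)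

omit P in
/-- Borel-Cantelli. -/
theorem eventually_notBad {E : Set (Sym2 ℕ)} {ρ : ℕ} (hG : IsRootedGraph E ρ)
    (hρ : (nbr E ρ).Nonempty) {N K : ℕ → ℕ} (hN : ∀ i, 0 < N i) {x : ℕ} (hx : x ∈ verts E ρ)
    (htot : tot N K E x ≠ ∞) :
    ∀ᵐ z ∂(lab (ℕ × ℕ)), ∀ᶠ i in atTop, x ∉ Bad E (N i) (K i) (fun a => tt z (a, i)) := by
  have hE : ∀ {Ω : Type} [MeasurableSpace Ω], MS (fun _ : Ω => E) := fun e =>
    MeasurableSet.const _
  have h1 : ∀ i, lab (ℕ × ℕ) {z | x ∈ Bad E (N i) (K i) (fun a => tt z (a, i))} ≤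
      bnd N K E x i := by
    intro i
    have hinj : Function.Injective fun a : ℕ => ((a, i + 1) : ℕ × ℕ) := by
      intro a b h
      exact (Prod.mk.inj h).1
    have hmap := lab_comp_inj hinj
    have hms : MeasurableSet {t : ℕ → I | x ∈ Bad E (N i) (K i) t} :=
      ms_bad hE (N i) (K i) (t := fun t => t) (fun a => measurable_pi_apply a) x
    have h2 : lab (ℕ × ℕ) {z | x ∈ Bad E (N i) (K i) (fun a => tt z (a, i))} =
        lab ℕ {t | x ∈ Bad E (N i) (K i) t} := by
      have hm : Measurable fun (z : ℕ × ℕ → I) (k : ℕ) => z (k, i + 1) :=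
        measurable_pi_lambda _ fun k => measurable_pi_apply _
      rw [← hmap, Measure.map_apply hm hms]
      rfl
    rw [h2]
    have h3 := bad_prob hG.locallyFinite hρ (hN i) (K := (K i : ℝ)) (mem_verts.1 hx)
    have h4 : lab ℕ {t | x ∈ Bad E (N i) (K i) t} ≤ 1 := prob_le_one
    unfold bnd
    rcases le_total 1 (err E (N i) (K i) x) with h5 | h5
    · rw [min_eq_left h5]
      exact h4.trans le_add_self
    · rw [min_eq_right h5]
      exact h3
  exact ae_eventually_notMem (ne_top_of_le_ne_top htot (ENNReal.tsum_le_tsum h1))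

end Pool.Agent.WUSF
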